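import Pool.Agent.H419.LT.Stm
import Pool.Graph.R_seed8.TH938.J3088

/-!
# Project LT: residue classes have a positive density in the fundamental cone
-/

set_option autoImplicit false

open NumberField Filter Topology Bornology MeasureTheory Module
open NumberField.mixedEmbedding NumberField.mixedEmbedding.fundamentalCone
open NumberField.mixedEmbedding.euclidean NumberField.Units
open scoped Classical nonZeroDivisors

namespace Pool.Agent.H419.LT.CONE

open Pool.Agent.TH444.ML Pool.Agent.TH938.ML Pool.Agent.TH938.J3088 Pool.Agent.H419.LT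

/-- the volume of the set of elements of norm at most one is positive -/
theorem SS_pos (M : Type) [Field M] [NumberField M] : 0 < volume.real (SS M) := by
  have h1 : volume (SS M) = volume (normLeOne M) := by
    unfold SS
    exact (volumePreserving_toMixed M).measure_preimage (measurableSet_normLeOne M).nullMeasurableSet
  have h2 : volume (SS M) ≠ 0 := by
    rw [h1, volume_normLeOne]
    refine mul_ne_zero (mul_ne_zero (pow_ne_zero _ two_ne_zero) (pow_ne_zero _ ?_)) ?_
    · rw [ENNReal.coe_ne_zero]
      exact NNReal.pi_pos.ne'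
    · rw [ENNReal.ofReal_ne_zero_iff]
      exact regulator_pos M
  exact ENNReal.toReal_pos h2 (SS_bdd M).measure_lt_top.ne

theorem t_CONE : S_CONE := by
  intro M _ _ 𝔟 h𝔟 a
  set J : (Ideal (𝓞 M))⁰ := ⟨𝔟, mem_nonZeroDivisors_of_ne_zero h𝔟⟩ with hJ
  refine ⟨volume.real (SS M) / ZLattice.covolume (LL M J),
    div_pos (SS_pos M) (ZLattice.covolume_pos _ _), ?_⟩
  have hlim := pts_shift (LL M J) (SS_bdd M) (SS_meas M) (SS_front M) (ev M a)
  rw [euclidean.finrank] at hlim
  refine squeeze (B := fun Z => ((CS M 𝔟 a Z).ncard : ℝ)) ?_ (D := finrank ℚ M) finrank_pos ?_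
  · intro Z Z' hZ
    show ((CS M 𝔟 a Z).ncard : ℝ) ≤ (CS M 𝔟 a Z').ncard
    have h1 : CS M 𝔟 a Z ⊆ CS M 𝔟 a Z' := fun α h => ⟨h.1, h.2.1, h.2.2.trans hZ⟩
    exact_mod_cast Set.ncard_le_ncard h1 (CS_finite M J a Z')
  · refine hlim.congr' ?_
    filter_upwards [eventually_gt_atTop 0] with n hn
    congr 2
    rw [← CS_image M J a hn, Set.ncard_image_of_injective _ (smul_ev_inj M hn)]

end Pool.Agent.H419.LT.CONE
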