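import Pool.Agent.H419.LT.Stm2
import Pool.Graph.R_seed8.TH938.J3088

/-!
# Project LT: elements of the fundamental cone in a residue class with given signs
-/

set_option autoImplicit false

open NumberField Filter Topology Bornology MeasureTheory Module
open NumberField.mixedEmbedding NumberField.mixedEmbedding.fundamentalCone
open NumberField.mixedEmbedding.euclidean NumberField.Units NumberField.InfinitePlace
open scoped Classical nonZeroDivisors

namespace Pool.Agent.H419.LT.CDS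

open Pool.Agent.TH444.ML Pool.Agent.TH938.ML Pool.Agent.TH938.J3088 Pool.Agent.H419.LT

section

variable (M : Type) [Field M] [NumberField M] (S : Set (M →+* ℝ))

/-- the real places at which the sign is negative -/
def ng : Set {w : InfinitePlace M // IsReal w} := {w | embedding_of_isReal w.2 ∉ S}

/-- the points of the mixed space with the prescribed signs -/
def TT0 : Set (mixedSpace M) :=
  {x | (∀ w, w ∈ ng M S → x.1 w < 0) ∧ (∀ w, w ∉ ng M S → 0 < x.1 w)}

omit [NumberField M] in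
/-- every real embedding comes from a real place -/
lemma real_emb (σ : M →+* ℝ) : ∃ w : {w : InfinitePlace M // IsReal w},
    embedding_of_isReal w.2 = σ := by
  set φ : M →+* ℂ := Complex.ofRealHom.comp σ with hφ
  have h1 : ComplexEmbedding.IsReal φ := by
    rw [ComplexEmbedding.isReal_iff]
    ext x
    simp [hφ, ComplexEmbedding.conjugate]
  refine ⟨⟨InfinitePlace.mk φ, isReal_mk_iff.mpr h1⟩, ?_⟩
  ext x
  have h2 := embedding_of_isReal_apply (isReal_mk_iff.mpr h1) x
  rw [embedding_mk_eq_of_isReal h1] at h2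
  have h3 : ((embedding_of_isReal (isReal_mk_iff.mpr h1) x : ℝ) : ℂ) = ((σ x : ℝ) : ℂ) := by
    rw [h2]; rfl
  exact_mod_cast h3

omit [NumberField M] in
lemma mem_TT0 (α : M) (hα : α ≠ 0) : mixedEmbedding M α ∈ TT0 M S ↔ sg α = S := by
  have h0 : ∀ w : {w : InfinitePlace M // IsReal w},
      (mixedEmbedding M α).1 w = embedding_of_isReal w.2 α := fun w => by
    rw [mixedEmbedding_apply_isReal]
  have hne : ∀ σ : M →+* ℝ, σ α ≠ 0 := fun σ => (map_ne_zero σ).mpr hα
  constructor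
  · rintro ⟨h1, h2⟩
    ext σ
    obtain ⟨w, rfl⟩ := real_emb M σ
    show 0 < embedding_of_isReal w.2 α ↔ _
    rw [← h0]
    constructor
    · intro h
      by_contra hS
      exact absurd h (not_lt.mpr (h1 w hS).le)
    · intro h
      exact h2 w (fun h3 => h3 h)
  · rintro rfl
    refine ⟨fun w hw => ?_, fun w hw => ?_⟩
    · rw [h0]
      exact lt_of_le_of_ne (not_lt.mp hw) (hne _)
    · rw [h0]
      exact not_not.mp hw

lemma symm_nlo : ∀ x, x ∈ normLeOne M ↔ (fun w ↦ ‖x.1 w‖, x.2) ∈ normLeOne M := by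
  intro x
  have h1 : normAtAllPlaces ((fun w ↦ ‖x.1 w‖, x.2) : mixedSpace M) = normAtAllPlaces x := by
    ext w
    rw [normAtAllPlaces_apply, normAtAllPlaces_apply]
    obtain hw | hw := isReal_or_isComplex w
    · rw [normAtPlace_apply_of_isReal hw, normAtPlace_apply_of_isReal hw]
      simp
    · rw [normAtPlace_apply_of_isComplex hw, normAtPlace_apply_of_isComplex hw]
  rw [normLeOne_eq_preimage_image M, Set.mem_preimage, Set.mem_preimage, h1]

lemma nlo_ne {x : mixedSpace M} (hx : x ∈ normLeOne M) (w : {w : InfinitePlace M // IsReal w}) :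
    x.1 w ≠ 0 := by
  have h1 := norm_pos_of_mem (mem_normLeOne.mp hx).1
  intro h
  have h2 : mixedEmbedding.norm x = 0 := by
    rw [mixedEmbedding.norm_eq_zero_iff]
    exact ⟨w.1, by rw [normAtPlace_apply_of_isReal w.2, h, norm_zero]⟩
  exact h1.ne' h2

lemma inter_eq : normLeOne M ∩ TT0 M S = negAt (ng M S) '' (plusPart (normLeOne M)) := by
  ext x
  constructor
  · rintro ⟨h1, h2⟩
    exact (mem_negAt_plusPart_of_mem _ (symm_nlo M) h1 (nlo_ne M h1)).mpr h2
  · intro h
    have h1 : x ∈ normLeOne M := by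
      rw [← iUnion_negAt_plusPart_union (normLeOne M) (symm_nlo M)]
      exact Or.inl (Set.mem_iUnion.mpr ⟨_, h⟩)
    exact ⟨h1, (mem_negAt_plusPart_of_mem _ (symm_nlo M) h1 (nlo_ne M h1)).mp h⟩

lemma isOpen_TT0 : IsOpen (TT0 M S) := by
  have h1 : TT0 M S = (⋂ w : {w : InfinitePlace M // IsReal w}, {x : mixedSpace M |
      (w ∈ ng M S → x.1 w < 0) ∧ (w ∉ ng M S → 0 < x.1 w)}) := by
    ext x
    simp only [TT0, Set.mem_iInter, Set.mem_ofPred_eq]
    exact ⟨fun h w => ⟨h.1 w, h.2 w⟩, fun h => ⟨fun w => (h w).1, fun w => (h w).2⟩⟩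
  rw [h1]
  refine isOpen_iInter_of_finite fun w => ?_
  by_cases hw : w ∈ ng M S
  · simp only [hw, true_imp_iff, not_true_eq_false, false_imp_iff, and_true]
    exact isOpen_lt (by fun_prop) continuous_const
  · simp only [hw, true_imp_iff, not_false_eq_true, false_imp_iff, true_and]
    exact isOpen_lt continuous_const (by fun_prop)

lemma frontier_TT0 : frontier (TT0 M S) ⊆ ⋃ w : {w : InfinitePlace M // IsReal w},
    {x : mixedSpace M | x.1 w = 0} := by
  intro x hx
  rw [(isOpen_TT0 M S).frontier_eq] at hx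
  obtain ⟨h1, h2⟩ := hx
  by_contra h3
  simp only [Set.mem_iUnion, Set.mem_ofPred_eq, not_exists] at h3
  apply h2
  have key1 : ∀ w, w ∈ ng M S → x.1 w ≤ 0 := by
    intro w hw
    have h4 : TT0 M S ⊆ {y : mixedSpace M | y.1 w ≤ 0} := fun y hy => (hy.1 w hw).le
    have h5 : IsClosed {y : mixedSpace M | y.1 w ≤ 0} :=
      isClosed_le (by fun_prop) continuous_const
    exact h5.closure_subset_iff.mpr h4 h1
  have key2 : ∀ w, w ∉ ng M S → 0 ≤ x.1 w := by
    intro w hw
    have h4 : TT0 M S ⊆ {y : mixedSpace M | 0 ≤ y.1 w} := fun y hy => (hy.2 w hw).le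
    have h5 : IsClosed {y : mixedSpace M | 0 ≤ y.1 w} :=
      isClosed_le continuous_const (by fun_prop)
    exact h5.closure_subset_iff.mpr h4 h1
  exact ⟨fun w hw => lt_of_le_of_ne (key1 w hw) (h3 w),
    fun w hw => lt_of_le_of_ne (key2 w hw) (Ne.symm (h3 w))⟩

lemma front_inter : volume (frontier (normLeOne M ∩ TT0 M S)) = 0 := by
  have h1 : volume (frontier (TT0 M S)) = 0 :=
    measure_mono_null (frontier_TT0 M S) (measure_iUnion_null_iff.mpr fun w => volume_eq_zero w)
  refine measure_mono_null (frontier_inter_subset _ _) ?_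
  refine measure_union_null ?_ ?_
  · exact measure_mono_null Set.inter_subset_left (volume_frontier_normLeOne M)
  · exact measure_mono_null Set.inter_subset_right h1

lemma vol_pos : volume (normLeOne M ∩ TT0 M S) ≠ 0 := by
  have h2 : volume (normLeOne M) ≠ 0 := by
    rw [volume_normLeOne]
    refine mul_ne_zero (mul_ne_zero (pow_ne_zero _ two_ne_zero) (pow_ne_zero _ ?_)) ?_
    · rw [ENNReal.coe_ne_zero]
      exact NNReal.pi_pos.ne'
    · rw [ENNReal.ofReal_ne_zero_iff]
      exact regulator_pos M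
  rw [inter_eq, volume_negAt_plusPart (measurableSet_normLeOne M)]
  rw [volume_eq_two_pow_mul_volume_plusPart (symm_nlo M) (measurableSet_normLeOne M)] at h2
  exact right_ne_zero_of_mul h2

/-- the set of elements of norm at most one of the cone with given signs, in the euclidean space -/
noncomputable def SG : Set (euclidean.mixedSpace M) :=
  (toMixed M) ⁻¹' (normLeOne M ∩ TT0 M S)

lemma SG_bdd : IsBounded (SG M S) :=
  (SS_bdd M).subset (Set.preimage_mono Set.inter_subset_left)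

lemma SG_meas : MeasurableSet (SG M S) :=
  (toMixed M).continuous.measurable ((measurableSet_normLeOne M).inter
    (isOpen_TT0 M S).measurableSet)

lemma SG_front : volume (frontier (SG M S)) = 0 := by
  unfold SG
  rw [← (toMixed M).coe_toHomeomorph, ← Homeomorph.preimage_frontier,
      (toMixed M).coe_toHomeomorph, (volumePreserving_toMixed M).measure_preimage
      measurableSet_frontier.nullMeasurableSet, front_inter]

lemma SG_pos : 0 < volume.real (SG M S) := by
  have h1 : volume (SG M S) = volume (normLeOne M ∩ TT0 M S) := by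
    unfold SG
    exact (volumePreserving_toMixed M).measure_preimage
      ((measurableSet_normLeOne M).inter (isOpen_TT0 M S).measurableSet).nullMeasurableSet
  refine ENNReal.toReal_pos ?_ (SG_bdd M S).measure_lt_top.ne
  rw [h1]
  exact vol_pos M S

lemma mem_SG (α : 𝓞 M) {n : ℕ} (hn : 0 < n) :
    (n : ℝ)⁻¹ • ev M α ∈ SG M S ↔
      (α ∈ cone M ∧ sg (α : M) = S) ∧ nrm α ≤ (n : ℝ) ^ finrank ℚ M := by
  have hn0 : (0 : ℝ) < (n : ℝ)⁻¹ := by
    have : (0 : ℝ) < n := by exact_mod_cast hn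
    positivity
  have h1 : (n : ℝ)⁻¹ • ev M α ∈ SG M S ↔
      (n : ℝ)⁻¹ • ev M α ∈ SS M ∧ (toMixed M) ((n : ℝ)⁻¹ • ev M α) ∈ TT0 M S := Iff.rfl
  rw [h1, mem_SS M α hn]
  have h2 : (toMixed M) ((n : ℝ)⁻¹ • ev M α) ∈ TT0 M S ↔ mixedEmbedding M (α : M) ∈ TT0 M S := by
    unfold ev
    rw [map_smul, ContinuousLinearEquiv.apply_symm_apply]
    have h3 : ∀ w : {w : InfinitePlace M // IsReal w},
        ((n : ℝ)⁻¹ • mixedEmbedding M (α : M)).1 w = (n : ℝ)⁻¹ * (mixedEmbedding M (α : M)).1 w :=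
      fun w => rfl
    unfold TT0
    simp only [Set.mem_ofPred_eq, h3]
    constructor
    · rintro ⟨a, b⟩
      exact ⟨fun w hw => by
          have := a w hw
          by_contra hc
          exact absurd this (not_lt.mpr (mul_nonneg hn0.le (not_lt.mp hc))),
        fun w hw => by have := b w hw; rwa [mul_pos_iff_of_pos_left hn0] at this⟩
    · rintro ⟨a, b⟩
      exact ⟨fun w hw => mul_neg_of_pos_of_neg hn0 (a w hw), fun w hw => mul_pos hn0 (b w hw)⟩
  rw [h2]
  constructor
  · rintro ⟨⟨a, b⟩, c⟩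
    have ha : (α : M) ≠ 0 := by
      intro h0
      have h1 : mixedEmbedding M (α : M) ∈ fundamentalCone M := a
      have h2 := norm_pos_of_mem h1
      rw [h0] at h2
      simp at h2
    exact ⟨⟨a, (mem_TT0 M S (α : M) ha).mp c⟩, b⟩
  · rintro ⟨⟨a, c⟩, b⟩
    have ha : (α : M) ≠ 0 := by
      intro h0
      have h1 : mixedEmbedding M (α : M) ∈ fundamentalCone M := a
      have h2 := norm_pos_of_mem h1
      rw [h0] at h2
      simp at h2
    exact ⟨⟨a, b⟩, (mem_TT0 M S (α : M) ha).mpr c⟩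

/-- the set of the elements that are counted -/
def CG (𝔟 : Ideal (𝓞 M)) (a : 𝓞 M) (Z : ℝ) : Set (𝓞 M) :=
  {α : 𝓞 M | (α ∈ cone M ∧ sg (α : M) = S) ∧ α - a ∈ 𝔟 ∧ nrm α ≤ Z}

lemma CG_image (J : (Ideal (𝓞 M))⁰) (a : 𝓞 M) {n : ℕ} (hn : 0 < n) :
    (fun α => (n : ℝ)⁻¹ • ev M α) '' CG M S J a ((n : ℝ) ^ finrank ℚ M) =
      Pts (LL M J) (SG M S) (ev M a) n := by
  have hn0 : (n : ℝ) ≠ 0 := by exact_mod_cast hn.ne'
  ext x
  constructor
  · rintro ⟨α, ⟨h1, h2, h3⟩, rfl⟩
    refine ⟨(mem_SG M S α hn).mpr ⟨h1, h3⟩, ?_⟩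
    show (n : ℝ) • ((n : ℝ)⁻¹ • ev M α) - ev M a ∈ LL M J
    rw [smul_inv_smul₀ hn0, ← ev_sub, mem_LL]
    exact ⟨α - a, h2, rfl⟩
  · rintro ⟨h1, h2⟩
    obtain ⟨β, hβ, hβx⟩ := (mem_LL M J _).mp h2
    have hx : (n : ℝ)⁻¹ • ev M (β + a) = x := by
      have h3 : ev M β = ev M (β + a) - ev M a := by rw [← ev_sub, add_sub_cancel_right]
      rw [h3, sub_left_inj] at hβx
      rw [hβx, inv_smul_smul₀ hn0]
    have h4 := (mem_SG M S (β + a) hn).mp (by rw [hx]; exact h1)
    exact ⟨β + a, ⟨h4.1, by rw [add_sub_cancel_right]; exact hβ, h4.2⟩, hx⟩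

lemma CG_finite (J : (Ideal (𝓞 M))⁰) (a : 𝓞 M) (Z : ℝ) : (CG M S J a Z).Finite :=
  (CS_finite M J a Z).subset fun _ h => ⟨h.1.1, h.2.1, h.2.2⟩

end

theorem t_CDS : S_CDS := by
  intro M _ _ S 𝔟 h𝔟 a
  set J : (Ideal (𝓞 M))⁰ := ⟨𝔟, mem_nonZeroDivisors_of_ne_zero h𝔟⟩ with hJ
  refine ⟨volume.real (SG M S) / ZLattice.covolume (LL M J),
    div_pos (SG_pos M S) (ZLattice.covolume_pos _ _), ?_⟩
  have hlim := pts_shift (LL M J) (SG_bdd M S) (SG_meas M S) (SG_front M S) (ev M a)
  rw [euclidean.finrank] at hlim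
  refine squeeze (B := fun Z => ((CG M S 𝔟 a Z).ncard : ℝ)) ?_ (D := finrank ℚ M) finrank_pos ?_
  · intro Z Z' hZ
    show ((CG M S 𝔟 a Z).ncard : ℝ) ≤ (CG M S 𝔟 a Z').ncard
    have h1 : CG M S 𝔟 a Z ⊆ CG M S 𝔟 a Z' := fun α h => ⟨h.1, h.2.1, h.2.2.trans hZ⟩
    exact_mod_cast Set.ncard_le_ncard h1 (CG_finite M S J a Z')
  · refine hlim.congr' ?_
    filter_upwards [eventually_gt_atTop 0] with n hn
    congr 2
    rw [← CG_image M S J a hn, Set.ncard_image_of_injective _ (smul_ev_inj M hn)]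

end Pool.Agent.H419.LT.CDS
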