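import Pool.Agent.H419.LT.Stm2
import Pool.Graph.R_seed8.TH370.J3089
import Pool.Graph.R_seed8.TH938.J3088

/-! # The squarefree sieve in a subset of the fundamental cone -/

set_option autoImplicit false

open NumberField Filter Topology

namespace Pool.Agent.H419.LT.CSC

open Pool.Agent.TH444.ML
open Pool.Agent.TH370.J3089 (IS IS_finite IS_mono IS_le tail_small nrm_eq one_le_norm one_le_nrm
  sqf_iff div_cnt)

section

variable {M : Type} [Field M] [NumberField M]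

/-- the limit for conditions depending on residue classes -/
lemma lim_fin (h1 : ConeFacts) {A₀ : Set (𝓞 M)} (hA₀ : A₀ ⊆ cone M)
    (h2 : ∀ (𝔟 : Ideal (𝓞 M)), 𝔟 ≠ ⊥ → ∀ a : 𝓞 M, ∃ c : ℝ, Tendsto (fun Z : ℝ =>
      (Set.ncard {α : 𝓞 M | α ∈ A₀ ∧ α - a ∈ 𝔟 ∧ nrm α ≤ Z} : ℝ) / Z) atTop (𝓝 c))
    {𝔟 : Ideal (𝓞 M)} (hb : 𝔟 ≠ ⊥) (g : 𝓞 M → ℝ)
    (hg : ∀ α α' : 𝓞 M, α - α' ∈ 𝔟 → g α = g α') (hg0 : ∀ α, 0 ≤ g α) (cd : 𝓞 M → Prop)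
    (hcd : ∀ α α' : 𝓞 M, α - α' ∈ 𝔟 → (cd α ↔ cd α')) {G : ℝ} (hG : ∀ α, g α ≤ G) :
    ∃ c : ℝ, Tendsto (fun Y : ℝ =>
      (Set.ncard {α : 𝓞 M | α ∈ A₀ ∧ cd α ∧ nrm α ≤ Y * g α} : ℝ) / Y) atTop (𝓝 c) := by
  classical
  obtain ⟨f1, f2, f3⟩ := h1 M
  have : Finite (𝓞 M ⧸ 𝔟) := Ring.HasFiniteQuotients.finiteQuotient hb
  have := Fintype.ofFinite (𝓞 M ⧸ 𝔟)
  -- representatives
  obtain ⟨r, hr⟩ : ∃ r : 𝓞 M ⧸ 𝔟 → 𝓞 M, ∀ q, Ideal.Quotient.mk 𝔟 (r q) = q :=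
    ⟨fun q => (Ideal.Quotient.mk_surjective q).choose,
      fun q => (Ideal.Quotient.mk_surjective q).choose_spec⟩
  have hclass : ∀ q : 𝓞 M ⧸ 𝔟, ∃ c : ℝ, Tendsto (fun Y : ℝ =>
      (Set.ncard {α : 𝓞 M | α ∈ A₀ ∧ cd (r q) ∧ α - r q ∈ 𝔟 ∧ nrm α ≤ Y * g (r q)} : ℝ) / Y)
        atTop (𝓝 c) := by
    intro q
    by_cases hq : cd (r q)
    · rcases (hg0 (r q)).eq_or_lt with h0 | h0
      · refine ⟨0, ?_⟩
        have : (fun Y : ℝ => (Set.ncard {α : 𝓞 M | α ∈ A₀ ∧ cd (r q) ∧ α - r q ∈ 𝔟 ∧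
            nrm α ≤ Y * g (r q)} : ℝ) / Y) = fun _ => 0 := by
          funext Y
          have h3 : {α : 𝓞 M | α ∈ A₀ ∧ cd (r q) ∧ α - r q ∈ 𝔟 ∧
            nrm α ≤ Y * g (r q)} = ∅ := by
            ext α
            constructor
            · rintro ⟨k1, _, _, k2⟩
              rw [← h0, mul_zero] at k2
              have := one_le_nrm (f2 α (hA₀ k1))
              linarith
            · exact fun h => absurd h (Set.notMem_empty _)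
          rw [h3]
          simp
        rw [this]
        exact tendsto_const_nhds
      · obtain ⟨c, hc⟩ := h2 𝔟 hb (r q)
        refine ⟨c * g (r q), ?_⟩
        have h3 := (hc.comp (tendsto_id.atTop_mul_const h0)).mul_const (g (r q))
        refine h3.congr' ?_
        filter_upwards [eventually_gt_atTop 0] with Y hY
        simp only [Function.comp_apply, id_eq]
        have h4 : {α : 𝓞 M | α ∈ A₀ ∧ cd (r q) ∧ α - r q ∈ 𝔟 ∧ nrm α ≤ Y * g (r q)} =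
            {α : 𝓞 M | α ∈ A₀ ∧ α - r q ∈ 𝔟 ∧ nrm α ≤ Y * g (r q)} := by
          ext α
          exact ⟨fun h => ⟨h.1, h.2.2⟩, fun h => ⟨h.1, hq, h.2⟩⟩
        rw [h4]
        field_simp
    · refine ⟨0, ?_⟩
      have : (fun Y : ℝ => (Set.ncard {α : 𝓞 M | α ∈ A₀ ∧ cd (r q) ∧ α - r q ∈ 𝔟 ∧
          nrm α ≤ Y * g (r q)} : ℝ) / Y) = fun _ => 0 := by
        funext Y
        have h3 : {α : 𝓞 M | α ∈ A₀ ∧ cd (r q) ∧ α - r q ∈ 𝔟 ∧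
          nrm α ≤ Y * g (r q)} = ∅ := by
          ext α
          exact ⟨fun h => absurd h.2.1 hq, fun h => absurd h (Set.notMem_empty _)⟩
        rw [h3]
        simp
      rw [this]
      exact tendsto_const_nhds
  choose c hc using hclass
  refine ⟨∑ q, c q, ?_⟩
  have h3 := tendsto_finsetSum Finset.univ (fun q _ => hc q)
  refine h3.congr' ?_
  filter_upwards [eventually_ge_atTop 0] with Y hY
  have hfin : {α : 𝓞 M | α ∈ A₀ ∧ cd α ∧ nrm α ≤ Y * g α}.Finite :=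
    (f1 (Y * G)).subset fun α hα => ⟨hA₀ hα.1, hα.2.2.trans (mul_le_mul_of_nonneg_left (hG α) hY)⟩
  rw [← Finset.sum_div, Set.ncard_eq_toFinset_card _ hfin,
    Finset.card_eq_sum_card_fiberwise (f := Ideal.Quotient.mk 𝔟) (t := Finset.univ)
      (fun _ _ => Finset.mem_coe.2 (Finset.mem_univ _)), Nat.cast_sum]
  congr 1
  refine Finset.sum_congr rfl fun q _ => ?_
  rw [← Set.ncard_coe_finset]
  congr 2
  ext α
  simp only [Set.mem_ofPred_eq, Finset.coe_filter, Set.Finite.mem_toFinset]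
  have hmk : ∀ α, Ideal.Quotient.mk 𝔟 α = q ↔ α - r q ∈ 𝔟 := by
    intro α
    rw [← Ideal.Quotient.eq, hr q]
  rw [hmk]
  constructor
  · rintro ⟨k1, k2, k3, k4⟩
    refine ⟨⟨k1, (hcd α (r q) k3).2 k2, ?_⟩, k3⟩
    rw [hg α (r q) k3]
    exact k4
  · rintro ⟨⟨k1, k2, k3⟩, k4⟩
    rw [hg α (r q) k4] at k3
    exact ⟨k1, (hcd α (r q) k4).1 k2, k4, k3⟩

end

/-- the squarefree sieve in a subset of the fundamental cone -/
theorem t_CSC : S_CSC := by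
  classical
  intro M _ _ A₀ hA₀ h2 𝔠 𝔪 hc hm g hg hg0
  have h1 : ConeFacts := Pool.Agent.TH938.J3088.coneFacts
  obtain ⟨f1, f2, f3⟩ := h1 M
  -- the bound of `g`
  obtain ⟨G, hG⟩ : ∃ G : ℝ, ∀ α, g α ≤ G := by
    have : Finite (𝓞 M ⧸ 𝔪) := Ring.HasFiniteQuotients.finiteQuotient hm
    have := Fintype.ofFinite (𝓞 M ⧸ 𝔪)
    refine ⟨∑ q : 𝓞 M ⧸ 𝔪, g (Ideal.Quotient.mk_surjective q).choose, fun α => ?_⟩
    have h3 : g α = g (Ideal.Quotient.mk_surjective (Ideal.Quotient.mk 𝔪 α)).choose := by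
      refine hg _ _ ?_
      rw [← Ideal.Quotient.eq]
      exact (Ideal.Quotient.mk_surjective (Ideal.Quotient.mk 𝔪 α)).choose_spec.symm
    rw [h3]
    exact Finset.single_le_sum (f := fun q : 𝓞 M ⧸ 𝔪 =>
      g (Ideal.Quotient.mk_surjective q).choose) (fun q _ => hg0 _) (Finset.mem_univ _)
  have hG0 : 0 ≤ G := (hg0 0).trans (hG 0)
  obtain ⟨C, hC, hIS⟩ := IS_le M
  obtain ⟨w, hw⟩ : ∃ w : ℝ, w = Units.torsionOrder M := ⟨_, rfl⟩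
  have hw0 : 0 ≤ w := by rw [hw]; positivity
  -- the sets
  obtain ⟨A, hA⟩ : ∃ A : ℝ → Set (𝓞 M), ∀ Y, A Y =
    {α : 𝓞 M | α ∈ A₀ ∧ Sqf M 𝔠 α ∧ nrm α ≤ Y * g α} := ⟨_, fun _ => rfl⟩
  have hgoal : (fun Y : ℝ => (Set.ncard {α : 𝓞 M | α ∈ A₀ ∧ Sqf M 𝔠 α ∧
      nrm α ≤ Y * g α} : ℝ) / Y) = fun Y => ((A Y).ncard : ℝ) / Y := by
    funext Y
    rw [hA]
  rw [hgoal]
  have key : ∀ ε : ℝ, 0 < ε → ∃ f : ℝ → ℝ, (∃ c : ℝ, Tendsto f atTop (𝓝 c)) ∧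
      ∀ Y : ℝ, 0 < Y → |((A Y).ncard : ℝ) / Y - f Y| ≤ ε := by
    intro ε hε
    obtain ⟨z, hz⟩ := tail_small M (ε / (w * C * G + 1)) (by positivity)
    -- the small primes
    have hPfin : {𝔭 : Ideal (𝓞 M) | 𝔭.IsPrime ∧ 𝔭 ≠ ⊥ ∧ (Ideal.absNorm 𝔭 : ℝ) ≤ z}.Finite :=
      (IS_finite M z).subset fun 𝔭 h => ⟨h.2.1, h.2.2⟩
    set P := hPfin.toFinset with hP
    have hPmem : ∀ 𝔭, 𝔭 ∈ P ↔ 𝔭.IsPrime ∧ 𝔭 ≠ ⊥ ∧ (Ideal.absNorm 𝔭 : ℝ) ≤ z := fun 𝔭 => by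
      rw [hP, Set.Finite.mem_toFinset]
      rfl
    obtain ⟨𝔟, h𝔟⟩ : ∃ 𝔟 : Ideal (𝓞 M), 𝔟 = 𝔪 * (𝔠 ^ 2 * ∏ 𝔭 ∈ P, 𝔭 ^ 2) := ⟨_, rfl⟩
    have hb0 : 𝔟 ≠ ⊥ := by
      rw [h𝔟]
      refine mul_ne_zero hm (mul_ne_zero (pow_ne_zero 2 hc) ?_)
      rw [Finset.prod_ne_zero_iff]
      intro 𝔭 h𝔭
      exact pow_ne_zero 2 ((hPmem 𝔭).1 h𝔭).2.1
    have hb1 : 𝔟 ≤ 𝔪 := by
      apply Ideal.le_of_dvd
      rw [h𝔟]
      exact dvd_mul_right _ _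
    have hb2 : 𝔟 ≤ 𝔠 ^ 2 := by
      apply Ideal.le_of_dvd
      rw [h𝔟]
      exact (dvd_mul_right _ _).trans (dvd_mul_left _ _)
    have hb3 : ∀ 𝔭 ∈ P, 𝔟 ≤ 𝔭 ^ 2 * 𝔠 ^ 2 := by
      intro 𝔭 h𝔭
      apply Ideal.le_of_dvd
      rw [h𝔟, mul_comm (𝔭 ^ 2)]
      exact (mul_dvd_mul dvd_rfl (Finset.dvd_prod_of_mem (fun 𝔭 : Ideal (𝓞 M) => 𝔭 ^ 2)
        h𝔭)).trans (dvd_mul_left _ _)
    have hmemiff : ∀ (I : Ideal (𝓞 M)), 𝔟 ≤ I → ∀ α α' : 𝓞 M, α - α' ∈ 𝔟 → (α ∈ I ↔ α' ∈ I) := by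
      intro I hI α α' h
      have h3 := hI h
      constructor
      · intro h4
        have := I.sub_mem h4 h3
        rwa [sub_sub_cancel] at this
      · intro h4
        have := I.add_mem h3 h4
        rwa [sub_add_cancel] at this
    obtain ⟨cd, hcd⟩ : ∃ cd : 𝓞 M → Prop, ∀ α, cd α ↔
      (α ∈ 𝔠 ^ 2 ∧ ∀ 𝔭 ∈ P, α ∉ 𝔭 ^ 2 * 𝔠 ^ 2) := ⟨_, fun _ => Iff.rfl⟩
    have hlim := lim_fin h1 hA₀ h2 hb0 g (fun α α' h => hg α α' (hb1 h)) hg0 cd (by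
      intro α α' h
      rw [hcd, hcd, hmemiff _ hb2 α α' h]
      refine and_congr_right fun _ => forall_congr' fun 𝔭 => forall_congr' fun h𝔭 => ?_
      rw [hmemiff _ (hb3 𝔭 h𝔭) α α' h]) hG
    refine ⟨_, hlim, fun Y hY => ?_⟩
    obtain ⟨B, hB⟩ : ∃ B : Set (𝓞 M), B = {α : 𝓞 M | α ∈ A₀ ∧ cd α ∧ nrm α ≤ Y * g α} :=
      ⟨_, rfl⟩
    rw [← hB]
    have hYG : ∀ α : 𝓞 M, nrm α ≤ Y * g α → nrm α ≤ Y * G := fun α h =>
      h.trans (mul_le_mul_of_nonneg_left (hG α) hY.le)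
    have hBfin : B.Finite := by
      rw [hB]
      exact (f1 (Y * G)).subset fun α hα => ⟨hA₀ hα.1, hYG α hα.2.2⟩
    have hAB : A Y ⊆ B := by
      rw [hA, hB]
      rintro α ⟨k1, k2, k3⟩
      refine ⟨k1, ?_, k3⟩
      rw [hcd]
      obtain ⟨k4, k5⟩ := (sqf_iff hc (f2 α (hA₀ k1))).1 k2
      exact ⟨k4, fun 𝔭 h𝔭 => k5 𝔭 ((hPmem 𝔭).1 h𝔭).1 ((hPmem 𝔭).1 h𝔭).2.1⟩
    have hAfin : (A Y).Finite := hBfin.subset hAB
    have hAB' : ((A Y).ncard : ℝ) ≤ B.ncard := by exact_mod_cast Set.ncard_le_ncard hAB hBfin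
    -- the large primes
    have hLfin : {𝔭 : Ideal (𝓞 M) | 𝔭.IsPrime ∧ 𝔭 ≠ ⊥ ∧ z < (Ideal.absNorm 𝔭 : ℝ) ∧
        (Ideal.absNorm 𝔭 : ℝ) ≤ Y * G}.Finite :=
      (IS_finite M (Y * G)).subset fun 𝔭 h => ⟨h.2.1, h.2.2.2⟩
    set L := hLfin.toFinset with hL
    have hLmem : ∀ 𝔭, 𝔭 ∈ L ↔ 𝔭.IsPrime ∧ 𝔭 ≠ ⊥ ∧ z < (Ideal.absNorm 𝔭 : ℝ) ∧
        (Ideal.absNorm 𝔭 : ℝ) ≤ Y * G := fun 𝔭 => by
      rw [hL, Set.Finite.mem_toFinset]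
      rfl
    have hDfin : ∀ 𝔭 : Ideal (𝓞 M),
        {α : 𝓞 M | α ∈ cone M ∧ α ∈ 𝔭 ^ 2 ∧ nrm α ≤ Y * G}.Finite := fun 𝔭 =>
      (f1 (Y * G)).subset fun α hα => ⟨hα.1, hα.2.2⟩
    have hsub : hBfin.toFinset ⊆ hAfin.toFinset ∪ L.biUnion (fun 𝔭 => (hDfin 𝔭).toFinset) := by
      intro α hα
      rw [Set.Finite.mem_toFinset, hB] at hα
      obtain ⟨k1, k2, k3⟩ := hα
      rw [hcd] at k2
      rw [Finset.mem_union, Set.Finite.mem_toFinset, Finset.mem_biUnion]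
      by_cases h : Sqf M 𝔠 α
      · left
        rw [hA]
        exact ⟨k1, h, k3⟩
      · right
        rw [sqf_iff hc (f2 α (hA₀ k1))] at h
        have h3 : ∃ 𝔭 : Ideal (𝓞 M), 𝔭.IsPrime ∧ 𝔭 ≠ ⊥ ∧ α ∈ 𝔭 ^ 2 * 𝔠 ^ 2 := by
          by_contra hcon
          push Not at hcon
          exact h ⟨k2.1, hcon⟩
        obtain ⟨𝔭, h4, h5, h6⟩ := h3
        have h6' : 𝔭 ^ 2 * 𝔠 ^ 2 ≤ 𝔭 ^ 2 := Ideal.mul_le_left
        have h7 : α ∈ 𝔭 ^ 2 := h6' h6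
        have h8 : z < (Ideal.absNorm 𝔭 : ℝ) := by
          by_contra hcon
          exact k2.2 𝔭 ((hPmem 𝔭).2 ⟨h4, h5, not_lt.1 hcon⟩) h6
        have h9 : (Ideal.absNorm 𝔭 : ℝ) ≤ nrm α := by
          rw [nrm_eq]
          have h10 : Ideal.absNorm 𝔭 ∣ Ideal.absNorm (Ideal.span {α}) := by
            refine map_dvd _ ?_
            refine (dvd_pow_self 𝔭 two_ne_zero).trans ?_
            exact Ideal.dvd_span_singleton.2 h7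
          have h11 : Ideal.absNorm (Ideal.span {α}) ≠ 0 := by
            rw [Ne, Ideal.absNorm_eq_zero_iff, Ideal.span_singleton_eq_bot]
            exact f2 α (hA₀ k1)
          exact_mod_cast Nat.le_of_dvd (Nat.pos_of_ne_zero h11) h10
        refine ⟨𝔭, (hLmem 𝔭).2 ⟨h4, h5, h8, h9.trans (hYG α k3)⟩, ?_⟩
        rw [Set.Finite.mem_toFinset]
        exact ⟨hA₀ k1, h7, hYG α k3⟩
    have hcount : (B.ncard : ℝ) ≤ (A Y).ncard + ε * Y := by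
      have k1 := (Finset.card_le_card hsub).trans (Finset.card_union_le _ _)
      rw [← Set.ncard_eq_toFinset_card _ hBfin, ← Set.ncard_eq_toFinset_card _ hAfin] at k1
      have k2 : (B.ncard : ℝ) ≤ (A Y).ncard + ((L.biUnion (fun 𝔭 =>
        (hDfin 𝔭).toFinset)).card : ℝ) := by exact_mod_cast k1
      refine k2.trans (add_le_add le_rfl ?_)
      have k3 : ((L.biUnion (fun 𝔭 => (hDfin 𝔭).toFinset)).card : ℝ) ≤
            ∑ 𝔭 ∈ L, (Set.ncard {α : 𝓞 M | α ∈ cone M ∧ α ∈ 𝔭 ^ 2 ∧ nrm α ≤ Y * G} : ℝ) := by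
        refine le_trans (Nat.cast_le.2 Finset.card_biUnion_le) ?_
        rw [Nat.cast_sum]
        refine Finset.sum_le_sum fun 𝔭 _ => ?_
        rw [Set.ncard_eq_toFinset_card _ (hDfin 𝔭)]
      refine k3.trans ?_
      have k4 : ∀ 𝔭 ∈ L, (Set.ncard {α : 𝓞 M | α ∈ cone M ∧ α ∈ 𝔭 ^ 2 ∧ nrm α ≤ Y * G} : ℝ) ≤
          (w * C * G * Y) * (1 / (Ideal.absNorm 𝔭 : ℝ) ^ 2) := by
        intro 𝔭 h𝔭
        obtain ⟨_, h5, _, _⟩ := (hLmem 𝔭).1 h𝔭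
        have h6 := div_cnt h1 (M := M) (𝔟 := 𝔭 ^ 2) (pow_ne_zero 2 h5) (Y * G)
        have h7 : (Set.ncard {α : 𝓞 M | α ∈ cone M ∧ α ∈ 𝔭 ^ 2 ∧ nrm α ≤ Y * G} : ℝ) ≤
            w * ((IS M (Y * G / Ideal.absNorm (𝔭 ^ 2))).ncard : ℝ) := by
          rw [hw]
          exact_mod_cast h6
        refine h7.trans ?_
        have h8 := hIS (Y * G / Ideal.absNorm (𝔭 ^ 2)) (by positivity)
        refine (mul_le_mul_of_nonneg_left h8 hw0).trans (le_of_eq ?_)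
        rw [map_pow]
        push_cast
        ring
      refine (Finset.sum_le_sum k4).trans ?_
      rw [← Finset.mul_sum]
      have k5 := hz L (fun 𝔭 h𝔭 => ((hLmem 𝔭).1 h𝔭).2.2.1)
      refine (mul_le_mul_of_nonneg_left k5 (by positivity)).trans ?_
      have k6 : w * C * G / (w * C * G + 1) ≤ 1 := by
        rw [div_le_one (by positivity)]
        linarith
      calc w * C * G * Y * (ε / (w * C * G + 1)) = (w * C * G / (w * C * G + 1)) * (ε * Y) := by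
            field_simp
        _ ≤ 1 * (ε * Y) := mul_le_mul_of_nonneg_right k6 (by positivity)
        _ = ε * Y := one_mul _
    rw [← sub_div, abs_div, abs_of_pos hY, div_le_iff₀ hY, abs_le]
    constructor
    · linarith
    · have : 0 ≤ ε * Y := by positivity
      linarith
  -- the conclusion
  refine cauchySeq_tendsto_of_complete ?_
  rw [Metric.cauchySeq_iff']
  intro ε hε
  obtain ⟨f, ⟨c, hf⟩, hfA⟩ := key (ε / 5) (by positivity)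
  obtain ⟨N, hN⟩ := eventually_atTop.1 ((Metric.tendsto_nhds.1 hf (ε / 5) (by positivity)).and
    (eventually_gt_atTop 0))
  refine ⟨N, fun Y hY => ?_⟩
  obtain ⟨a1, a2⟩ := hN Y hY
  obtain ⟨b1, b2⟩ := hN N le_rfl
  have a3 := hfA Y a2
  have b3 := hfA N b2
  rw [Real.dist_eq] at a1 b1 ⊢
  rw [abs_lt] at a1 b1 ⊢
  rw [abs_le] at a3 b3
  constructor <;> linarith [a1.1, a1.2, b1.1, b1.2, a3.1, a3.2, b3.1, b3.2]

end Pool.Agent.H419.LT.CSC
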