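import Pool.Agent.H419.LT.Stm
import Pool.Graph.R_seed8.TH444.ML.Done

/-! # The number of the quadratic extensions with a property determined by congruences -/

set_option autoImplicit false

open NumberField Filter Topology
open Pool.Agent.TH444.ML Pool.Agent.TH626.J3090

namespace Pool.Agent.H419.LT.LIMP

section Count

set_option linter.unusedSectionVars false

variable {M E : Type} [Field M] [NumberField M] [Field E] [Algebra M E] [IsAlgClosed E]

/-- the nonsquares such that the field has the property `T` -/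
def S2T (T : IntermediateField M E → Prop) (rep : ClassGroup (𝓞 M) → Ideal (𝓞 M))
    (k : Ideal (𝓞 M) → 𝓞 M → ℕ) (Y : ℝ) (p : P M) : Set (𝓞 M) :=
  {α | α ∈ S2 rep k Y p ∧ T (fld E (p, α))}

theorem countT (T : IntermediateField M E → Prop) (h2 : KumP) (h3 : ConeFacts)
    {rep : ClassGroup (𝓞 M) → Ideal (𝓞 M)}
    (hrep : Rep M rep) {k : Ideal (𝓞 M) → 𝓞 M → ℕ} (hk : IsK M k) [Fintype (P M)] {Y : ℝ}
    (hY : 0 ≤ Y) :
    {L : IntermediateField M E | L ∈ QS M E Y ∧ T L}.ncard * Units.torsionOrder M =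
      ∑ p : P M, (S2T T rep k Y p).ncard := by
  classical
  have hw : 0 < Units.torsionOrder M := Units.torsionOrder_pos M
  have hfin2 : ∀ p : P M, (S2T T rep k Y p).Finite := fun p =>
    (S1_finite h3 hrep hk hY p).subset fun α h => h.1.1
  have hT : {x : P M × 𝓞 M | x.2 ∈ S2T T rep k Y x.1}.Finite := by
    have : {x : P M × 𝓞 M | x.2 ∈ S2T T rep k Y x.1} =
        ⋃ p : P M, (Prod.mk p) '' (S2T T rep k Y p) := by
      ext ⟨p, α⟩
      simp
    rw [this]
    exact Set.finite_iUnion fun p => (hfin2 p).image _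
  have himg : fld E '' {x : P M × 𝓞 M | x.2 ∈ S2T T rep k Y x.1} =
      {L : IntermediateField M E | L ∈ QS M E Y ∧ T L} := by
    apply Set.Subset.antisymm
    · rintro _ ⟨x, hx, rfl⟩
      exact ⟨fld_mem h2 hrep hk hx.1, hx.2⟩
    · rintro L ⟨hL, hTL⟩
      have h5 := fiber_card h2 h3 hrep hk hL
      have h6 : {x : P M × 𝓞 M | x.2 ∈ S2 rep k Y x.1 ∧ fld E x = L}.Nonempty :=
        Set.nonempty_of_ncard_ne_zero (by rw [h5]; omega)
      obtain ⟨x, hx1, hx2⟩ := h6
      refine ⟨x, ⟨hx1, ?_⟩, hx2⟩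
      show T (fld E x)
      rw [hx2]
      exact hTL
  have hQ : {L : IntermediateField M E | L ∈ QS M E Y ∧ T L}.Finite := by
    rw [← himg]
    exact hT.image _
  have e1 : hT.toFinset.card = ∑ L ∈ hQ.toFinset, (hT.toFinset.filter fun x => fld E x = L).card :=
    Finset.card_eq_sum_card_fiberwise (by
      intro x hx
      rw [Set.Finite.coe_toFinset] at hx ⊢
      rw [← himg]
      exact ⟨x, hx, rfl⟩)
  have e2 : hT.toFinset.card = ∑ p : P M, (hT.toFinset.filter fun x => x.1 = p).card :=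
    Finset.card_eq_sum_card_fiberwise (by
      intro x hx
      exact Finset.mem_coe.2 (Finset.mem_univ _))
  have e3 : ∀ L ∈ hQ.toFinset, (hT.toFinset.filter fun x => fld E x = L).card =
      Units.torsionOrder M := by
    intro L hL
    have hL' := hQ.mem_toFinset.1 hL
    rw [← fiber_card h2 h3 hrep hk hL'.1, ← Set.ncard_coe_finset]
    congr 1
    ext x
    rw [Finset.mem_coe, Finset.mem_filter, Set.Finite.mem_toFinset]
    constructor
    · rintro ⟨h5, h6⟩
      exact ⟨h5.1, h6⟩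
    · rintro ⟨h5, h6⟩
      refine ⟨⟨h5, ?_⟩, h6⟩
      show T (fld E x)
      rw [h6]
      exact hL'.2
  have e4 : ∀ p : P M, (hT.toFinset.filter fun x => x.1 = p).card = (S2T T rep k Y p).ncard := by
    intro p
    rw [← Set.ncard_coe_finset, ← Set.ncard_image_of_injective (S2T T rep k Y p)
      (Prod.mk_right_injective p)]
    congr 1
    ext ⟨p', α⟩
    simp only [Finset.coe_filter, Set.Finite.mem_toFinset, Set.mem_ofPred_eq, Set.mem_image,
      Prod.mk.injEq]
    constructor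
    · rintro ⟨h7, rfl⟩
      exact ⟨α, h7, rfl, rfl⟩
    · rintro ⟨β, h7, rfl, rfl⟩
      exact ⟨h7, rfl⟩
  rw [Finset.sum_congr rfl e3, Finset.sum_const, smul_eq_mul, e2,
    Finset.sum_congr rfl fun p _ => e4 p] at e1
  rw [Set.ncard_eq_toFinset_card _ hQ, ← e1]

/-- the condition for the residue class -/
def Good (T : IntermediateField M E → Prop) (rep : ClassGroup (𝓞 M) → Ideal (𝓞 M))
    (𝔫 : Ideal (𝓞 M)) (p : P M) (α : 𝓞 M) : Prop :=
  ∃ α' : 𝓞 M, α' - (rr p : 𝓞 M) * α ∈ 𝔫 ∧ Sqf M (rep p.1) α' ∧ ¬ IsSquare (α' : M) ∧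
    T (IntermediateField.adjoin M {sr E α'})

theorem good_congr {T : IntermediateField M E → Prop} {rep : ClassGroup (𝓞 M) → Ideal (𝓞 M)}
    {𝔫 : Ideal (𝓞 M)} {p : P M} {α β : 𝓞 M} (h : α - β ∈ 𝔫) (hα : Good T rep 𝔫 p α) :
    Good T rep 𝔫 p β := by
  obtain ⟨α', h1, h2, h3, h4⟩ := hα
  refine ⟨α', ?_, h2, h3, h4⟩
  have e : α' - (rr p : 𝓞 M) * β = (α' - (rr p : 𝓞 M) * α) + (rr p : 𝓞 M) * (α - β) := by ring
  rw [e]
  exact 𝔫.add_mem h1 (𝔫.mul_mem_left _ h)

end Count

theorem limT (h1 : DiscQuad) (h2 : KumP) (h3 : ConeFacts) (h4 : ConeSqf) : S_LIMP := by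
  classical
  intro M E _ _ _ _ _ T hT
  obtain ⟨rep, hrep⟩ := exists_rep M
  obtain ⟨k, hk⟩ := h1 M
  have := finite_quot M
  have : Fintype (P M) := Fintype.ofFinite _
  have hlim2 : ∀ p : P M, ∃ c : ℝ, Tendsto (fun Y : ℝ => ((S2T T rep k Y p).ncard : ℝ) / Y) atTop
      (𝓝 c) := by
    intro p
    obtain ⟨𝔫, h𝔫, hloc⟩ := hT (rep p.1) (rep_ne_bot hrep p.1)
    obtain ⟨c, hc⟩ := h4 M (rep p.1) (Ideal.span {(4 : 𝓞 M)} * (rep p.1) ^ 2 * 𝔫)
      (rep_ne_bot hrep p.1) (by
        refine mul_ne_zero (mul_ne_zero ?_ (pow_ne_zero 2 (rep_ne_bot hrep p.1))) h𝔫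
        rw [Ne, Ideal.zero_eq_bot, Ideal.span_singleton_eq_bot]
        norm_num)
      (fun α => if Good T rep 𝔫 p α then wt k (rep p.1) ((rr p : 𝓞 M) * α) else 0) (by
        intro α α' h
        have ha : α - α' ∈ 𝔫 := Ideal.mul_le_right h
        have hb : α' - α ∈ 𝔫 := by
          rw [← neg_sub]
          exact 𝔫.neg_mem ha
        have hw : wt k (rep p.1) ((rr p : 𝓞 M) * α) = wt k (rep p.1) ((rr p : 𝓞 M) * α') := by
          simp only [wt]
          rw [hk.congr (rep p.1) ((rr p : 𝓞 M) * α) ((rr p : 𝓞 M) * α') (rep_ne_bot hrep p.1) (by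
            rw [← mul_sub]
            exact Ideal.mul_mem_left _ _ (Ideal.mul_le_left h))]
        by_cases hg : Good T rep 𝔫 p α
        · rw [if_pos hg, if_pos (good_congr ha hg), hw]
        · rw [if_neg hg, if_neg fun h5 => hg (good_congr hb h5)])
      (by
        intro α
        show 0 ≤ ite _ _ _
        split_ifs
        · exact wt_nonneg _ _ _
        · exact le_refl _)
    refine ⟨c, ?_⟩
    set G : ℝ → Set (𝓞 M) := fun Y => {α : 𝓞 M | α ∈ cone M ∧ Sqf M (rep p.1) α ∧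
      nrm α ≤ Y * (if Good T rep 𝔫 p α then wt k (rep p.1) ((rr p : 𝓞 M) * α) else 0)} with hG
    have hG1 : ∀ Y, ∀ α ∈ G Y, Good T rep 𝔫 p α ∧ α ∈ S1 rep k Y p := by
      rintro Y α ⟨ha, hb, hle⟩
      by_cases hg : Good T rep 𝔫 p α
      · rw [if_pos hg] at hle
        exact ⟨hg, ha, hb, hle⟩
      · rw [if_neg hg, mul_zero, nrm] at hle
        exfalso
        have h5 : (0 : ℤ) < |Algebra.norm ℤ α| := abs_pos.2 (Algebra.norm_ne_zero_iff.2 hb.1)
        have h6 : (0 : ℝ) < ((|Algebra.norm ℤ α| : ℤ) : ℝ) := by exact_mod_cast h5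
        linarith
    have h5 : Tendsto (fun Y : ℝ => ((G Y ∩ (S3 rep p)).ncard : ℝ) / Y) atTop (𝓝 0) := by
      have h6 : Tendsto (fun Y : ℝ => ((S3 rep p).ncard : ℝ) / Y) atTop (𝓝 0) :=
        tendsto_const_nhds.div_atTop tendsto_id
      refine squeeze_zero' ?_ ?_ h6
      · filter_upwards [eventually_gt_atTop (0 : ℝ)] with Y hY
        positivity
      · filter_upwards [eventually_gt_atTop (0 : ℝ)] with Y hY
        refine div_le_div_of_nonneg_right ?_ hY.le
        exact_mod_cast Set.ncard_le_ncard Set.inter_subset_right (S3_finite h3 hrep p)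
    have h7 := hc.sub h5
    rw [sub_zero] at h7
    refine h7.congr' ?_
    filter_upwards [eventually_gt_atTop (0 : ℝ)] with Y hY
    rw [← sub_div]
    congr 1
    have hf : (G Y).Finite :=
      (S1_finite h3 hrep hk hY.le p).subset fun α hα => (hG1 Y α hα).2
    have h8 : S2T T rep k Y p = G Y \ S3 rep p := by
      ext α
      constructor
      · rintro ⟨⟨h9, h10⟩, h11⟩
        have hg : Good T rep 𝔫 p α := by
          refine ⟨(rr p : 𝓞 M) * α, ?_, (sqf_unit (rr p)).2 h9.2.1, h10, h11⟩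
          rw [sub_self]
          exact 𝔫.zero_mem
        refine ⟨⟨h9.1, h9.2.1, ?_⟩, fun h12 => h10 h12.2.2⟩
        rw [if_pos hg]
        exact h9.2.2
      · rintro ⟨h9, h10⟩
        obtain ⟨hg, h11⟩ := hG1 Y α h9
        have hns : ¬ IsSquare (((rr p : 𝓞 M) * α : 𝓞 M) : M) := fun h12 =>
          h10 ⟨h11.1, h11.2.1, h12⟩
        refine ⟨⟨h11, hns⟩, ?_⟩
        obtain ⟨α', ha, hb, hd, he⟩ := hg
        exact hloc α' ((rr p : 𝓞 M) * α) (sr E α') (sr E ((rr p : 𝓞 M) * α)) hb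
          ((sqf_unit (rr p)).2 h11.2.1) ha (sr_sq E α') (sr_sq E _)
          ((notSq_iff (sr_sq E α')).2 hd) ((notSq_iff (sr_sq E _)).2 hns) he
    have h11 := Set.ncard_inter_add_ncard_sdiff_eq_ncard (G Y) (S3 rep p) hf
    have h12 : ((G Y).ncard : ℝ) = ((G Y ∩ S3 rep p).ncard : ℝ) + ((G Y \ S3 rep p).ncard : ℝ) := by
      exact_mod_cast h11.symm
    rw [h8]
    show ((G Y).ncard : ℝ) - _ = _
    rw [h12]
    ring
  choose c hc using hlim2
  have hsum := tendsto_finsetSum (Finset.univ : Finset (P M)) fun p _ => hc p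
  have hw : (0 : ℝ) < Units.torsionOrder M := by exact_mod_cast Units.torsionOrder_pos M
  refine ⟨(∑ p : P M, c p) / Units.torsionOrder M, ?_⟩
  refine (hsum.div_const _).congr' ?_
  filter_upwards [eventually_gt_atTop (0 : ℝ)] with Y hY
  have h12 := countT T h2 h3 hrep hk hY.le
  have h13 : ({L : IntermediateField M E | L ∈ QS M E Y ∧ T L}.ncard : ℝ) * Units.torsionOrder M =
      ∑ p : P M, ((S2T T rep k Y p).ncard : ℝ) := by exact_mod_cast h12
  rw [← Finset.sum_div, ← h13]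
  field_simp

theorem t_LIMP : S_LIMP :=
  limT Pool.Agent.TH263.J3086.discQuad Pool.Agent.TH914.J3087.kumP
    Pool.Agent.TH938.J3088.coneFacts
    (Pool.Agent.TH370.J3089.coneSqf Pool.Agent.TH938.J3088.coneFacts
      Pool.Agent.TH938.J3088.coneDens)

end Pool.Agent.H419.LT.LIMP
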