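import Pool.Agent.H419.LT.Stm2
import Pool.Agent.H419.LT.LIMP

/-! # The number of the quadratic extensions with a property determined by congruences and signs -/

set_option autoImplicit false

open NumberField Filter Topology
open Pool.Agent.TH444.ML Pool.Agent.TH626.J3090
open Pool.Agent.H419.LT.LIMP (S2T countT)

namespace Pool.Agent.H419.LT.LIMS

section Count

set_option linter.unusedSectionVars false

variable {M E : Type} [Field M] [NumberField M] [Field E] [Algebra M E] [IsAlgClosed E]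

/-- the signs of `r * α`, if `S` are the signs of `α` -/
def sgu (r : M) (S : Set (M →+* ℝ)) : Set (M →+* ℝ) := {σ | (0 < σ r ∧ σ ∈ S) ∨ (σ r < 0 ∧ σ ∉ S)}

theorem sg_mul {r α : M} (hα : α ≠ 0) : sg (r * α) = sgu r (sg α) := by
  ext σ
  have h1 : σ α ≠ 0 := fun h => hα ((map_eq_zero σ).1 h)
  change 0 < σ (r * α) ↔ (0 < σ r ∧ 0 < σ α) ∨ (σ r < 0 ∧ ¬ 0 < σ α)
  rw [map_mul, mul_pos_iff]
  constructor
  · rintro (h | h)
    · exact Or.inl h
    · exact Or.inr ⟨h.1, not_lt.2 h.2.le⟩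
  · rintro (h | h)
    · exact Or.inl h
    · exact Or.inr ⟨h.1, lt_of_le_of_ne (not_lt.1 h.2) h1⟩

/-- the condition for the residue class and the signs -/
def Good (T : IntermediateField M E → Prop) (rep : ClassGroup (𝓞 M) → Ideal (𝓞 M))
    (𝔫 : Ideal (𝓞 M)) (p : P M) (S : Set (M →+* ℝ)) (α : 𝓞 M) : Prop :=
  ∃ α' : 𝓞 M, α' - (rr p : 𝓞 M) * α ∈ 𝔫 ∧ sg (α' : M) = sgu (((rr p : 𝓞 M)) : M) S ∧
    Sqf M (rep p.1) α' ∧ ¬ IsSquare (α' : M) ∧ T (IntermediateField.adjoin M {sr E α'})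

theorem good_congr {T : IntermediateField M E → Prop} {rep : ClassGroup (𝓞 M) → Ideal (𝓞 M)}
    {𝔫 : Ideal (𝓞 M)} {p : P M} {S : Set (M →+* ℝ)} {α β : 𝓞 M} (h : α - β ∈ 𝔫)
    (hα : Good T rep 𝔫 p S α) : Good T rep 𝔫 p S β := by
  obtain ⟨α', h1, h2, h3, h4, h5⟩ := hα
  refine ⟨α', ?_, h2, h3, h4, h5⟩
  have e : α' - (rr p : 𝓞 M) * β = (α' - (rr p : 𝓞 M) * α) + (rr p : 𝓞 M) * (α - β) := by ring
  rw [e]
  exact 𝔫.add_mem h1 (𝔫.mul_mem_left _ h)

end Count

theorem limT (h1 : DiscQuad) (h2 : KumP) (h3 : ConeFacts) (h4 : S_CDS) (h5 : S_CSC) : S_LIMS := by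
  classical
  intro M E _ _ _ _ _ T hT
  obtain ⟨rep, hrep⟩ := exists_rep M
  obtain ⟨k, hk⟩ := h1 M
  have := finite_quot M
  have : Fintype (P M) := Fintype.ofFinite _
  have : Fintype (Set (M →+* ℝ)) := Fintype.ofFinite _
  have hlim2 : ∀ (p : P M) (S : Set (M →+* ℝ)), ∃ c : ℝ, Tendsto (fun Y : ℝ =>
      ((S2T T rep k Y p ∩ {α : 𝓞 M | sg (α : M) = S}).ncard : ℝ) / Y) atTop (𝓝 c) := by
    intro p S
    obtain ⟨𝔫, h𝔫, hloc⟩ := hT (rep p.1) (rep_ne_bot hrep p.1)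
    obtain ⟨c, hc⟩ := h5 M {α : 𝓞 M | α ∈ cone M ∧ sg (α : M) = S} (fun α hα => hα.1) (by
        intro 𝔟 h𝔟 a
        obtain ⟨c, -, hc⟩ := h4 M S 𝔟 h𝔟 a
        exact ⟨c, hc⟩)
      (rep p.1) (Ideal.span {(4 : 𝓞 M)} * (rep p.1) ^ 2 * 𝔫)
      (rep_ne_bot hrep p.1) (by
        refine mul_ne_zero (mul_ne_zero ?_ (pow_ne_zero 2 (rep_ne_bot hrep p.1))) h𝔫
        rw [Ne, Ideal.zero_eq_bot, Ideal.span_singleton_eq_bot]
        norm_num)
      (fun α => if Good T rep 𝔫 p S α then wt k (rep p.1) ((rr p : 𝓞 M) * α) else 0) (by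
        intro α α' h
        have ha : α - α' ∈ 𝔫 := Ideal.mul_le_right h
        have hb : α' - α ∈ 𝔫 := by
          rw [← neg_sub]
          exact 𝔫.neg_mem ha
        have hw : wt k (rep p.1) ((rr p : 𝓞 M) * α) = wt k (rep p.1) ((rr p : 𝓞 M) * α') := by
          simp only [wt]
          rw [hk.congr (rep p.1) ((rr p : 𝓞 M) * α) ((rr p : 𝓞 M) * α') (rep_ne_bot hrep p.1) (by
            rw [← mul_sub]
            exact Ideal.mul_mem_left _ _ (Ideal.mul_le_left h))]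
        by_cases hg : Good T rep 𝔫 p S α
        · rw [if_pos hg, if_pos (good_congr ha hg), hw]
        · rw [if_neg hg, if_neg fun h5 => hg (good_congr hb h5)])
      (by
        intro α
        show 0 ≤ ite _ _ _
        split_ifs
        · exact wt_nonneg _ _ _
        · exact le_refl _)
    refine ⟨c, ?_⟩
    set G : ℝ → Set (𝓞 M) := fun Y => {α : 𝓞 M | α ∈ {α : 𝓞 M | α ∈ cone M ∧ sg (α : M) = S} ∧
      Sqf M (rep p.1) α ∧
      nrm α ≤ Y * (if Good T rep 𝔫 p S α then wt k (rep p.1) ((rr p : 𝓞 M) * α) else 0)} with hG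
    have hG1 : ∀ Y, ∀ α ∈ G Y, Good T rep 𝔫 p S α ∧ sg (α : M) = S ∧ α ∈ S1 rep k Y p := by
      rintro Y α ⟨ha, hb, hle⟩
      by_cases hg : Good T rep 𝔫 p S α
      · rw [if_pos hg] at hle
        exact ⟨hg, ha.2, ha.1, hb, hle⟩
      · rw [if_neg hg, mul_zero, nrm] at hle
        exfalso
        have h5 : (0 : ℤ) < |Algebra.norm ℤ α| := abs_pos.2 (Algebra.norm_ne_zero_iff.2 hb.1)
        have h6 : (0 : ℝ) < ((|Algebra.norm ℤ α| : ℤ) : ℝ) := by exact_mod_cast h5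
        linarith
    have h5 : Tendsto (fun Y : ℝ => ((G Y ∩ (S3 rep p)).ncard : ℝ) / Y) atTop (𝓝 0) := by
      have h6 : Tendsto (fun Y : ℝ => ((S3 rep p).ncard : ℝ) / Y) atTop (𝓝 0) :=
        tendsto_const_nhds.div_atTop tendsto_id
      refine squeeze_zero' ?_ ?_ h6
      · filter_upwards [eventually_gt_atTop (0 : ℝ)] with Y hY
        positivity
      · filter_upwards [eventually_gt_atTop (0 : ℝ)] with Y hY
        refine div_le_div_of_nonneg_right ?_ hY.le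
        exact_mod_cast Set.ncard_le_ncard Set.inter_subset_right (S3_finite h3 hrep p)
    have h7 := hc.sub h5
    rw [sub_zero] at h7
    refine h7.congr' ?_
    filter_upwards [eventually_gt_atTop (0 : ℝ)] with Y hY
    rw [← sub_div]
    congr 1
    have hf : (G Y).Finite :=
      (S1_finite h3 hrep hk hY.le p).subset fun α hα => (hG1 Y α hα).2.2
    have hne : ∀ {α : 𝓞 M}, Sqf M (rep p.1) α → (α : M) ≠ 0 := by
      intro α hα
      exact RingOfIntegers.coe_ne_zero_iff.2 hα.1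
    have hsg : ∀ {α : 𝓞 M}, Sqf M (rep p.1) α → sg (α : M) = S →
        sg (((rr p : 𝓞 M) * α : 𝓞 M) : M) = sgu (((rr p : 𝓞 M)) : M) S := by
      intro α hα hs
      have e : (((rr p : 𝓞 M) * α : 𝓞 M) : M) = (((rr p : 𝓞 M)) : M) * (α : M) := map_mul _ _ _
      rw [e, sg_mul (hne hα), hs]
    have h8 : S2T T rep k Y p ∩ {α : 𝓞 M | sg (α : M) = S} = G Y \ S3 rep p := by
      ext α
      constructor
      · rintro ⟨⟨⟨h9, h10⟩, h11⟩, hS⟩
        have hg : Good T rep 𝔫 p S α := by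
          refine ⟨(rr p : 𝓞 M) * α, ?_, hsg h9.2.1 hS, (sqf_unit (rr p)).2 h9.2.1, h10, h11⟩
          rw [sub_self]
          exact 𝔫.zero_mem
        refine ⟨⟨⟨h9.1, hS⟩, h9.2.1, ?_⟩, fun h12 => h10 h12.2.2⟩
        rw [if_pos hg]
        exact h9.2.2
      · rintro ⟨h9, h10⟩
        obtain ⟨hg, hS, h11⟩ := hG1 Y α h9
        have hns : ¬ IsSquare (((rr p : 𝓞 M) * α : 𝓞 M) : M) := fun h12 =>
          h10 ⟨h11.1, h11.2.1, h12⟩
        refine ⟨⟨⟨h11, hns⟩, ?_⟩, hS⟩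
        obtain ⟨α', ha, hs', hb, hd, he⟩ := hg
        exact hloc α' ((rr p : 𝓞 M) * α) (sr E α') (sr E ((rr p : 𝓞 M) * α)) hb
          ((sqf_unit (rr p)).2 h11.2.1) ha (hs'.trans (hsg h11.2.1 hS).symm) (sr_sq E α')
          (sr_sq E _) ((notSq_iff (sr_sq E α')).2 hd) ((notSq_iff (sr_sq E _)).2 hns) he
    have h11 := Set.ncard_inter_add_ncard_sdiff_eq_ncard (G Y) (S3 rep p) hf
    have h12 : ((G Y).ncard : ℝ) = ((G Y ∩ S3 rep p).ncard : ℝ) + ((G Y \ S3 rep p).ncard : ℝ) := by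
      exact_mod_cast h11.symm
    rw [h8]
    show ((G Y).ncard : ℝ) - _ = _
    rw [h12]
    ring
  choose c hc using hlim2
  have hsum := tendsto_finsetSum (Finset.univ : Finset (P M)) fun p _ =>
    tendsto_finsetSum (Finset.univ : Finset (Set (M →+* ℝ))) fun S _ => hc p S
  have hw : (0 : ℝ) < Units.torsionOrder M := by exact_mod_cast Units.torsionOrder_pos M
  refine ⟨(∑ p : P M, ∑ S : Set (M →+* ℝ), c p S) / Units.torsionOrder M, ?_⟩
  refine (hsum.div_const _).congr' ?_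
  filter_upwards [eventually_gt_atTop (0 : ℝ)] with Y hY
  have h12 := countT T h2 h3 hrep hk hY.le
  have h13 : ({L : IntermediateField M E | L ∈ QS M E Y ∧ T L}.ncard : ℝ) * Units.torsionOrder M =
      ∑ p : P M, ((S2T T rep k Y p).ncard : ℝ) := by exact_mod_cast h12
  have h14 : ∀ p : P M, ((S2T T rep k Y p).ncard : ℝ) = ∑ S : Set (M →+* ℝ),
      ((S2T T rep k Y p ∩ {α : 𝓞 M | sg (α : M) = S}).ncard : ℝ) := by
    intro p
    have hfin : (S2T T rep k Y p).Finite :=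
      (S1_finite h3 hrep hk hY.le p).subset fun α h => h.1.1
    have h15 : hfin.toFinset.card = ∑ S : Set (M →+* ℝ),
        (hfin.toFinset.filter fun α : 𝓞 M => sg (α : M) = S).card :=
      Finset.card_eq_sum_card_fiberwise (by
        intro x _
        exact Finset.mem_coe.2 (Finset.mem_univ _))
    rw [Set.ncard_eq_toFinset_card _ hfin, h15, Nat.cast_sum]
    refine Finset.sum_congr rfl fun S _ => ?_
    rw [← Set.ncard_coe_finset]
    congr 2
    ext α
    simp only [Finset.coe_filter, Set.Finite.mem_toFinset, Set.mem_ofPred_eq, Set.mem_inter_iff]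
  simp only [← Finset.sum_div]
  rw [← Finset.sum_congr rfl fun p _ => h14 p, ← h13]
  field_simp

theorem t_LIMS (h1 : S_CDS) (h2 : S_CSC) : S_LIMS :=
  limT Pool.Agent.TH263.J3086.discQuad Pool.Agent.TH914.J3087.kumP
    Pool.Agent.TH938.J3088.coneFacts h1 h2

end Pool.Agent.H419.LT.LIMS
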