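import Pool.Agent.H419.LT.Stm
import Pool.Graph.R_seed8.TH858.J3094
import Pool.Graph.R_seed8.TH444.ML.All
import Pool.Graph.R_seed8.TH938.J3088

/-! # Quadratic extensions with a property: the limit is positive -/

set_option autoImplicit false

open NumberField Filter Topology
open Pool.Agent.TH444.ML

namespace Pool.Agent.H419.LT.POSP

open Pool.Agent.TH858.J3094

/-- fibres of size at most `w` -/
lemma ncard_le_mul {A B : Type} (S : Set A) (R : Set B) (hS : S.Finite) (hR : R.Finite)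
    (f : A → B) (w : ℕ) (hf : ∀ a ∈ S, f a ∈ R)
    (hw : ∀ a ∈ S, {b | b ∈ S ∧ f b = f a}.ncard ≤ w) : S.ncard ≤ w * R.ncard := by
  classical
  have h1 : S.ncard = hS.toFinset.card := Set.ncard_eq_toFinset_card S hS
  have h2 : R.ncard = hR.toFinset.card := Set.ncard_eq_toFinset_card R hR
  rw [h1, h2]
  refine (Finset.card_le_mul_card_image (f := f) hS.toFinset w ?_).trans ?_
  · intro b hb
    rw [Finset.mem_image] at hb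
    obtain ⟨a, ha, rfl⟩ := hb
    rw [Set.Finite.mem_toFinset] at ha
    refine le_trans (le_of_eq ?_) (hw a ha)
    rw [← Set.ncard_coe_finset]
    congr 1
    ext x
    simp
  · refine Nat.mul_le_mul_left w (Finset.card_le_card ?_)
    intro b hb
    rw [Finset.mem_image] at hb
    obtain ⟨a, ha, rfl⟩ := hb
    rw [Set.Finite.mem_toFinset] at ha ⊢
    exact hf a ha

section main

variable (M E : Type) [Field M] [NumberField M] [Field E] [Algebra M E] [IsAlgClosed E]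

/-- the elements of the cone differing from `β` by a unit are at most `w` many -/
lemma cone_le (hcf : ConeFacts) (β : 𝓞 M) (hβ : β ≠ 0) (S : Set (𝓞 M))
    (hS : ∀ γ ∈ S, γ ∈ cone M ∧ ∃ u : (𝓞 M)ˣ, γ = (u : 𝓞 M) * β) :
    S.Finite ∧ S.ncard ≤ Units.torsionOrder M := by
  have h := (hcf M).2.2 β hβ
  have hfin : {u : (𝓞 M)ˣ | (u : 𝓞 M) * β ∈ cone M}.Finite := by
    apply Set.finite_of_ncard_ne_zero
    rw [h]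
    exact (Units.torsionOrder_pos M).ne'
  have hsub : S ⊆ (fun u : (𝓞 M)ˣ => (u : 𝓞 M) * β) '' {u : (𝓞 M)ˣ | (u : 𝓞 M) * β ∈ cone M} := by
    intro γ hγ
    obtain ⟨h1, u, hu⟩ := hS γ hγ
    exact ⟨u, by show (u : 𝓞 M) * β ∈ cone M; rw [← hu]; exact h1, hu.symm⟩
  refine ⟨(hfin.image _).subset hsub, ?_⟩
  calc S.ncard ≤ _ := Set.ncard_le_ncard hsub (hfin.image _)
    _ ≤ _ := Set.ncard_image_le hfin
    _ = _ := h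

lemma nrm_eq (β : 𝓞 M) : nrm β = (Ideal.absNorm (Ideal.span {β} : Ideal (𝓞 M)) : ℝ) := by
  rw [Ideal.absNorm_span_singleton, nrm, Int.abs_eq_natAbs]
  simp

/-- a square ideal with squarefree part `𝔣` -/
lemma sq_part (x 𝔣 𝔤 : Ideal (𝓞 M)) (hg : 𝔤 ≠ ⊥) (hf : Squarefree 𝔣) (h : x ^ 2 = 𝔣 * 𝔤 ^ 2) :
    𝔣 = 1 := by
  have h1 : 𝔤 ∣ x := by
    rw [← UniqueFactorizationMonoid.pow_dvd_pow_iff_dvd (two_ne_zero), h]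
    exact dvd_mul_left _ _
  obtain ⟨y, rfl⟩ := h1
  have h2 : y ^ 2 = 𝔣 := by
    have h3 : 𝔤 ^ 2 * y ^ 2 = 𝔤 ^ 2 * 𝔣 := by rw [← mul_pow, h, mul_comm]
    exact mul_left_cancel₀ (pow_ne_zero 2 hg) h3
  have h3 : IsUnit y := hf y (by rw [← h2, pow_two])
  rw [← h2]
  have h4 : y = 1 := by simpa using h3
  rw [h4, one_pow]

variable (T : IntermediateField M E → Prop) (α₀ : 𝓞 M) (𝔫 : Ideal (𝓞 M))

/-- the elements of the cone which are `1` modulo `𝔫` -/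
def BB (Z : ℝ) : Set (𝓞 M) := {β | β ∈ cone M ∧ β - 1 ∈ 𝔫 ∧ nrm β ≤ Z}

/-- those with square part `𝔢` for which `α₀ β` is a square -/
def B1 (𝔢 : NZ M) (Z : ℝ) : Set (𝓞 M) :=
  {β | β ∈ BB M 𝔫 Z ∧ (∃ 𝔡 : Ideal (𝓞 M), Squarefree 𝔡 ∧ Ideal.span {β} = 𝔡 * 𝔢.1 ^ 2) ∧
    ∃ x : 𝓞 M, x ^ 2 = α₀ * β}

/-- those with square part `𝔢` for which `α₀ β` is not a square -/
def B2 (𝔢 : NZ M) (Z : ℝ) : Set (𝓞 M) :=
  {β | β ∈ BB M 𝔫 Z ∧ (∃ 𝔡 : Ideal (𝓞 M), Squarefree 𝔡 ∧ Ideal.span {β} = 𝔡 * 𝔢.1 ^ 2) ∧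
    ¬ ∃ x : 𝓞 M, x ^ 2 = α₀ * β}

lemma BB_fin (hcf : ConeFacts) (Z : ℝ) : (BB M 𝔫 Z).Finite :=
  ((hcf M).1 Z).subset fun _ h => ⟨h.1, h.2.2⟩

variable {M E α₀ 𝔫}

/-- the squarefree part of `α₀ β` -/
lemma sqf_mul {𝔡₀ 𝔠₀ 𝔡 : Ideal (𝓞 M)} {𝔢 : NZ M} {β : 𝓞 M} (h0 : Squarefree 𝔡₀)
    (hα : Ideal.span {α₀} = 𝔡₀ * 𝔠₀ ^ 2) (hd : Squarefree 𝔡)
    (hβ : Ideal.span {β} = 𝔡 * 𝔢.1 ^ 2) (h1 : β - 1 ∈ 𝔫 * 𝔡₀) :
    Squarefree (𝔡₀ * 𝔡) ∧ Ideal.span {α₀ * β} = (𝔡₀ * 𝔡) * (𝔠₀ * 𝔢.1) ^ 2 := by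
  constructor
  · rw [squarefree_mul_iff]
    refine ⟨?_, h0, hd⟩
    have hcop : IsCoprime 𝔡₀ 𝔡 := by
      rw [Ideal.isCoprime_iff_exists]
      refine ⟨1 - β, ?_, β, ?_, sub_add_cancel 1 β⟩
      · have : β - 1 ∈ 𝔡₀ := Ideal.mul_le_right h1
        have h2 := 𝔡₀.neg_mem this
        rwa [neg_sub] at h2
      · have h3 : Ideal.span {β} ≤ 𝔡 := by
          rw [hβ]
          exact Ideal.mul_le_left
        exact h3 (Ideal.mem_span_singleton_self β)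
    exact hcop.isRelPrime
  · rw [← Ideal.span_singleton_mul_span_singleton, hα, hβ]
    ring

/-- the norm of the square part is small -/
lemma sqpart_le {𝔡 : Ideal (𝓞 M)} {𝔢 : NZ M} {β : 𝓞 M} {Z : ℝ} (hd : Squarefree 𝔡)
    (hβ : Ideal.span {β} = 𝔡 * 𝔢.1 ^ 2) (hZ : nrm β ≤ Z) :
    (Ideal.absNorm 𝔢.1 : ℝ) ^ 2 ≤ Z := by
  rw [nrm_eq] at hZ
  have h1 : (Ideal.absNorm (Ideal.span {β} : Ideal (𝓞 M)) : ℝ) =
      (Ideal.absNorm 𝔡 : ℝ) * (Ideal.absNorm 𝔢.1 : ℝ) ^ 2 := by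
    rw [hβ, map_mul, map_pow]; push_cast; ring
  have h2 : (1 : ℝ) ≤ (Ideal.absNorm 𝔡 : ℝ) := norm_pos M ⟨𝔡, hd.ne_zero⟩
  have h3 : (0 : ℝ) ≤ (Ideal.absNorm 𝔢.1 : ℝ) ^ 2 := by positivity
  nlinarith

lemma BB_sub {𝔡₀ : Ideal (𝓞 M)} (hcf : ConeFacts) (Z : ℝ) :
    BB M (𝔫 * 𝔡₀) Z ⊆ ⋃ 𝔢 ∈ (T_fin M Z).toFinset,
      (B1 M α₀ (𝔫 * 𝔡₀) 𝔢 Z ∪ B2 M α₀ (𝔫 * 𝔡₀) 𝔢 Z) := by
  intro β hβ
  have hβ0 : β ≠ 0 := (hcf M).2.1 β hβ.1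
  have hI0 : (Ideal.span {β} : Ideal (𝓞 M)) ≠ ⊥ := by simpa using hβ0
  obtain ⟨𝔡, 𝔢, hd, he, hde⟩ := exists_dec _ hI0
  rw [Set.mem_iUnion₂]
  refine ⟨⟨𝔢, he⟩, ?_, ?_⟩
  · rw [Set.Finite.mem_toFinset]
    exact sqpart_le hd hde hβ.2.2
  · by_cases hx : ∃ x : 𝓞 M, x ^ 2 = α₀ * β
    · exact Or.inl ⟨hβ, ⟨𝔡, hd, hde⟩, hx⟩
    · exact Or.inr ⟨hβ, ⟨𝔡, hd, hde⟩, hx⟩

lemma B1_card {𝔡₀ 𝔠₀ : Ideal (𝓞 M)} (hcf : ConeFacts) (h0 : Squarefree 𝔡₀) (hc0 : 𝔠₀ ≠ ⊥)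
    (hα : Ideal.span {α₀} = 𝔡₀ * 𝔠₀ ^ 2) (𝔢 : NZ M) (Z : ℝ) :
    (B1 M α₀ (𝔫 * 𝔡₀) 𝔢 Z).ncard ≤ Units.torsionOrder M := by
  rcases Set.eq_empty_or_nonempty (B1 M α₀ (𝔫 * 𝔡₀) 𝔢 Z) with h | ⟨β, hβ⟩
  · rw [h, Set.ncard_empty]; exact Nat.zero_le _
  have key : ∀ γ ∈ B1 M α₀ (𝔫 * 𝔡₀) 𝔢 Z, Ideal.span {γ} = 𝔢.1 ^ 2 := by
    rintro γ ⟨hγ, ⟨𝔡, hd, hde⟩, x, hx⟩
    obtain ⟨k1, k2⟩ := sqf_mul h0 hα hd hde hγ.2.1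
    have k3 : (Ideal.span {x} : Ideal (𝓞 M)) ^ 2 = (𝔡₀ * 𝔡) * (𝔠₀ * 𝔢.1) ^ 2 := by
      rw [← k2, ← hx, Ideal.span_singleton_pow]
    have k4 := sq_part M _ _ _ (mul_ne_zero hc0 𝔢.2) k1 k3
    have k5 : 𝔡 = 1 := by
      have : IsUnit 𝔡 := IsUnit.of_mul_eq_one_right _ k4
      simpa using this
    rw [hde, k5, one_mul]
  have hβ0 : β ≠ 0 := (hcf M).2.1 β hβ.1.1
  refine (cone_le M hcf β hβ0 _ ?_).2
  intro γ hγ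
  refine ⟨hγ.1.1, ?_⟩
  have h1 : Ideal.span {β} = Ideal.span {γ} := by rw [key β hβ, key γ hγ]
  rw [Ideal.span_singleton_eq_span_singleton] at h1
  obtain ⟨u, hu⟩ := h1
  exact ⟨u, by rw [← hu, mul_comm]⟩

lemma B2_card {𝔡₀ 𝔠₀ : Ideal (𝓞 M)} (h1 : DiscQuad) (h2 : KumP) (h3 : QuadUnif)
    (hcf : ConeFacts) (h0 : Squarefree 𝔡₀) (hc0 : 𝔠₀ ≠ ⊥) (hα0 : α₀ ≠ 0)
    (hα : Ideal.span {α₀} = 𝔡₀ * 𝔠₀ ^ 2)
    (hT : ∀ (β : 𝓞 M) (s : E), β - 1 ∈ 𝔫 → s ^ 2 = algebraMap M E ((α₀ * β : 𝓞 M) : M) →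
      (∀ x : M, algebraMap M E x ≠ s) → T (IntermediateField.adjoin M {s}))
    (𝔢 : NZ M) (Z : ℝ) (hZ : 0 ≤ Z) :
    (B2 M α₀ (𝔫 * 𝔡₀) 𝔢 Z).ncard ≤ Units.torsionOrder M *
      {L : IntermediateField M E | L ∈ QS M E (4 ^ Module.finrank ℚ M *
        (nrm α₀ * Z) / (Ideal.absNorm (𝔠₀ * 𝔢.1) : ℝ) ^ 2) ∧ T L}.ncard := by
  classical
  have hsq : ∀ β : 𝓞 M, ∃ s : E, s ^ 2 = algebraMap M E ((α₀ * β : 𝓞 M) : M) := fun β =>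
    IsAlgClosed.exists_pow_nat_eq _ (n := 2) (by norm_num)
  choose s hs using hsq
  have hn0 : 0 ≤ nrm α₀ := by rw [nrm_eq]; positivity
  obtain ⟨C0, hC0⟩ := h3 (Module.finrank ℚ M)
  have hfin : {L : IntermediateField M E | L ∈ QS M E (4 ^ Module.finrank ℚ M *
        (nrm α₀ * Z) / (Ideal.absNorm (𝔠₀ * 𝔢.1) : ℝ) ^ 2) ∧ T L}.Finite :=
    (hC0 M E rfl _ (by positivity)).1.subset fun _ h => h.1
  have hns : ∀ β ∈ B2 M α₀ (𝔫 * 𝔡₀) 𝔢 Z, ∀ x : M, algebraMap M E x ≠ s β := by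
    intro β hβ x hx
    apply hβ.2.2
    have hx2 : x ^ 2 = ((α₀ * β : 𝓞 M) : M) := by
      apply (algebraMap M E).injective
      rw [map_pow, hx, hs]
    have hint : IsIntegral ℤ x := by
      refine IsIntegral.of_pow (n := 2) (by norm_num) ?_
      rw [hx2]; exact (α₀ * β).2
    refine ⟨⟨x, hint⟩, ?_⟩
    apply RingOfIntegers.ext
    rw [← hx2]
    rfl
  set 𝔤 : NZ M := ⟨𝔠₀ * 𝔢.1, mul_ne_zero hc0 𝔢.2⟩ with h𝔤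
  have hbf : (B2 M α₀ (𝔫 * 𝔡₀) 𝔢 Z).Finite := (BB_fin M (𝔫 * 𝔡₀) hcf Z).subset fun _ h => h.1
  refine ncard_le_mul _ _ hbf hfin (fun β => IntermediateField.adjoin M {s β}) _ ?_ ?_
  · rintro β hβ
    obtain ⟨hβ1, ⟨𝔡, hd, hde⟩, hβ3⟩ := hβ
    obtain ⟨k1, k2⟩ := sqf_mul h0 hα hd hde hβ1.2.1
    have hβ0 : β ≠ 0 := (hcf M).2.1 β hβ1.1
    have hnn := hns β ⟨hβ1, ⟨𝔡, hd, hde⟩, hβ3⟩
    refine ⟨?_, hT β (s β) (Ideal.mul_le_left hβ1.2.1) (hs β) hnn⟩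
    refine disc_le M E h1 h2 𝔤 (nrm α₀ * Z) (α₀ * β) (s β) (𝔡₀ * 𝔡) ?_ (mul_ne_zero hα0 hβ0) k1
      k2 (hs β) hnn
    rw [← Ideal.span_singleton_mul_span_singleton, map_mul]
    push_cast
    rw [← nrm_eq, ← nrm_eq]
    exact mul_le_mul_of_nonneg_left hβ1.2.2 hn0
  · intro β hβ
    have hβ' := hβ
    obtain ⟨hβ1, ⟨𝔡, hd, hde⟩, hβ3⟩ := hβ
    obtain ⟨k1, k2⟩ := sqf_mul h0 hα hd hde hβ1.2.1
    have hβ0 : β ≠ 0 := (hcf M).2.1 β hβ1.1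
    refine (cone_le M hcf β hβ0 _ ?_).2
    rintro γ ⟨hγ, hγe⟩
    have hγ' := hγ
    obtain ⟨hγ1, ⟨𝔡', hd', hde'⟩, hγ3⟩ := hγ
    obtain ⟨l1, l2⟩ := sqf_mul h0 hα hd' hde' hγ1.2.1
    have hγ0 : γ ≠ 0 := (hcf M).2.1 γ hγ1.1
    refine ⟨hγ1.1, ?_⟩
    obtain ⟨rep, C, hrep, hC⟩ := exists_rep M 𝔤
    obtain ⟨q1, q2, q3⟩ := h2 M E rep hrep
    obtain ⟨_, u, hu⟩ := q2 C C (α₀ * β) (α₀ * γ) (s β) (s γ)
      ⟨mul_ne_zero hα0 hβ0, 𝔡₀ * 𝔡, k1, by rw [hC]; exact k2⟩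
      ⟨mul_ne_zero hα0 hγ0, 𝔡₀ * 𝔡', l1, by rw [hC]; exact l2⟩ (hs β) (hs γ) (hns β hβ') hγe.symm
    refine ⟨u ^ 2, ?_⟩
    have h5 : α₀ * γ = α₀ * (((u : 𝓞 M)) ^ 2 * β) := by rw [hu]; ring
    rw [Units.val_pow_eq_pow_val]
    exact mul_left_cancel₀ hα0 h5

lemma BB_card {𝔡₀ 𝔠₀ : Ideal (𝓞 M)} (h1 : DiscQuad) (h2 : KumP) (h3 : QuadUnif)
    (hcf : ConeFacts) (h0 : Squarefree 𝔡₀) (hc0 : 𝔠₀ ≠ ⊥) (hα0 : α₀ ≠ 0)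
    (hα : Ideal.span {α₀} = 𝔡₀ * 𝔠₀ ^ 2)
    (hT : ∀ (β : 𝓞 M) (s : E), β - 1 ∈ 𝔫 → s ^ 2 = algebraMap M E ((α₀ * β : 𝓞 M) : M) →
      (∀ x : M, algebraMap M E x ≠ s) → T (IntermediateField.adjoin M {s}))
    (Z : ℝ) (hZ : 0 ≤ Z) :
    ((BB M (𝔫 * 𝔡₀) Z).ncard : ℝ) ≤ ∑ 𝔢 ∈ (T_fin M Z).toFinset, (Units.torsionOrder M : ℝ) * (1 +
      ({L : IntermediateField M E | L ∈ QS M E (4 ^ Module.finrank ℚ M *
        (nrm α₀ * Z) / (Ideal.absNorm (𝔠₀ * 𝔢.1) : ℝ) ^ 2) ∧ T L}.ncard : ℝ)) := by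
  have hfin : (⋃ 𝔢 ∈ (T_fin M Z).toFinset,
      (B1 M α₀ (𝔫 * 𝔡₀) 𝔢 Z ∪ B2 M α₀ (𝔫 * 𝔡₀) 𝔢 Z)).Finite := by
    refine Set.Finite.biUnion (Finset.finite_toSet _) ?_
    intro 𝔢 _
    refine (BB_fin M (𝔫 * 𝔡₀) hcf Z).subset ?_
    rintro β (h | h)
    · exact h.1
    · exact h.1
  have ha : (BB M (𝔫 * 𝔡₀) Z).ncard ≤ ∑ 𝔢 ∈ (T_fin M Z).toFinset,
      (B1 M α₀ (𝔫 * 𝔡₀) 𝔢 Z ∪ B2 M α₀ (𝔫 * 𝔡₀) 𝔢 Z).ncard :=
    (Set.ncard_le_ncard (BB_sub hcf Z) hfin).trans (Finset.set_ncard_biUnion_le _ _)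
  have hb : ∀ 𝔢 ∈ (T_fin M Z).toFinset,
      (B1 M α₀ (𝔫 * 𝔡₀) 𝔢 Z ∪ B2 M α₀ (𝔫 * 𝔡₀) 𝔢 Z).ncard ≤ Units.torsionOrder M * (1 +
      {L : IntermediateField M E | L ∈ QS M E (4 ^ Module.finrank ℚ M *
        (nrm α₀ * Z) / (Ideal.absNorm (𝔠₀ * 𝔢.1) : ℝ) ^ 2) ∧ T L}.ncard) := by
    intro 𝔢 _
    refine (Set.ncard_union_le _ _).trans ?_
    rw [mul_add, mul_one]
    exact Nat.add_le_add (B1_card hcf h0 hc0 hα 𝔢 Z)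
      (B2_card T h1 h2 h3 hcf h0 hc0 hα0 hα hT 𝔢 Z hZ)
  have hc := ha.trans (Finset.sum_le_sum hb)
  exact_mod_cast hc

end main

theorem posp (h1 : DiscQuad) (h2 : KumP) (h3 : QuadUnif) (hcf : ConeFacts) (hc : S_CONE) :
    S_POSP := by
  intro M E _ _ _ _ _ T α₀ 𝔫 hα0 hn0 hT hlim
  obtain ⟨𝔡₀, 𝔠₀, h0, hc0, hα⟩ := exists_dec (Ideal.span {α₀}) (by simpa using hα0)
  obtain ⟨c, hcpos, hcl⟩ := hc M (𝔫 * 𝔡₀) (mul_ne_zero hn0 h0.ne_zero) 1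
  obtain ⟨C0, hC0⟩ := h3 (Module.finrank ℚ M)
  set C1 : ℝ := C0 * ((|discr M| : ℤ) : ℝ) ^ (7 / 4 : ℝ) with hC1
  have hn : ∀ Y : ℝ, 0 ≤ Y →
      (({L : IntermediateField M E | L ∈ QS M E Y ∧ T L}).ncard : ℝ) ≤ C1 * Y := by
    intro Y hY
    refine le_trans ?_ (hC0 M E rfl Y hY).2
    have hs : {L : IntermediateField M E | L ∈ QS M E Y ∧ T L} ⊆ QS M E Y := fun _ h => h.1
    exact_mod_cast Set.ncard_le_ncard hs (hC0 M E rfl Y hY).1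
  have hC1' : 0 ≤ C1 := by
    have := hn 1 zero_le_one
    have h0 : (0 : ℝ) ≤ (({L : IntermediateField M E | L ∈ QS M E 1 ∧ T L}).ncard : ℝ) :=
      Nat.cast_nonneg _
    linarith
  set w : ℝ := (Units.torsionOrder M : ℝ) with hw
  have hwpos : 0 < w := by
    rw [hw]; exact_mod_cast Units.torsionOrder_pos M
  have hcn : (0 : ℝ) < (Ideal.absNorm 𝔠₀ : ℝ) ^ 2 := by
    have := norm_pos M ⟨𝔠₀, hc0⟩
    positivity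
  have hnα : 0 < nrm α₀ := by
    rw [nrm_eq]
    have := norm_pos M ⟨Ideal.span {α₀}, by simpa using hα0⟩
    positivity
  set D : ℝ := 4 ^ Module.finrank ℚ M * nrm α₀ / (Ideal.absNorm 𝔠₀ : ℝ) ^ 2 with hD
  have hDpos : 0 < D := by positivity
  have hDe : ∀ (Z : ℝ) (𝔢 : NZ M), 4 ^ Module.finrank ℚ M * (nrm α₀ * Z) /
      (Ideal.absNorm (𝔠₀ * 𝔢.1) : ℝ) ^ 2 = D * Z / (Ideal.absNorm 𝔢.1 : ℝ) ^ 2 := by
    intro Z 𝔢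
    have he : (0 : ℝ) < (Ideal.absNorm 𝔢.1 : ℝ) ^ 2 := by
      have := norm_pos M 𝔢
      positivity
    rw [hD, map_mul]
    push_cast
    field_simp
  let F : ℝ → NZ M → ℝ := fun Z 𝔢 => if (Ideal.absNorm 𝔢.1 : ℝ) ^ 2 ≤ Z then
    w * ((1 + (({L : IntermediateField M E | L ∈ QS M E (D * Z / (Ideal.absNorm 𝔢.1 : ℝ) ^ 2) ∧
      T L}).ncard : ℝ)) / Z) else 0
  have hTT : Tendsto (fun Z => ∑' 𝔢, F Z 𝔢) atTop (𝓝 (∑' _ : NZ M, (0 : ℝ))) := by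
    refine tendsto_tsum_of_dominated_convergence
      (bound := fun 𝔢 : NZ M => w * ((1 + C1 * D) * (1 / (Ideal.absNorm 𝔢.1 : ℝ) ^ 2)))
      (((summable_inv_sq M).mul_left _).mul_left _) ?_ ?_
    · intro 𝔢
      have he : (0 : ℝ) < (Ideal.absNorm 𝔢.1 : ℝ) ^ 2 := by
        have := norm_pos M 𝔢
        positivity
      have hc : Tendsto (fun Z : ℝ => (D / (Ideal.absNorm 𝔢.1 : ℝ) ^ 2) * Z) atTop atTop :=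
        Tendsto.const_mul_atTop (by positivity) tendsto_id
      have h5 := (hlim.comp hc).const_mul (D / (Ideal.absNorm 𝔢.1 : ℝ) ^ 2)
      have h6 := ((tendsto_inv_atTop_zero (𝕜 := ℝ)).add h5).const_mul w
      rw [mul_zero, add_zero, mul_zero] at h6
      refine h6.congr' ?_
      filter_upwards [eventually_ge_atTop ((Ideal.absNorm 𝔢.1 : ℝ) ^ 2), eventually_gt_atTop 0] with Z hZ hZ0
      show w * (Z⁻¹ + D / (Ideal.absNorm 𝔢.1 : ℝ) ^ 2 *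
        ((({L : IntermediateField M E | L ∈ QS M E (D / (Ideal.absNorm 𝔢.1 : ℝ) ^ 2 * Z) ∧
          T L}).ncard : ℝ) / (D / (Ideal.absNorm 𝔢.1 : ℝ) ^ 2 * Z))) = F Z 𝔢
      simp only [F]
      rw [if_pos hZ]
      have h7 : D / (Ideal.absNorm 𝔢.1 : ℝ) ^ 2 * Z = D * Z / (Ideal.absNorm 𝔢.1 : ℝ) ^ 2 := by ring
      rw [h7]
      rw [aux D _ Z _ hDpos he hZ0]
    · filter_upwards [eventually_gt_atTop 0] with Z hZ 𝔢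
      have he : (0 : ℝ) < (Ideal.absNorm 𝔢.1 : ℝ) ^ 2 := by
        have := norm_pos M 𝔢
        positivity
      simp only [F]
      split_ifs with h
      · rw [Real.norm_of_nonneg (by positivity)]
        refine mul_le_mul_of_nonneg_left ?_ hwpos.le
        have h8 := hn (D * Z / (Ideal.absNorm 𝔢.1 : ℝ) ^ 2) (by positivity)
        rw [div_le_iff₀ hZ]
        have h9 : (1 : ℝ) ≤ 1 / (Ideal.absNorm 𝔢.1 : ℝ) ^ 2 * Z := by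
          rw [one_div, inv_mul_eq_div, le_div_iff₀ he]; linarith
        calc (1 : ℝ) + (({L : IntermediateField M E | L ∈ QS M E (D * Z /
            (Ideal.absNorm 𝔢.1 : ℝ) ^ 2) ∧ T L}).ncard : ℝ) ≤
            1 / (Ideal.absNorm 𝔢.1 : ℝ) ^ 2 * Z + C1 * (D * Z / (Ideal.absNorm 𝔢.1 : ℝ) ^ 2) :=
              add_le_add h9 h8
          _ = _ := by ring
      · rw [norm_zero]; positivity
  rw [tsum_zero] at hTT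
  have hle : ∀ᶠ Z : ℝ in atTop, ((BB M (𝔫 * 𝔡₀) Z).ncard : ℝ) / Z ≤ ∑' 𝔢, F Z 𝔢 := by
    filter_upwards [eventually_gt_atTop 0] with Z hZ
    rw [tsum_eq_sum (s := (T_fin M Z).toFinset)]
    · rw [div_le_iff₀ hZ, Finset.sum_mul]
      refine (BB_card T h1 h2 h3 hcf h0 hc0 hα0 hα hT Z hZ.le).trans (le_of_eq ?_)
      refine Finset.sum_congr rfl fun 𝔢 he => ?_
      rw [Set.Finite.mem_toFinset] at he
      simp only [F]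
      rw [if_pos (show (Ideal.absNorm 𝔢.1 : ℝ) ^ 2 ≤ Z from he), hDe, mul_assoc,
        div_mul_cancel₀ _ hZ.ne']
    · intro 𝔢 he
      rw [Set.Finite.mem_toFinset] at he
      simp only [F]
      exact if_neg he
  have hfinal := le_of_tendsto_of_tendsto hcl hTT hle
  exact absurd hfinal (not_le.mpr hcpos)

/-- POSP from CONE. -/
theorem t_POSP (hc : S_CONE) : S_POSP :=
  posp Pool.Agent.TH263.J3086.discQuad Pool.Agent.TH914.J3087.kumP Pool.Agent.TH444.ML.quadUnif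
    Pool.Agent.TH938.J3088.coneFacts hc

end Pool.Agent.H419.LT.POSP
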