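import Pool.Agent.H419.LT.Stm2

/-! # Real embeddings of quadratic and of Galois extensions (helper399) -/

set_option autoImplicit false

open NumberField Filter Topology

namespace Pool.Agent.H419.LT.RL

open Pool.Agent.H419.LT

section quad

variable {M L : Type} [Field M] [CommRing L] [Algebra M L] {α : M} {θ : L}

/-- uniqueness of the coordinates -/
theorem quad_uniq (hQ : Quad M L α θ) {x y x' y' : M}
    (h : algebraMap M L x + algebraMap M L y * θ = algebraMap M L x' + algebraMap M L y' * θ) :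
    x = x' ∧ y = y' := by
  have h1 : algebraMap M L (x - x') + algebraMap M L (y - y') * θ = 0 := by
    rw [map_sub, map_sub]
    linear_combination h
  obtain ⟨h2, h3⟩ := hQ.inj _ _ h1
  exact ⟨sub_eq_zero.mp h2, sub_eq_zero.mp h3⟩

/-- the first coordinate -/
noncomputable def cx (hQ : Quad M L α θ) (z : L) : M := (hQ.ex z).choose

/-- the second coordinate -/
noncomputable def cy (hQ : Quad M L α θ) (z : L) : M := (hQ.ex z).choose_spec.choose

theorem cxy (hQ : Quad M L α θ) (z : L) :
    z = algebraMap M L (cx hQ z) + algebraMap M L (cy hQ z) * θ :=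
  (hQ.ex z).choose_spec.choose_spec

theorem cxy_eq (hQ : Quad M L α θ) {z : L} {x y : M}
    (h : z = algebraMap M L x + algebraMap M L y * θ) : cx hQ z = x ∧ cy hQ z = y := by
  have h1 := cxy hQ z
  exact quad_uniq hQ (h1.symm.trans h)

/-- the ring homomorphism with given value at `θ` -/
noncomputable def ext (hQ : Quad M L α θ) (σ : M →+* ℝ) (r : ℝ) (hr : r ^ 2 = σ α) : L →+* ℝ where
  toFun z := σ (cx hQ z) + σ (cy hQ z) * r
  map_one' := by
    obtain ⟨h1, h2⟩ := cxy_eq hQ (z := 1) (x := 1) (y := 0) (by simp)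
    rw [h1, h2]; simp
  map_zero' := by
    obtain ⟨h1, h2⟩ := cxy_eq hQ (z := 0) (x := 0) (y := 0) (by simp)
    rw [h1, h2]; simp
  map_add' z w := by
    have hz := cxy hQ z
    have hw := cxy hQ w
    obtain ⟨h1, h2⟩ := cxy_eq hQ (z := z + w) (x := cx hQ z + cx hQ w) (y := cy hQ z + cy hQ w) (by
      rw [map_add, map_add]
      linear_combination hz + hw)
    rw [h1, h2, map_add, map_add]
    ring
  map_mul' z w := by
    have hz := cxy hQ z
    have hw := cxy hQ w
    have hs := hQ.sq
    obtain ⟨h1, h2⟩ := cxy_eq hQ (z := z * w)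
      (x := cx hQ z * cx hQ w + cy hQ z * cy hQ w * α)
      (y := cx hQ z * cy hQ w + cy hQ z * cx hQ w) (by
        rw [map_add, map_add, map_mul, map_mul, map_mul, map_mul, map_mul, ← hs]
        conv_lhs => rw [hz, hw]
        ring)
    rw [h1, h2, map_add, map_add, map_mul, map_mul, map_mul, map_mul, map_mul, ← hr]
    ring

theorem ext_alg (hQ : Quad M L α θ) (σ : M →+* ℝ) (r : ℝ) (hr : r ^ 2 = σ α) (x : M) :
    ext hQ σ r hr (algebraMap M L x) = σ x := by
  obtain ⟨h1, h2⟩ := cxy_eq hQ (z := algebraMap M L x) (x := x) (y := 0) (by simp)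
  show σ (cx hQ _) + σ (cy hQ _) * r = σ x
  rw [h1, h2]; simp

theorem ext_th (hQ : Quad M L α θ) (σ : M →+* ℝ) (r : ℝ) (hr : r ^ 2 = σ α) :
    ext hQ σ r hr θ = r := by
  obtain ⟨h1, h2⟩ := cxy_eq hQ (z := θ) (x := 0) (y := 1) (by simp)
  show σ (cx hQ _) + σ (cy hQ _) * r = r
  rw [h1, h2]; simp

/-- a homomorphism is determined by its restriction and its value at `θ` -/
theorem hom_eq (hQ : Quad M L α θ) {φ ψ : L →+* ℝ}
    (h1 : φ.comp (algebraMap M L) = ψ.comp (algebraMap M L)) (h2 : φ θ = ψ θ) : φ = ψ := by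
  ext z
  obtain ⟨x, y, rfl⟩ := hQ.ex z
  have hx := RingHom.congr_fun h1 x
  have hy := RingHom.congr_fun h1 y
  simp only [RingHom.comp_apply] at hx hy
  rw [map_add, map_add, map_mul, map_mul, hx, hy, h2]

end quad

theorem t_RLQ : S_RLQ := by
  intro K M L _ _ _ _ _ _ _ _ α θ hQ hθ v
  have hθ0 : θ ≠ 0 := fun h => hθ 0 (by rw [h, map_zero])
  have key : ∀ φ : L →+* ℝ, 0 < (φ.comp (algebraMap M L)) α := by
    intro φ
    rw [RingHom.comp_apply, ← hQ.sq, map_pow]
    have : φ θ ≠ 0 := fun h => hθ0 (φ.injective (h.trans (map_zero φ).symm))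
    positivity
  have hcomp : ∀ φ : L →+* ℝ,
      (φ.comp (algebraMap M L)).comp (algebraMap K M) = φ.comp (algebraMap K L) := by
    intro φ
    rw [RingHom.comp_assoc, ← IsScalarTower.algebraMap_eq]
  let F : {φ : L →+* ℝ // φ.comp (algebraMap K L) = v} →
      {σ : M →+* ℝ // σ.comp (algebraMap K M) = v ∧ 0 < σ α} × Bool := fun φ =>
    (⟨φ.1.comp (algebraMap M L), (hcomp φ.1).trans φ.2, key φ.1⟩, decide (0 < φ.1 θ))
  have hF : Function.Bijective F := by
    constructor
    · rintro ⟨φ, hφ⟩ ⟨ψ, hψ⟩ h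
      have h1 : φ.comp (algebraMap M L) = ψ.comp (algebraMap M L) :=
        congrArg (fun z => z.1.1) h
      have h2 : decide (0 < φ θ) = decide (0 < ψ θ) := congrArg Prod.snd h
      have h3 : (0 < φ θ) ↔ (0 < ψ θ) := by
        simpa using h2
      refine Subtype.ext (hom_eq hQ h1 ?_)
      have h4 : φ θ ^ 2 = ψ θ ^ 2 := by
        rw [← map_pow, ← map_pow, hQ.sq]
        exact RingHom.congr_fun h1 α
      have h5 : φ θ ≠ 0 := fun h => hθ0 (φ.injective (h.trans (map_zero φ).symm))
      rcases sq_eq_sq_iff_eq_or_eq_neg.mp h4 with h6 | h6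
      · exact h6
      · exfalso
        rcases lt_or_gt_of_ne h5 with h7 | h7
        · have : ¬ 0 < ψ θ := fun h => absurd (h3.mpr h) (not_lt.mpr h7.le)
          linarith
        · have := h3.mp h7
          linarith
    · rintro ⟨⟨σ, hσ, hα⟩, b⟩
      cases b
      · have hr : (-Real.sqrt (σ α)) ^ 2 = σ α := by
          rw [neg_sq, Real.sq_sqrt hα.le]
        have hc : (ext hQ σ _ hr).comp (algebraMap M L) = σ :=
          RingHom.ext fun x => ext_alg hQ σ _ hr x
        refine ⟨⟨ext hQ σ _ hr, ?_⟩, ?_⟩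
        · rw [← hcomp, hc, hσ]
        · refine Prod.ext (Subtype.ext hc) ?_
          show decide (0 < ext hQ σ _ hr θ) = false
          rw [ext_th, decide_eq_false_iff_not]
          have := Real.sqrt_pos.mpr hα
          linarith
      · have hr : (Real.sqrt (σ α)) ^ 2 = σ α := Real.sq_sqrt hα.le
        have hc : (ext hQ σ _ hr).comp (algebraMap M L) = σ :=
          RingHom.ext fun x => ext_alg hQ σ _ hr x
        refine ⟨⟨ext hQ σ _ hr, ?_⟩, ?_⟩
        · rw [← hcomp, hc, hσ]
        · refine Prod.ext (Subtype.ext hc) ?_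
          show decide (0 < ext hQ σ _ hr θ) = true
          rw [ext_th, decide_eq_true_iff]
          exact Real.sqrt_pos.mpr hα
  unfold rl
  rw [Nat.card_congr (Equiv.ofBijective F hF), Nat.card_prod, Nat.card_eq_fintype_card (α := Bool),
    Fintype.card_bool, mul_comm]

theorem t_RLG : S_RLG := by
  intro K M _ _ _ _ _ v
  rcases isEmpty_or_nonempty {φ : M →+* ℝ // φ.comp (algebraMap K M) = v} with h | ⟨⟨φ₀, hφ₀⟩⟩
  · left
    exact Nat.card_of_isEmpty
  · right
    let _ : Algebra K ℝ := v.toAlgebra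
    let f₀ : M →ₐ[K] ℝ := { φ₀ with commutes' := fun x => RingHom.congr_fun hφ₀ x }
    have hsp : ∀ x : M, ((minpoly K x).map (algebraMap K ℝ)).Splits := by
      intro x
      have h1 : ((minpoly K x).map (algebraMap K M)).Splits := IsGalois.splits K x
      have h2 := h1.map f₀.toRingHom
      rw [Polynomial.map_map] at h2
      have h3 : (f₀.toRingHom).comp (algebraMap K M) = algebraMap K ℝ := f₀.comp_algebraMap
      rw [h3] at h2
      exact h2
    have hc := AlgHom.natCard_of_splits K M ℝ hsp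
    rw [← hc]
    unfold rl
    refine Nat.card_congr ⟨fun φ => { φ.1 with commutes' := fun x => RingHom.congr_fun φ.2 x },
      fun f => ⟨f.toRingHom, f.comp_algebraMap⟩, fun φ => rfl, fun f => rfl⟩

end Pool.Agent.H419.LT.RL
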