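import Pool.Agent.H419.LT.Core
import Pool.Agent.H419.LT.CDS
import Pool.Agent.H419.LT.CSC
import Pool.Agent.H419.LT.LIMS
import Pool.Agent.H419.LT.POSS
import Pool.Agent.H419.LT.RL

/-! # Prescribed signatures -/

set_option autoImplicit false
set_option linter.unusedSectionVars false

open NumberField Filter Topology
open Pool.Agent.TH444.ML

namespace Pool.Agent.H419.LT

section transfer

variable {K Ω : Type} [Field K] [NumberField K] [Field Ω] [Algebra K Ω] [IsAlgClosed Ω]

theorem ncard_AS_P (M : IntermediateField K Ω) [FiniteDimensional K M] [NumberField M]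
    (P : IntermediateField K Ω → Prop) (Y : ℝ) :
    Set.ncard {L : IntermediateField K Ω | L ∈ AS M Y ∧ P L} =
      Set.ncard {L : IntermediateField M Ω | L ∈ QS M Ω Y ∧
        P (IntermediateField.restrictScalars K L)} := by
  have himg : (fun L' : IntermediateField M Ω => IntermediateField.restrictScalars K L') ''
      {L : IntermediateField M Ω | L ∈ QS M Ω Y ∧ P (IntermediateField.restrictScalars K L)} =
      {L : IntermediateField K Ω | L ∈ AS M Y ∧ P L} := by
    ext L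
    constructor
    · rintro ⟨L', ⟨hL', hT⟩, rfl⟩
      have hle : M ≤ IntermediateField.restrictScalars K L' := by
        intro x hx
        exact L'.algebraMap_mem ⟨x, hx⟩
      exact ⟨(extend_mem _ hle).2 hL', hT⟩
    · rintro ⟨hL, hT⟩
      exact ⟨IntermediateField.extendScalars hL.1, ⟨(extend_mem L hL.1).1 hL, hT⟩, rfl⟩
  rw [← himg]
  exact Set.ncard_image_of_injective _ (IntermediateField.restrictScalars_injective K)

end transfer

theorem apx (M : Type) [Field M] [NumberField M] (S : Set (M →+* ℝ)) :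
    ∃ α : 𝓞 M, α ≠ 0 ∧ sg (α : M) = S := by
  obtain ⟨c, hc, hlim⟩ := CDS.t_CDS M S ⊤ top_ne_bot 0
  obtain ⟨Z, hZ⟩ := (hlim.eventually (lt_mem_nhds hc)).exists
  have hne : {α : 𝓞 M | (α ∈ cone M ∧ sg (α : M) = S) ∧ α - 0 ∈ (⊤ : Ideal (𝓞 M)) ∧
      nrm α ≤ Z}.Nonempty := by
    by_contra hcon
    rw [Set.not_nonempty_iff_eq_empty] at hcon
    rw [hcon, Set.ncard_empty, Nat.cast_zero, zero_div] at hZ
    exact lt_irrefl _ hZ
  obtain ⟨α, ⟨h1, h2⟩, -⟩ := hne
  exact ⟨α, (Pool.Agent.TH938.J3088.coneFacts M).2.1 α h1, h2⟩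

theorem sg_mul_pos {M : Type} [Field M] (α β : M) (h : ∀ σ : M →+* ℝ, 0 < σ β) :
    sg (α * β) = sg α := by
  ext σ
  simp only [sg, Set.mem_ofPred_eq, map_mul]
  exact mul_pos_iff_of_pos_right (h σ)

section sig

variable {K M : Type} [Field K] [Field M] [NumberField M] [Algebra K M]

/-- the real embeddings above `v` -/
theorem rl_adj {E : Type} [Field E] [Algebra M E] [Algebra K E] [IsScalarTower K M E]
    [IsAlgClosed E] {α : 𝓞 M} {s : E} (hs : s ^ 2 = algebraMap M E (α : M))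
    (hns : ∀ x : M, algebraMap M E x ≠ s) (v : K →+* ℝ) :
    rl K (IntermediateField.adjoin M {s}) v =
      2 * Nat.card {σ : M →+* ℝ // σ.comp (algebraMap K M) = v ∧ σ ∈ sg (α : M)} := by
  have h := RL.t_RLQ K M (IntermediateField.adjoin M {s}) (α : M) _ (quad_adj hs hns) (by
    intro x hx
    exact hns x (by simpa using congrArg Subtype.val hx)) v
  exact h

theorem finite_emb : Finite (M →+* ℝ) := by
  have h : Function.Injective (fun σ : M →+* ℝ => (Complex.ofRealHom.comp σ : M →+* ℂ)) := by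
    intro σ τ h
    ext x
    have := congrArg (fun f : M →+* ℂ => f x) h
    simpa using this
  exact Finite.of_injective _ h

/-- a set of embeddings with a given number of elements above every `v` -/
theorem exists_S (r : (K →+* ℝ) → ℕ) (hr : ∀ v, Even (r v) ∧ r v / 2 ≤ rl K M v) :
    ∃ S : Set (M →+* ℝ), ∀ v : K →+* ℝ,
      Nat.card {σ : M →+* ℝ // σ.comp (algebraMap K M) = v ∧ σ ∈ S} = r v / 2 := by
  classical
  have hfin := finite_emb (M := M)
  have : Fintype (M →+* ℝ) := Fintype.ofFinite _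
  have h1 : ∀ v : K →+* ℝ, ∃ T : Finset (M →+* ℝ),
      T ⊆ Finset.univ.filter (fun σ : M →+* ℝ => σ.comp (algebraMap K M) = v) ∧
        T.card = r v / 2 := by
    intro v
    apply Finset.exists_subset_card_eq
    refine (hr v).2.trans (le_of_eq ?_)
    unfold rl
    rw [Nat.card_eq_fintype_card, Fintype.card_subtype]
  choose T hT hT2 using h1
  refine ⟨{σ | σ ∈ T (σ.comp (algebraMap K M))}, fun v => ?_⟩
  rw [← hT2 v, Nat.card_eq_fintype_card, Fintype.card_subtype]
  congr 1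
  ext σ
  simp only [Set.mem_ofPred_eq, Finset.mem_filter, Finset.mem_univ, true_and]
  constructor
  · rintro ⟨h2, h3⟩
    rw [← h2]
    exact h3
  · intro h2
    have h3 := hT v h2
    rw [Finset.mem_filter] at h3
    exact ⟨h3.2, by rw [h3.2]; exact h2⟩

end sig

theorem locDetS_sig {K M E : Type} [Field K] [Field M] [NumberField M] [Field E] [Algebra K M]
    [Algebra M E] [Algebra K E] [IsScalarTower K M E] [IsAlgClosed E] (r : (K →+* ℝ) → ℕ) :
    LocDetS M E (fun L => ∀ v : K →+* ℝ, rl K L v = r v) := by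
  intro 𝔠 h𝔠
  refine ⟨⊤, top_ne_bot, ?_⟩
  intro α α' s s' _ _ _ hsg hs hs' hn hn' hT v
  rw [rl_adj hs' hn' v, ← hsg, ← rl_adj hs hn v]
  exact hT v

/-- the signature of a quadratic extension of a Galois extension -/
theorem crit_of_quad {K Ω H : Type} [Field K] [NumberField K] [Field Ω] [Algebra K Ω]
    [IsAlgClosure K Ω] [Group H] [Finite H] (r : (K →+* ℝ) → ℕ) {M L : IntermediateField K Ω}
    (hM : M ∈ Gal K Ω H) (hML : M ≤ L) (hL2 : Module.finrank K L = 2 * Module.finrank K M)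
    (hT : ∀ v : K →+* ℝ, rl K L v = r v) (v : K →+* ℝ) :
    Even (r v) ∧ r v ≤ 2 * Nat.card H ∧
      (r v ≠ 0 → ∃ σ : M →+* ℝ, σ.comp (algebraMap K M) = v) := by
  have hac : IsAlgClosed Ω := IsAlgClosure.isAlgClosed K
  have hfd := gal_fd hM
  have hgal : IsGalois K M := hM.2.1
  have hnf : NumberField M := nf_of_fd M
  obtain ⟨rep, hrep⟩ := exists_rep M
  have hpos : 0 < Module.finrank K M := Module.finrank_pos
  have hfin : Module.finrank K L = Module.finrank K M *
      Module.finrank M (IntermediateField.extendScalars hML) :=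
    (Module.finrank_mul_finrank K M (IntermediateField.extendScalars hML)).symm
  have h2' : Module.finrank M (IntermediateField.extendScalars hML) = 2 := by
    rw [hL2] at hfin
    exact (Nat.eq_of_mul_eq_mul_left hpos (by rw [← hfin]; ring))
  obtain ⟨C, α₀, σ, hS, hσ, hn, hL⟩ :=
    (Pool.Agent.TH914.J3087.kumP M Ω rep hrep).1 (IntermediateField.extendScalars hML) h2'
  have hT' : ∀ v : K →+* ℝ, rl K (IntermediateField.extendScalars hML) v = r v := hT
  rw [hL] at hT'
  obtain ⟨e⟩ := hM.2.2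
  have hcard : Module.finrank K M = Nat.card H := by
    rw [← IsGalois.card_aut_eq_finrank K M]
    exact Nat.card_congr e.toEquiv
  have hfe := finite_emb (M := M)
  have h3 := hT' v
  rw [rl_adj hσ hn v] at h3
  have h4 : Nat.card {τ : M →+* ℝ // τ.comp (algebraMap K M) = v ∧ τ ∈ sg (α₀ : M)} ≤
      rl K M v := by
    refine Nat.card_le_card_of_injective (fun τ => ⟨τ.1, τ.2.1⟩) ?_
    intro a b hab
    exact Subtype.ext (congrArg (fun x => x.1) hab)
  refine ⟨⟨_, by rw [← h3]; ring⟩, ?_, ?_⟩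
  · rcases RL.t_RLG K M v with h5 | h5
    · rw [h5] at h4
      omega
    · rw [h5, hcard] at h4
      omega
  · intro h5
    have h6 : Nat.card {τ : M →+* ℝ // τ.comp (algebraMap K M) = v ∧ τ ∈ sg (α₀ : M)} ≠ 0 := by
      intro h7
      rw [h7] at h3
      exact h5 (by omega)
    obtain ⟨τ⟩ := (Nat.card_ne_zero.1 h6).1
    exact ⟨τ.1, τ.2.1⟩

theorem asymp_sig (K Ω H : Type) [Field K] [NumberField K] [Field Ω] [Algebra K Ω]
    [IsAlgClosure K Ω] [Group H] [Finite H] (h2 : 2 ≤ Nat.card H)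
    (hsum : Summable (fun M : Gal K Ω H => (dsc M.1) ^ (-(1 / 4) : ℝ)))
    (r : (K →+* ℝ) → ℕ) (D : ℝ) (hD : 0 < D) :
    (∀ X : ℝ, 0 < X → (TT K Ω H (X * D)).Finite) ∧
    ∃ c : ℝ, 0 ≤ c ∧
      Tendsto (fun X : ℝ =>
        (Set.ncard {L : IntermediateField K Ω | L ∈ TT K Ω H (X * D) ∧
          ∀ v : K →+* ℝ, rl K L v = r v} : ℝ) / X) atTop (𝓝 c) ∧
      (0 < c ↔ ∃ M ∈ Gal K Ω H, ∀ v : K →+* ℝ, Even (r v) ∧ r v ≤ 2 * Nat.card H ∧
        (r v ≠ 0 → ∃ σ : M →+* ℝ, σ.comp (algebraMap K M) = v)) := by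
  have hac : IsAlgClosed Ω := IsAlgClosure.isAlgClosed K
  have hl : ∀ M ∈ Gal K Ω H, ∃ c : ℝ, Tendsto (fun Y : ℝ =>
      (Set.ncard {L : IntermediateField K Ω | L ∈ AS M Y ∧
        ∀ v : K →+* ℝ, rl K L v = r v} : ℝ) / Y) atTop (𝓝 c) := by
    intro M hM
    have hfd := gal_fd hM
    have hnf : NumberField M := nf_of_fd M
    obtain ⟨c, hc⟩ := LIMS.t_LIMS CDS.t_CDS CSC.t_CSC M Ω
      (fun L => ∀ v : K →+* ℝ, rl K L v = r v) (locDetS_sig r)
    refine ⟨c, hc.congr fun Y => ?_⟩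
    rw [ncard_AS_P M (fun L => ∀ v : K →+* ℝ, rl K L v = r v)]
    rfl
  obtain ⟨h1, c, hc0, hc1, hc2⟩ :=
    MAINP.t_MAINP K Ω H (fun L => ∀ v : K →+* ℝ, rl K L v = r v) h2 hsum hl D hD
  refine ⟨h1, c, hc0, hc1, hc2.trans ?_⟩
  constructor
  · rintro ⟨M, hM, hne⟩
    have hfd := gal_fd hM
    have hgal : IsGalois K M := hM.2.1
    have hnf : NumberField M := nf_of_fd M
    refine ⟨M, hM, ?_⟩
    obtain ⟨L, hML, hL2, hT⟩ : ∃ L : IntermediateField K Ω, M ≤ L ∧
        Module.finrank K L = 2 * Module.finrank K M ∧ ∀ v : K →+* ℝ, rl K L v = r v := by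
      by_contra hcon
      apply hne
      have : ∀ Y : ℝ, {L : IntermediateField K Ω | L ∈ AS M Y ∧
          ∀ v : K →+* ℝ, rl K L v = r v} = ∅ := by
        intro Y
        rw [Set.eq_empty_iff_forall_notMem]
        rintro L ⟨hL, hT⟩
        exact hcon ⟨L, hL.1, hL.2.1, hT⟩
      simp only [this, Set.ncard_empty, Nat.cast_zero, zero_div]
      exact tendsto_const_nhds
    exact crit_of_quad r hM hML hL2 hT
  · rintro ⟨M, hM, h⟩
    refine ⟨M, hM, ?_⟩
    have hfd := gal_fd hM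
    have hgal : IsGalois K M := hM.2.1
    have hnf : NumberField M := nf_of_fd M
    obtain ⟨e⟩ := hM.2.2
    have hcard : Module.finrank K M = Nat.card H := by
      rw [← IsGalois.card_aut_eq_finrank K M]
      exact Nat.card_congr e.toEquiv
    have hfe := finite_emb (M := M)
    have hr : ∀ v, Even (r v) ∧ r v / 2 ≤ rl K M v := by
      intro v
      obtain ⟨h3, h4, h5⟩ := h v
      refine ⟨h3, ?_⟩
      by_cases h0 : r v = 0
      · rw [h0]; simp
      · obtain ⟨σ, hσ⟩ := h5 h0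
        have h6 : rl K M v ≠ 0 := by
          unfold rl
          rw [Nat.card_ne_zero]
          exact ⟨⟨⟨σ, hσ⟩⟩, inferInstance⟩
        rcases RL.t_RLG K M v with h7 | h7
        · exact absurd h7 h6
        · rw [h7, hcard]
          omega
    obtain ⟨S, hS⟩ := exists_S r hr
    obtain ⟨α₀, hα₀, hsg⟩ := apx M S
    intro hten
    have hten' : Tendsto (fun Y : ℝ =>
        (Set.ncard {L : IntermediateField M Ω | L ∈ QS M Ω Y ∧
          ∀ v : K →+* ℝ, rl K L v = r v} : ℝ) / Y) atTop (𝓝 0) := by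
      refine hten.congr fun Y => ?_
      rw [ncard_AS_P M (fun L => ∀ v : K →+* ℝ, rl K L v = r v)]
      rfl
    refine POSS.t_POSS CDS.t_CDS M Ω (fun L => ∀ v : K →+* ℝ, rl K L v = r v) α₀ ⊤ hα₀
      top_ne_bot ?_ hten'
    intro β s _ hβ hs hns v
    have h5 : sg ((α₀ * β : 𝓞 M) : M) = S := by
      rw [← hsg]
      exact sg_mul_pos _ _ hβ
    rw [rl_adj hs hns v, h5, hS v]
    obtain ⟨k, hk⟩ := (h v).1
    omega

end Pool.Agent.H419.LT
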