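import Pool.Agent.H419.LT.Stm
import Pool.Graph.R_seed8.TH444.ML.Done

/-! # Summation over the extensions `M` with group `H`, with a property `P` -/

set_option autoImplicit false
set_option linter.unusedSectionVars false

open NumberField Filter Topology
open Pool.Agent.TH444.ML

namespace Pool.Agent.H419.LT.MAINP

section

variable {K Ω : Type} [Field K] [NumberField K] [Field Ω] [Algebra K Ω] [IsAlgClosure K Ω]
variable {H : Type} [Group H] [Finite H]

/-- the extensions with group `C₂ ≀ H` above `M`, of bounded discriminant, with `P` -/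
def SP (H : Type) [Group H] (P : IntermediateField K Ω → Prop) (M : IntermediateField K Ω)
    (Z : ℝ) : Set (IntermediateField K Ω) :=
  {L | L ∈ SM H M Z ∧ P L}

theorem SP_sub (P : IntermediateField K Ω → Prop) (M : IntermediateField K Ω) (Z : ℝ) :
    SP H P M Z ⊆ SM H M Z := fun _ h => h.1

/-- the limit for a fixed `M` -/
theorem lim_SP (P : IntermediateField K Ω → Prop)
    (M : IntermediateField K Ω) (hM : M ∈ Gal K Ω H) (c : ℝ)
    (hc : Tendsto (fun Y : ℝ =>
      (Set.ncard {L : IntermediateField K Ω | L ∈ AS M Y ∧ P L} : ℝ) / Y) atTop (𝓝 c))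
    (D : ℝ) (hD : 0 < D) :
    Tendsto (fun X : ℝ => (Set.ncard (SP H P M (X * D)) : ℝ) / X) atTop
      (𝓝 (c * (D / dsc M ^ 2))) := by
  have hfd := gal_fd hM
  have hgal : IsGalois K M := hM.2.1
  have hnf : NumberField M := nf_of_fd M
  have hac : IsAlgClosed Ω := IsAlgClosure.isAlgClosed K
  have hu : QuadUnif := quadUnif
  set d : ℝ := dsc M with hd
  have hd1 : 1 ≤ d := one_le_dsc M
  have hd0 : 0 < d := by linarith
  have hdd : 0 < D / d ^ 2 := by positivity
  have hbad := badSmall K Ω M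
  -- substitution `Y = X D / d ^ 2`
  have hsub : Tendsto (fun X : ℝ => X * (D / d ^ 2)) atTop atTop :=
    tendsto_id.atTop_mul_const hdd
  have h1 := (hc.comp hsub).mul_const (D / d ^ 2)
  have h2 := (hbad.comp hsub).mul_const (D / d ^ 2)
  rw [zero_mul] at h2
  have e1 : ∀ X a : ℝ, a / (X * (D / d ^ 2)) * (D / d ^ 2) = a / X := by
    intro X a
    have : D / d ^ 2 ≠ 0 := hdd.ne'
    field_simp
  have h1' : Tendsto (fun X : ℝ =>
      (Set.ncard {L : IntermediateField K Ω | L ∈ AS M (X * (D / d ^ 2)) ∧ P L} : ℝ) / X) atTop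
      (𝓝 (c * (D / d ^ 2))) := by
    refine h1.congr ?_
    intro X
    exact e1 X _
  have h2' : Tendsto (fun X : ℝ =>
      (Set.ncard (BM M (X * (D / d ^ 2))) : ℝ) / X) atTop (𝓝 0) := by
    refine h2.congr ?_
    intro X
    exact e1 X _
  have hle : ∀ᶠ X : ℝ in atTop,
      (Set.ncard {L : IntermediateField K Ω | L ∈ AS M (X * (D / d ^ 2)) ∧ P L} : ℝ) / X -
        (Set.ncard (BM M (X * (D / d ^ 2))) : ℝ) / X ≤
        (Set.ncard (SP H P M (X * D)) : ℝ) / X ∧
      (Set.ncard (SP H P M (X * D)) : ℝ) / X ≤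
        (Set.ncard {L : IntermediateField K Ω | L ∈ AS M (X * (D / d ^ 2)) ∧ P L} : ℝ) / X := by
    filter_upwards [eventually_gt_atTop (0 : ℝ)] with X hX
    have hY : 0 ≤ X * (D / d ^ 2) := by positivity
    have hfin := finite_AS' hu M (X * (D / d ^ 2)) hY
    have hun := SM_union M hM (X * (D / d ^ 2))
    have hXD : X * (D / d ^ 2) * dsc M ^ 2 = X * D := by
      rw [← hd]; field_simp
    rw [hXD] at hun
    have hf1 : (SM H M (X * D)).Finite :=
      hfin.subset (by rw [← hun]; exact Set.subset_union_left)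
    have hf2 : (BM M (X * (D / d ^ 2))).Finite :=
      hfin.subset (by rw [← hun]; exact Set.subset_union_right)
    have hf3 : {L : IntermediateField K Ω | L ∈ AS M (X * (D / d ^ 2)) ∧ P L}.Finite :=
      hfin.subset (fun L h => h.1)
    have hf4 : (SP H P M (X * D)).Finite := hf1.subset (SP_sub P M _)
    have hA : {L : IntermediateField K Ω | L ∈ AS M (X * (D / d ^ 2)) ∧ P L} ⊆
        SP H P M (X * D) ∪ BM M (X * (D / d ^ 2)) := by
      rintro L ⟨hL, hP⟩
      rw [← hun] at hL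
      rcases hL with hL | hL
      · exact Or.inl ⟨hL, hP⟩
      · exact Or.inr hL
    have hB : SP H P M (X * D) ⊆
        {L : IntermediateField K Ω | L ∈ AS M (X * (D / d ^ 2)) ∧ P L} := by
      rintro L ⟨hL, hP⟩
      refine ⟨?_, hP⟩
      rw [← hun]
      exact Or.inl hL
    have hA' : (Set.ncard {L : IntermediateField K Ω | L ∈ AS M (X * (D / d ^ 2)) ∧ P L} : ℝ) ≤
        (Set.ncard (SP H P M (X * D)) : ℝ) + (Set.ncard (BM M (X * (D / d ^ 2))) : ℝ) := by
      exact_mod_cast (Set.ncard_le_ncard hA (hf4.union hf2)).trans (Set.ncard_union_le _ _)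
    have hB' : (Set.ncard (SP H P M (X * D)) : ℝ) ≤
        (Set.ncard {L : IntermediateField K Ω | L ∈ AS M (X * (D / d ^ 2)) ∧ P L} : ℝ) := by
      exact_mod_cast Set.ncard_le_ncard hB hf3
    constructor
    · rw [← sub_div]
      apply div_le_div_of_nonneg_right _ hX.le
      linarith
    · exact div_le_div_of_nonneg_right hB' hX.le
  have h3 := h1'.sub h2'
  rw [sub_zero] at h3
  exact tendsto_of_tendsto_of_tendsto_of_le_of_le' h3 h1'
    (hle.mono fun _ h => h.1) (hle.mono fun _ h => h.2)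

/-- for fixed `X` -/
theorem key_SP (P : IntermediateField K Ω → Prop) (h2 : 2 ≤ Nat.card H)
    (hsum : Summable (fun M : Gal K Ω H => (dsc M.1) ^ (-(1 / 4) : ℝ)))
    (D C : ℝ)
    (hC : ∀ M : IntermediateField K Ω, M ∈ Gal K Ω H → ∀ X : ℝ, 0 < X →
      (SM H M (X * D)).Finite ∧
      (Set.ncard (SM H M (X * D)) : ℝ) ≤ C * X * (dsc M) ^ (-(1 / 4) : ℝ))
    (X : ℝ) (hX : 0 < X) :
    (TT K Ω H (X * D)).Finite ∧
      (Set.ncard {L : IntermediateField K Ω | L ∈ TT K Ω H (X * D) ∧ P L} : ℝ) =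
        ∑' M : Gal K Ω H, (Set.ncard (SP H P M.1 (X * D)) : ℝ) := by
  classical
  have hw : WrIff := Pool.Agent.TH365.J3099.wrIff
  have hm : MidUnique := Pool.Agent.TH365.J3099.midUnique
  have hsum' : Summable (fun M : Gal K Ω H => C * (dsc M.1) ^ (-(1 / 4) : ℝ)) := hsum.mul_left C
  have hs1 : Summable (fun M : Gal K Ω H => (Set.ncard (SM H M.1 (X * D)) : ℝ)) := by
    refine Summable.of_nonneg_of_le (fun M => by positivity)
      (fun M => (hC M.1 M.2 X hX).2) ?_
    have : (fun M : Gal K Ω H => C * X * (dsc M.1) ^ (-(1 / 4) : ℝ)) =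
        fun M : Gal K Ω H => X * (C * (dsc M.1) ^ (-(1 / 4) : ℝ)) := by
      funext M; ring
    rw [this]
    exact hsum'.mul_left X
  have hfs : {M : Gal K Ω H | (SM H M.1 (X * D)).Nonempty}.Finite := by
    have h := hs1.tendsto_cofinite_zero.eventually (gt_mem_nhds (zero_lt_one (α := ℝ)))
    rw [Filter.eventually_cofinite] at h
    refine h.subset ?_
    intro M hM
    simp only [Set.mem_setOf_eq, not_lt]
    have hf := (hC M.1 M.2 X hX).1
    have : 0 < Set.ncard (SM H M.1 (X * D)) := (Set.ncard_pos hf).2 hM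
    exact_mod_cast this
  have hT : TT K Ω H (X * D) = ⋃ M ∈ hfs.toFinset, SM H M.1 (X * D) := by
    rw [TT_eq hw]
    ext L
    simp only [Set.mem_iUnion, Set.Finite.mem_toFinset, Set.mem_setOf_eq, exists_prop]
    constructor
    · rintro ⟨M, hM⟩
      exact ⟨M, ⟨L, hM⟩, hM⟩
    · rintro ⟨M, -, hM⟩
      exact ⟨M, hM⟩
  have hTf : (TT K Ω H (X * D)).Finite := by
    rw [hT]
    exact Set.Finite.biUnion hfs.toFinset.finite_toSet (fun M _ => (hC M.1 M.2 X hX).1)
  refine ⟨hTf, ?_⟩
  have hTP : {L : IntermediateField K Ω | L ∈ TT K Ω H (X * D) ∧ P L} =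
      ⋃ M ∈ hfs.toFinset, SP H P M.1 (X * D) := by
    rw [hT]
    ext L
    simp only [Set.mem_iUnion, Set.mem_setOf_eq, exists_prop, SP]
    constructor
    · rintro ⟨⟨M, hM1, hM2⟩, hP⟩
      exact ⟨M, hM1, hM2, hP⟩
    · rintro ⟨M, hM1, hM2, hP⟩
      exact ⟨⟨M, hM1, hM2⟩, hP⟩
  have hSf : ∀ M : Gal K Ω H, (SP H P M.1 (X * D)).Finite := fun M =>
    (hC M.1 M.2 X hX).1.subset (SP_sub P M.1 _)
  have hTPf : {L : IntermediateField K Ω | L ∈ TT K Ω H (X * D) ∧ P L}.Finite :=
    hTf.subset (fun L h => h.1)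
  have hTb : hTPf.toFinset =
      hfs.toFinset.biUnion (fun M => (hSf M).toFinset) := by
    ext L
    rw [Set.Finite.mem_toFinset, hTP]
    simp only [Set.mem_iUnion, Finset.mem_biUnion, Set.Finite.mem_toFinset, exists_prop]
  have hcard : ({L : IntermediateField K Ω | L ∈ TT K Ω H (X * D) ∧ P L}).ncard =
      ∑ M ∈ hfs.toFinset, (SP H P M.1 (X * D)).ncard := by
    rw [Set.ncard_eq_toFinset_card _ hTPf, hTb, Finset.card_biUnion]
    · refine Finset.sum_congr rfl fun M _ => ?_
      exact (Set.ncard_eq_toFinset_card _ (hSf M)).symm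
    · intro M _ M' _ hMM
      simp only [Function.onFun]
      rw [Finset.disjoint_left]
      intro L h1 h2'
      rw [Set.Finite.mem_toFinset] at h1 h2'
      exact hMM (Subtype.ext (hm K Ω H L M.1 M'.1 h2 h1.1.1 h2'.1.1))
  rw [hcard, tsum_eq_sum (s := hfs.toFinset)]
  · push_cast; rfl
  · intro M hM
    have : ¬ (SM H M.1 (X * D)).Nonempty := by
      intro h; exact hM (by simpa using h)
    rw [Set.not_nonempty_iff_eq_empty] at this
    have h' : SP H P M.1 (X * D) = ∅ := by
      rw [← Set.subset_empty_iff, ← this]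
      exact SP_sub P M.1 _
    rw [h']; simp

end

theorem t_MAINP : S_MAINP := by
  intro K Ω H _ _ _ _ _ _ _ P h2 hsum hlim D hD
  classical
  obtain ⟨C, hC0, hC⟩ := bound_SM (K := K) (Ω := Ω) quadUnif H D hD
  have hsum' : Summable (fun M : Gal K Ω H => C * (dsc M.1) ^ (-(1 / 4) : ℝ)) := hsum.mul_left C
  choose cM hcM using fun M : Gal K Ω H => hlim M.1 M.2
  have hcM0 : ∀ M : Gal K Ω H, 0 ≤ cM M := by
    intro M
    refine ge_of_tendsto (hcM M) ?_
    filter_upwards [eventually_ge_atTop (0 : ℝ)] with Y hY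
    positivity
  have hgM := fun M : Gal K Ω H => lim_SP (H := H) P M.1 M.2 (cM M) (hcM M) D hD
  set g : Gal K Ω H → ℝ := fun M => cM M * (D / dsc M.1 ^ 2) with hg
  have hdM : ∀ M : Gal K Ω H, 0 < D / dsc M.1 ^ 2 := by
    intro M
    have hfd := gal_fd M.2
    have hnf : NumberField M.1 := nf_of_fd M.1
    have hd1 : 1 ≤ dsc M.1 := one_le_dsc M.1
    have hd0 : 0 < dsc M.1 := by linarith
    positivity
  have hg0 : ∀ M, 0 ≤ g M := fun M => mul_nonneg (hcM0 M) (hdM M).le
  have hbd : ∀ M : Gal K Ω H, ∀ X : ℝ, 0 < X →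
      (Set.ncard (SP H P M.1 (X * D)) : ℝ) ≤ C * X * (dsc M.1) ^ (-(1 / 4) : ℝ) := by
    intro M X hX
    have h1 := hC M.1 M.2 X hX
    refine le_trans ?_ h1.2
    exact_mod_cast Set.ncard_le_ncard (SP_sub P M.1 _) h1.1
  have hle : ∀ M : Gal K Ω H, g M ≤ C * (dsc M.1) ^ (-(1 / 4) : ℝ) := by
    intro M
    refine le_of_tendsto (hgM M) ?_
    filter_upwards [eventually_gt_atTop (0 : ℝ)] with X hX
    rw [div_le_iff₀ hX]
    have := hbd M X hX
    linarith
  have hs : Summable g := Summable.of_nonneg_of_le hg0 hle hsum'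
  refine ⟨fun X hX => (key_SP P h2 hsum D C hC X hX).1, ∑' M : Gal K Ω H, g M,
    tsum_nonneg hg0, ?_, ?_⟩
  · have h := tendsto_tsum_of_dominated_convergence (𝓕 := atTop)
      (f := fun (X : ℝ) (M : Gal K Ω H) => (Set.ncard (SP H P M.1 (X * D)) : ℝ) / X)
      (g := g) hsum' (fun M => hgM M) (by
        filter_upwards [eventually_gt_atTop (0 : ℝ)] with X hX M
        rw [Real.norm_of_nonneg (by positivity), div_le_iff₀ hX]
        have := hbd M X hX
        linarith)
    refine h.congr' ?_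
    filter_upwards [eventually_gt_atTop (0 : ℝ)] with X hX
    rw [(key_SP P h2 hsum D C hC X hX).2, tsum_div_const]
  · constructor
    · intro hpos
      by_contra hno
      have hz : ∀ M : Gal K Ω H, g M = 0 := by
        intro M
        have hM0 : Tendsto (fun Y : ℝ =>
            (Set.ncard {L : IntermediateField K Ω | L ∈ AS M.1 Y ∧ P L} : ℝ) / Y) atTop
            (𝓝 0) := by
          by_contra hn
          exact hno ⟨M.1, M.2, hn⟩
        have hc : cM M = 0 := tendsto_nhds_unique (hcM M) hM0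
        simp only [hg, hc, zero_mul]
      have : ∑' M : Gal K Ω H, g M = 0 := by
        simp only [hz, tsum_zero]
      rw [this] at hpos
      exact lt_irrefl _ hpos
    · rintro ⟨M, hM, hn⟩
      have hc : cM ⟨M, hM⟩ ≠ 0 := by
        intro h
        have := hcM ⟨M, hM⟩
        rw [h] at this
        exact hn this
      have hc' : 0 < cM ⟨M, hM⟩ := lt_of_le_of_ne (hcM0 _) (Ne.symm hc)
      exact hs.tsum_pos hg0 ⟨M, hM⟩ (mul_pos hc' (hdM _))

end Pool.Agent.H419.LT.MAINP
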