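import Pool.Agent.H419.LT.Stm

/-! # The maximal orders of `M(√α)` and `M(√(α u))` modulo `𝔪` -/

set_option autoImplicit false
set_option linter.unusedSectionVars false
set_option linter.unusedVariables false

open NumberField

namespace Pool.Agent.H419.LT.TYG

section basic

variable {M : Type} [Field M] {L : Type} [CommRing L] [Algebra M L] {α : M} {θ : L}
  (h : Quad M L α θ)

include h

theorem uniq {x y x' y' : M} (e : algebraMap M L x + algebraMap M L y * θ =
    algebraMap M L x' + algebraMap M L y' * θ) : x = x' ∧ y = y' := by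
  have h1 := h.inj (x - x') (y - y') (by
    rw [map_sub, map_sub]
    linear_combination e)
  exact ⟨sub_eq_zero.1 h1.1, sub_eq_zero.1 h1.2⟩

theorem injM : Function.Injective (algebraMap M L) := by
  intro x x' e
  exact (uniq h (x := x) (y := 0) (x' := x') (y' := 0) (by rw [e])).1

/-- the first coordinate -/
noncomputable def cx (z : L) : M := (h.ex z).choose

/-- the second coordinate -/
noncomputable def cy (z : L) : M := (h.ex z).choose_spec.choose

theorem eq_c (z : L) : z = algebraMap M L (cx h z) + algebraMap M L (cy h z) * θ :=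
  (h.ex z).choose_spec.choose_spec

theorem c_eq {z : L} {x y : M} (e : z = algebraMap M L x + algebraMap M L y * θ) :
    cx h z = x ∧ cy h z = y :=
  uniq h ((eq_c h z).symm.trans e)

theorem c_add (z w : L) : cx h (z + w) = cx h z + cx h w ∧ cy h (z + w) = cy h z + cy h w := by
  apply c_eq h
  conv_lhs => rw [eq_c h z, eq_c h w]
  rw [map_add, map_add]
  ring

theorem c_mul (z w : L) : cx h (z * w) = cx h z * cx h w + α * (cy h z * cy h w) ∧
    cy h (z * w) = cx h z * cy h w + cy h z * cx h w := by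
  apply c_eq h
  conv_lhs => rw [eq_c h z, eq_c h w]
  rw [map_add, map_add, map_mul, map_mul, map_mul, map_mul, map_mul]
  linear_combination (algebraMap M L (cy h z) * algebraMap M L (cy h w)) * h.sq

theorem c_alg (x : M) : cx h (algebraMap M L x) = x ∧ cy h (algebraMap M L x) = 0 := by
  apply c_eq h
  rw [map_zero, zero_mul, add_zero]

/-- the conjugation -/
noncomputable def conj : L →ₐ[M] L where
  toFun z := algebraMap M L (cx h z) - algebraMap M L (cy h z) * θ
  map_one' := by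
    have h1 := c_alg h 1
    rw [map_one] at h1
    rw [h1.1, h1.2, map_one, map_zero, zero_mul, sub_zero]
  map_mul' z w := by
    rw [(c_mul h z w).1, (c_mul h z w).2, map_add, map_add, map_mul, map_mul, map_mul, map_mul,
      map_mul]
    linear_combination (-(algebraMap M L (cy h z) * algebraMap M L (cy h w))) * h.sq
  map_zero' := by
    have h1 := c_alg h 0
    rw [map_zero] at h1
    rw [h1.1, h1.2, map_zero, zero_mul, sub_zero]
  map_add' z w := by
    rw [(c_add h z w).1, (c_add h z w).2, map_add, map_add]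
    ring
  commutes' x := by
    rw [(c_alg h x).1, (c_alg h x).2, map_zero, zero_mul, sub_zero]

theorem conj_mk (x y : M) : conj h (algebraMap M L x + algebraMap M L y * θ) =
    algebraMap M L x - algebraMap M L y * θ := by
  have h1 := c_eq h (z := algebraMap M L x + algebraMap M L y * θ) rfl
  show algebraMap M L (cx h _) - algebraMap M L (cy h _) * θ = _
  rw [h1.1, h1.2]

end basic

section int

variable {M : Type} [Field M] [NumberField M] {L : Type} [CommRing L] [Algebra M L]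
  [Algebra (𝓞 M) L] [IsScalarTower (𝓞 M) M L] {α : M} {θ : L} (h : Quad M L α θ)

theorem int_self {x : M} (hx : IsIntegral (𝓞 M) x) : ∃ p : 𝓞 M, (algebraMap (𝓞 M) M p) = x :=
  IsIntegrallyClosed.isIntegral_iff.1 hx

include h

theorem int_M {x : M} (hx : IsIntegral (𝓞 M) (algebraMap M L x)) : ∃ p : 𝓞 M, (algebraMap (𝓞 M) M p) = x :=
  int_self ((isIntegral_algebraMap_iff (injM h)).1 hx)

theorem of_int {x y : M} (hz : IsIntegral (𝓞 M) (algebraMap M L x + algebraMap M L y * θ)) :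
    (∃ p : 𝓞 M, (algebraMap (𝓞 M) M p) = 2 * x) ∧ ∃ q : 𝓞 M, (algebraMap (𝓞 M) M q) = x ^ 2 - α * y ^ 2 := by
  have hc := hz.map ((conj h).restrictScalars (𝓞 M))
  rw [AlgHom.restrictScalars_apply, conj_mk] at hc
  constructor
  · apply int_M h
    have h1 := hz.add hc
    have e : algebraMap M L x + algebraMap M L y * θ + (algebraMap M L x - algebraMap M L y * θ) =
        algebraMap M L (2 * x) := by
      rw [map_mul, map_ofNat]
      ring
    rwa [e] at h1
  · apply int_M h
    have h1 := hz.mul hc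
    have e : (algebraMap M L x + algebraMap M L y * θ) * (algebraMap M L x - algebraMap M L y * θ) =
        algebraMap M L (x ^ 2 - α * y ^ 2) := by
      rw [map_sub, map_pow, map_mul, map_pow]
      linear_combination (-(algebraMap M L y) ^ 2) * h.sq
    rwa [e] at h1

theorem int_of {x y : M} (h1 : ∃ p : 𝓞 M, (algebraMap (𝓞 M) M p) = 2 * x)
    (h2 : ∃ q : 𝓞 M, (algebraMap (𝓞 M) M q) = x ^ 2 - α * y ^ 2) :
    IsIntegral (𝓞 M) (algebraMap M L x + algebraMap M L y * θ) := by
  obtain ⟨p, hp⟩ := h1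
  obtain ⟨q, hq⟩ := h2
  refine ⟨Polynomial.X ^ 2 + (Polynomial.C (-p) * Polynomial.X + Polynomial.C q),
    Polynomial.monic_X_pow_add Polynomial.degree_linear_lt, ?_⟩
  have e1 : algebraMap (𝓞 M) L p = algebraMap M L (2 * x) := by
    rw [IsScalarTower.algebraMap_apply (𝓞 M) M L]
    exact congrArg _ hp
  have e2 : algebraMap (𝓞 M) L q = algebraMap M L (x ^ 2 - α * y ^ 2) := by
    rw [IsScalarTower.algebraMap_apply (𝓞 M) M L]
    exact congrArg _ hq
  simp only [Polynomial.eval₂_add, Polynomial.eval₂_pow, Polynomial.eval₂_X, Polynomial.eval₂_mul,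
    Polynomial.eval₂_C, map_neg, Polynomial.eval₂_neg, e1, e2, map_sub, map_mul, map_pow, map_ofNat]
  linear_combination (algebraMap M L y) ^ 2 * h.sq

end int

section hom

variable {M : Type} [Field M] [NumberField M] {𝔪 : Ideal (𝓞 M)} {α u : M}
  {s m t : 𝓞 M} {L L' B B' : Type} [CommRing L] [CommRing L'] [Algebra M L] [Algebra M L']
  [CommRing B] [CommRing B'] [Algebra (𝓞 M) B] [Algebra (𝓞 M) B'] [Algebra B L] [Algebra B' L']
  [Algebra (𝓞 M) L] [Algebra (𝓞 M) L'] [IsScalarTower (𝓞 M) M L] [IsScalarTower (𝓞 M) M L']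
  [IsScalarTower (𝓞 M) B L] [IsScalarTower (𝓞 M) B' L'] [IsIntegralClosure B (𝓞 M) L]
  [IsIntegralClosure B' (𝓞 M) L'] {θ : L} {θ' : L'}

/-- `z ↦ s φ(z)` maps integral elements to integral elements -/
theorem exists_lift (hsu : (algebraMap (𝓞 M) M s) * (u - 1) = 4 * (algebraMap (𝓞 M) M m)) (h : Quad M L α θ)
    (h' : Quad M L' (α * u) θ') (z : B) : ∃ z' : B', algebraMap B' L' z' =
      algebraMap M L' ((algebraMap (𝓞 M) M s) * cx h (algebraMap B L z)) +
        algebraMap M L' ((algebraMap (𝓞 M) M s) * cy h (algebraMap B L z)) * θ' := by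
  rw [← IsIntegralClosure.isIntegral_iff (R := 𝓞 M) (A := B') (B := L')]
  have h1 : IsIntegral (𝓞 M) (algebraMap B L z) :=
    (IsIntegralClosure.isIntegral_iff (A := B)).2 ⟨z, rfl⟩
  rw [eq_c h (algebraMap B L z)] at h1
  obtain ⟨⟨p, hp⟩, q, hq⟩ := of_int h h1
  set x := cx h (algebraMap B L z) with hx
  set y := cy h (algebraMap B L z) with hy
  refine int_of h' ⟨s * p, ?_⟩ ⟨s ^ 2 * q - s * m * (p ^ 2 - 4 * q), ?_⟩
  · rw [map_mul, hp]
    ring
  · simp only [map_mul, map_sub, map_pow, map_ofNat]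
    rw [hp, hq]
    linear_combination (α * y ^ 2 * (algebraMap (𝓞 M) M s)) * hsu

theorem mk_zero {c : 𝓞 M} (hc : c ∈ 𝔪) (b : B') :
    Ideal.Quotient.mk (𝔪.map (algebraMap (𝓞 M) B')) (algebraMap (𝓞 M) B' c * b) = 0 := by
  rw [Ideal.Quotient.eq_zero_iff_mem]
  exact Ideal.mul_mem_right _ _ (Ideal.mem_map_of_mem _ hc)

theorem exists_hom (hsu : (algebraMap (𝓞 M) M s) * (u - 1) = 4 * (algebraMap (𝓞 M) M m)) (hm : m ∈ 𝔪) (ht : t * s - 1 ∈ 𝔪)
    (h : Quad M L α θ) (h' : Quad M L' (α * u) θ') :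
    ∃ Φ : B →ₐ[𝓞 M] (B' ⧸ 𝔪.map (algebraMap (𝓞 M) B')),
      ∀ (z : B) (x y : M) (z' : B'), algebraMap B L z = algebraMap M L x + algebraMap M L y * θ →
        algebraMap B' L' z' = algebraMap M L' ((algebraMap (𝓞 M) M s) * x) + algebraMap M L' ((algebraMap (𝓞 M) M s) * y) * θ' →
          Φ z = Ideal.Quotient.mk _ (algebraMap (𝓞 M) B' t * z') := by
  choose f hf using exists_lift (B := B) (B' := B') hsu h h'
  have hinj : Function.Injective (algebraMap B' L') :=
    IsIntegralClosure.algebraMap_injective B' (𝓞 M) L'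
  have hA : ∀ a : 𝓞 M, algebraMap B L (algebraMap (𝓞 M) B a) = algebraMap M L (algebraMap (𝓞 M) M a) := by
    intro a
    rw [← IsScalarTower.algebraMap_apply (𝓞 M) B L, IsScalarTower.algebraMap_apply (𝓞 M) M L]
  have hA' : ∀ a : 𝓞 M, algebraMap B' L' (algebraMap (𝓞 M) B' a) = algebraMap M L' (algebraMap (𝓞 M) M a) := by
    intro a
    rw [← IsScalarTower.algebraMap_apply (𝓞 M) B' L', IsScalarTower.algebraMap_apply (𝓞 M) M L']
  have f_add : ∀ z w, f (z + w) = f z + f w := by
    intro z w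
    apply hinj
    rw [map_add, hf, hf, hf, map_add, (c_add h _ _).1, (c_add h _ _).2, mul_add, mul_add, map_add,
      map_add]
    ring
  have f_alg : ∀ a : 𝓞 M, f (algebraMap (𝓞 M) B a) = algebraMap (𝓞 M) B' (s * a) := by
    intro a
    apply hinj
    rw [hf, hA, (c_alg h _).1, (c_alg h _).2, hA', mul_zero, map_zero, zero_mul, add_zero,
      map_mul (algebraMap (𝓞 M) M)]
  have f_mul : ∀ z w, ∃ e : 𝓞 M, f z * f w = algebraMap (𝓞 M) B' s * f (z * w) +
      algebraMap (𝓞 M) B' (m * (s * e)) := by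
    intro z w
    have h1 : IsIntegral (𝓞 M) (algebraMap B L z) :=
      (IsIntegralClosure.isIntegral_iff (A := B)).2 ⟨z, rfl⟩
    have h2 : IsIntegral (𝓞 M) (algebraMap B L w) :=
      (IsIntegralClosure.isIntegral_iff (A := B)).2 ⟨w, rfl⟩
    rw [eq_c h (algebraMap B L z)] at h1
    rw [eq_c h (algebraMap B L w)] at h2
    obtain ⟨⟨p, hp⟩, q, hq⟩ := of_int h h1
    obtain ⟨⟨p1, hp1⟩, q1, hq1⟩ := of_int h h2
    have hzw := c_mul h (algebraMap B L z) (algebraMap B L w)
    set x := cx h (algebraMap B L z) with hx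
    set y := cy h (algebraMap B L z) with hy
    set x1 := cx h (algebraMap B L w) with hx1
    set y1 := cy h (algebraMap B L w) with hy1
    have h3 : IsIntegral (𝓞 M) (4 * α * y * y1) := by
      have h4 : IsIntegral (𝓞 M) ((4 * α * y * y1) ^ 2) := by
        have e1 : (4 * α * y * y1) ^ 2 =
            algebraMap (𝓞 M) M ((p ^ 2 - 4 * q) * (p1 ^ 2 - 4 * q1)) := by
          simp only [map_mul, map_sub, map_pow, map_ofNat]
          rw [hp, hq, hp1, hq1]
          ring
        rw [e1]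
        exact isIntegral_algebraMap
      exact IsIntegral.of_pow two_pos h4
    obtain ⟨e, he⟩ := int_self h3
    refine ⟨e, ?_⟩
    apply hinj
    have e0 : algebraMap B L (z * w) = algebraMap B L z * algebraMap B L w := map_mul _ _ _
    rw [map_mul (algebraMap B' L') (f z) (f w), map_add, map_mul (algebraMap B' L') _ (f (z * w)),
      hf, hf, hf, e0, hzw.1, hzw.2, hA', hA', ← hx, ← hy, ← hx1, ← hy1]
    simp only [map_mul (algebraMap (𝓞 M) M)]
    rw [he]
    have e2 := congrArg (algebraMap M L') hsu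
    have e3 := h'.sq
    simp only [map_mul, map_sub, map_one, map_ofNat, map_add] at e2 e3 ⊢
    linear_combination (algebraMap M L' (algebraMap (𝓞 M) M s)) ^ 2 * algebraMap M L' y * algebraMap M L' y1 * e3 +
      algebraMap M L' (algebraMap (𝓞 M) M s) * algebraMap M L' α * algebraMap M L' y * algebraMap M L' y1 * e2
  have key : ∀ a : 𝓞 M, Ideal.Quotient.mk (𝔪.map (algebraMap (𝓞 M) B'))
      (algebraMap (𝓞 M) B' t * algebraMap (𝓞 M) B' (s * a)) =
      Ideal.Quotient.mk (𝔪.map (algebraMap (𝓞 M) B')) (algebraMap (𝓞 M) B' a) := by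
    intro a
    rw [← sub_eq_zero, ← map_sub]
    have e : algebraMap (𝓞 M) B' t * algebraMap (𝓞 M) B' (s * a) - algebraMap (𝓞 M) B' a =
        algebraMap (𝓞 M) B' (t * s - 1) * algebraMap (𝓞 M) B' a := by
      rw [map_mul, map_sub, map_mul, map_one]
      ring
    rw [e]
    exact mk_zero ht _
  let Φ : B →ₐ[𝓞 M] (B' ⧸ 𝔪.map (algebraMap (𝓞 M) B')) :=
    { toFun := fun z => Ideal.Quotient.mk _ (algebraMap (𝓞 M) B' t * f z)
      map_one' := by
        have h1 := f_alg 1
        rw [map_one] at h1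
        rw [h1, key, map_one, map_one]
      map_mul' := fun z w => by
        obtain ⟨e, he⟩ := f_mul z w
        rw [← map_mul]
        rw [eq_comm, ← sub_eq_zero, ← map_sub]
        have e1 : algebraMap (𝓞 M) B' t * f z * (algebraMap (𝓞 M) B' t * f w) -
            algebraMap (𝓞 M) B' t * f (z * w) =
            algebraMap (𝓞 M) B' (t * s - 1) * (algebraMap (𝓞 M) B' t * f (z * w)) +
            algebraMap (𝓞 M) B' m * algebraMap (𝓞 M) B' (t ^ 2 * (s * e)) := by
          have e2 : algebraMap (𝓞 M) B' t * f z * (algebraMap (𝓞 M) B' t * f w) =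
              (algebraMap (𝓞 M) B' t) ^ 2 * (f z * f w) := by ring
          rw [e2, he]
          simp only [map_mul, map_sub, map_one, map_pow]
          ring
        rw [e1, map_add, mk_zero ht, mk_zero hm, add_zero]
      map_zero' := by
        have h1 := f_alg 0
        rw [map_zero] at h1
        rw [h1, key, map_zero, map_zero]
      map_add' := fun z w => by
        rw [f_add, mul_add, map_add]
      commutes' := fun a => by
        rw [f_alg, key]
        rfl }
  refine ⟨Φ, fun z x y z' hz hz' => ?_⟩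
  show Ideal.Quotient.mk _ (algebraMap (𝓞 M) B' t * f z) = _
  congr 2
  apply hinj
  rw [hf, hz', (c_eq h hz).1, (c_eq h hz).2]

/-- the induced homomorphism of the quotients -/
theorem exists_quot (hsu : (algebraMap (𝓞 M) M s) * (u - 1) = 4 * (algebraMap (𝓞 M) M m)) (hm : m ∈ 𝔪) (ht : t * s - 1 ∈ 𝔪)
    (h : Quad M L α θ) (h' : Quad M L' (α * u) θ') :
    ∃ Φ : (B ⧸ 𝔪.map (algebraMap (𝓞 M) B)) →ₐ[𝓞 M] (B' ⧸ 𝔪.map (algebraMap (𝓞 M) B')),
      ∀ (z : B) (x y : M) (z' : B'), algebraMap B L z = algebraMap M L x + algebraMap M L y * θ →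
        algebraMap B' L' z' = algebraMap M L' ((algebraMap (𝓞 M) M s) * x) + algebraMap M L' ((algebraMap (𝓞 M) M s) * y) * θ' →
          Φ (Ideal.Quotient.mk _ z) = Ideal.Quotient.mk _ (algebraMap (𝓞 M) B' t * z') := by
  obtain ⟨Φ, hΦ⟩ := exists_hom (B := B) (B' := B') hsu hm ht h h'
  have hk : ∀ a : B, a ∈ 𝔪.map (algebraMap (𝓞 M) B) → Φ a = 0 := by
    have h1 : 𝔪.map (algebraMap (𝓞 M) B) ≤ RingHom.ker Φ.toRingHom := by
      rw [Ideal.map_le_iff_le_comap]
      intro c hc
      rw [Ideal.mem_comap, RingHom.mem_ker]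
      show Φ (algebraMap (𝓞 M) B c) = 0
      rw [Φ.commutes]
      have h2 := mk_zero (B' := B') hc 1
      rw [mul_one] at h2
      exact h2
    intro a ha
    exact h1 ha
  exact ⟨Ideal.Quotient.liftₐ _ Φ hk, fun z x y z' hz hz' => hΦ z x y z' hz hz'⟩

/-- the composition of the two homomorphisms -/
theorem comp_id {s' m' : 𝓞 M} {u' α' : M} (hsu : (algebraMap (𝓞 M) M s) * (u - 1) = 4 * (algebraMap (𝓞 M) M m))
    (hsu' : (algebraMap (𝓞 M) M s') * (u' - 1) = 4 * (algebraMap (𝓞 M) M m')) (hα' : α' = α * u) (hu' : α = α' * u')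
    (ht : t * s - 1 ∈ 𝔪) (ht' : t * s' - 1 ∈ 𝔪)
    (h : Quad M L α θ) (h' : Quad M L' α' θ')
    (Φ : (B ⧸ 𝔪.map (algebraMap (𝓞 M) B)) →ₐ[𝓞 M] (B' ⧸ 𝔪.map (algebraMap (𝓞 M) B')))
    (Ψ : (B' ⧸ 𝔪.map (algebraMap (𝓞 M) B')) →ₐ[𝓞 M] (B ⧸ 𝔪.map (algebraMap (𝓞 M) B)))
    (hΦ : ∀ (z : B) (x y : M) (z' : B'),
      algebraMap B L z = algebraMap M L x + algebraMap M L y * θ →
        algebraMap B' L' z' = algebraMap M L' ((algebraMap (𝓞 M) M s) * x) + algebraMap M L' ((algebraMap (𝓞 M) M s) * y) * θ' →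
          Φ (Ideal.Quotient.mk _ z) = Ideal.Quotient.mk _ (algebraMap (𝓞 M) B' t * z'))
    (hΨ : ∀ (z : B') (x y : M) (z' : B),
      algebraMap B' L' z = algebraMap M L' x + algebraMap M L' y * θ' →
        algebraMap B L z' = algebraMap M L ((algebraMap (𝓞 M) M s') * x) + algebraMap M L ((algebraMap (𝓞 M) M s') * y) * θ →
          Ψ (Ideal.Quotient.mk _ z) = Ideal.Quotient.mk _ (algebraMap (𝓞 M) B t * z')) :
    Ψ.comp Φ = AlgHom.id (𝓞 M) _ := by
  apply AlgHom.ext
  intro w
  obtain ⟨z, rfl⟩ := Ideal.Quotient.mk_surjective w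
  rw [AlgHom.comp_apply, AlgHom.id_apply]
  subst hα'
  obtain ⟨z1, hz1⟩ := exists_lift (B := B) (B' := B') hsu h h' z
  have hz := eq_c h (algebraMap B L z)
  rw [hΦ z _ _ z1 hz hz1]
  set x := cx h (algebraMap B L z) with hx
  set y := cy h (algebraMap B L z) with hy
  have hA : ∀ a : 𝓞 M, algebraMap B L (algebraMap (𝓞 M) B a) = algebraMap M L (algebraMap (𝓞 M) M a) := by
    intro a
    rw [← IsScalarTower.algebraMap_apply (𝓞 M) B L, IsScalarTower.algebraMap_apply (𝓞 M) M L]
  have hA' : ∀ a : 𝓞 M, algebraMap B' L' (algebraMap (𝓞 M) B' a) = algebraMap M L' (algebraMap (𝓞 M) M a) := by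
    intro a
    rw [← IsScalarTower.algebraMap_apply (𝓞 M) B' L', IsScalarTower.algebraMap_apply (𝓞 M) M L']
  have hz2 : algebraMap B' L' (algebraMap (𝓞 M) B' t * z1) =
      algebraMap M L' ((algebraMap (𝓞 M) M t) * ((algebraMap (𝓞 M) M s) * x)) + algebraMap M L' ((algebraMap (𝓞 M) M t) * ((algebraMap (𝓞 M) M s) * y)) * θ' := by
    rw [map_mul, hA', hz1, map_mul (algebraMap M L') (algebraMap (𝓞 M) M t) ((algebraMap (𝓞 M) M s) * x),
      map_mul (algebraMap M L') (algebraMap (𝓞 M) M t) ((algebraMap (𝓞 M) M s) * y)]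
    ring
  have hz3 : algebraMap B L (algebraMap (𝓞 M) B (s' * (t * s)) * z) =
      algebraMap M L ((algebraMap (𝓞 M) M s') * ((algebraMap (𝓞 M) M t) * ((algebraMap (𝓞 M) M s) * x))) +
        algebraMap M L ((algebraMap (𝓞 M) M s') * ((algebraMap (𝓞 M) M t) * ((algebraMap (𝓞 M) M s) * y))) * θ := by
    rw [map_mul, hA, hz]
    simp only [map_mul]
    ring
  rw [hΨ _ _ _ _ hz2 hz3, ← sub_eq_zero, ← map_sub]
  have e : algebraMap (𝓞 M) B t * (algebraMap (𝓞 M) B (s' * (t * s)) * z) - z =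
      algebraMap (𝓞 M) B (t * s - 1) * (algebraMap (𝓞 M) B (t * s') * z) +
        algebraMap (𝓞 M) B (t * s' - 1) * z := by
    simp only [map_mul, map_sub, map_one]
    ring
  rw [e, map_add, mk_zero ht, mk_zero ht', add_zero]

end hom

theorem t_TYG : S_TYG := by
  intro M _ _ 𝔪 α u s m t L L' B B' _ _ _ _ _ _ _ _ _ _ _ _ _ _ _ _ _ _ θ θ' hα hu hs hsu hm ht
    h h'
  have hsu : algebraMap (𝓞 M) M s * (u - 1) = 4 * algebraMap (𝓞 M) M m := hsu
  have hsu' : algebraMap (𝓞 M) M (s + 4 * m) * (u⁻¹ - 1) = 4 * algebraMap (𝓞 M) M (-m) := by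
    have e : algebraMap (𝓞 M) M (s + 4 * m) = algebraMap (𝓞 M) M s * u := by
      rw [map_add, map_mul, map_ofNat]
      linear_combination (-1 : M) * hsu
    rw [e, map_neg, mul_sub, mul_assoc, mul_inv_cancel₀ hu]
    linear_combination (-1 : M) * hsu
  have hm' : -m ∈ 𝔪 := 𝔪.neg_mem hm
  have ht' : t * (s + 4 * m) - 1 ∈ 𝔪 := by
    have e : t * (s + 4 * m) - 1 = (t * s - 1) + (t * 4) * m := by ring
    rw [e]
    exact 𝔪.add_mem ht (𝔪.mul_mem_left _ hm)
  have hα' : α = α * u * u⁻¹ := by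
    rw [mul_assoc, mul_inv_cancel₀ hu, mul_one]
  have h1 : Quad M L (α * u * u⁻¹) θ := by
    rw [← hα']
    exact h
  obtain ⟨Φ, hΦ⟩ := exists_quot (B := B) (B' := B') hsu hm ht h h'
  obtain ⟨Ψ, hΨ⟩ := exists_quot (B := B') (B' := B) hsu' hm' ht' h' h1
  exact ⟨AlgEquiv.ofAlgHom Φ Ψ
    (comp_id hsu' hsu (by rw [← hα']) rfl ht' ht h' h Ψ Φ hΨ hΦ)
    (comp_id hsu hsu' rfl hα' ht ht' h h' Φ Ψ hΦ hΨ)⟩

end Pool.Agent.H419.LT.TYG
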