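import Pool.Agent.H419.LT.Fin2
import Pool.Agent.H419.LT.TYG
import Pool.Agent.H419.LT.CONE
import Pool.Agent.H419.LT.LIMP
import Pool.Agent.H419.LT.POSP
import Pool.Agent.H419.LT.MAINP

/-! # The counts up to isomorphism, with prescribed `𝓞_L / 𝔪 𝓞_L` -/

set_option autoImplicit false
set_option linter.unusedSectionVars false

open NumberField Filter Topology
open Pool.Agent.TH444.ML

namespace Pool.Agent.H419.LT

theorem card_quot_congr {K Ω : Type} [Field K] [Field Ω] [Algebra K Ω]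
    {A B : Set (IntermediateField K Ω)} (h : A = B) :
    Nat.card (Quot (fun L L' : A => Nonempty (L.1 ≃ₐ[K] L'.1))) =
      Nat.card (Quot (fun L L' : B => Nonempty (L.1 ≃ₐ[K] L'.1))) := by
  subst h; rfl

theorem core (K : Type) [Field K] [NumberField K] (H : Type) [Group H] [Finite H]
    (U : Subgroup H) (hU : U.normalCore = ⊥) (h2 : 2 ≤ Nat.card H)
    (hc : 8 * U.index * (U.index + 1) ≤ Nat.card H) {n : ℕ} (G : Subgroup (Equiv.Perm (Fin n)))
    (hG : IsC2Wr H G) (𝔪 : Ideal (𝓞 K)) (h𝔪 : 𝔪 ≠ ⊥) (R : Type) [CommRing R] [Algebra (𝓞 K) R] :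
    ∃ c : ℝ, 0 ≤ c ∧
      Tendsto (fun X : ℝ =>
        (Nat.card (Quot (fun L L' : {L : IntermediateField K (AlgebraicClosure K) |
          L ∈ Cnt K G X ∧ Ty K L 𝔪 R} => Nonempty (L.1 ≃ₐ[K] L'.1))) : ℝ) / X) atTop (𝓝 c) ∧
      (0 < c ↔ ∃ X : ℝ, ∃ L ∈ Cnt K G X, Ty K L 𝔪 R) ∧
      (0 < c ↔ ∃ M ∈ Gal K (AlgebraicClosure K) H,
        (∃ L : IntermediateField K (AlgebraicClosure K), M ≤ L ∧
          Module.finrank K L = 2 * Module.finrank K M ∧ Ty K L 𝔪 R) ∨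
        Nonempty (((𝓞 M ⧸ 𝔪.map (algebraMap (𝓞 K) (𝓞 M))) ×
          (𝓞 M ⧸ 𝔪.map (algebraMap (𝓞 K) (𝓞 M)))) ≃ₐ[𝓞 K] R)) := by
  have hd : 0 < ((|discr K| : ℤ) : ℝ) ^ n := by
    have : (0 : ℤ) < |discr K| := abs_pos.2 (discr_ne_zero K)
    have : (0 : ℝ) < ((|discr K| : ℤ) : ℝ) := by exact_mod_cast this
    positivity
  have hpos : (0 : ℝ) < Nat.card H := by exact_mod_cast (by omega : 0 < Nat.card H)
  have hsum := rest.fewGal K (AlgebraicClosure K) H U hU hc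
  obtain ⟨hfin, c, hc0, hlim, hiff⟩ := asymp_ty TYG.t_TYG LIMP.t_LIMP (POSP.t_POSP CONE.t_CONE)
    MAINP.t_MAINP K (AlgebraicClosure K) H h2 hsum 𝔪 h𝔪 R _ hd
  have hset : ∀ X : ℝ, {L : IntermediateField K (AlgebraicClosure K) |
      L ∈ Cnt K G X ∧ Ty K L 𝔪 R} = {L : IntermediateField K (AlgebraicClosure K) |
      L ∈ TT K (AlgebraicClosure K) H (X * ((|discr K| : ℤ) : ℝ) ^ n) ∧ Ty K L 𝔪 R} := by
    intro X
    rw [cnt_eq K hG]
  have hlim' : Tendsto (fun X : ℝ =>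
        (Nat.card (Quot (fun L L' : {L : IntermediateField K (AlgebraicClosure K) |
          L ∈ Cnt K G X ∧ Ty K L 𝔪 R} => Nonempty (L.1 ≃ₐ[K] L'.1))) : ℝ) / X) atTop
        (𝓝 (c / Nat.card H)) := by
    refine (hlim.div_const (Nat.card H : ℝ)).congr' ?_
    filter_upwards [eventually_gt_atTop (0 : ℝ)] with X hX
    rw [card_quot_congr (hset X), ← quot_ty TYG.t_TYG LIMP.t_LIMP (POSP.t_POSP CONE.t_CONE) MAINP.t_MAINP
      (K := K) (Ω := AlgebraicClosure K) (H := H) 𝔪 R _ (hfin X hX)]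
    push_cast
    field_simp
  have hiff' : 0 < c / Nat.card H ↔ 0 < c := by
    constructor
    · intro h
      by_contra hcon
      have : c = 0 := le_antisymm (not_lt.1 hcon) hc0
      rw [this, zero_div] at h
      exact lt_irrefl _ h
    · intro h
      positivity
  refine ⟨c / Nat.card H, by positivity, hlim', ?_, ?_⟩
  · constructor
    · intro h
      have h1 := hlim.eventually (lt_mem_nhds (hiff'.1 h))
      obtain ⟨X, hX⟩ := h1.exists
      have hne : {L : IntermediateField K (AlgebraicClosure K) |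
          L ∈ TT K (AlgebraicClosure K) H (X * ((|discr K| : ℤ) : ℝ) ^ n) ∧
            Ty K L 𝔪 R}.Nonempty := by
        by_contra hcon
        rw [Set.not_nonempty_iff_eq_empty] at hcon
        rw [hcon, Set.ncard_empty, Nat.cast_zero, zero_div] at hX
        exact lt_irrefl _ hX
      rw [← hset X] at hne
      obtain ⟨L, h3, h4⟩ := hne
      exact ⟨X, L, h3, h4⟩
    · rintro ⟨X, L, hL, hT⟩
      rw [hiff', hiff]
      rw [cnt_eq K hG] at hL
      obtain ⟨M, hM⟩ := (Pool.Agent.TH365.J3099.wrIff K (AlgebraicClosure K) H L).1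
        ⟨hL.1, hL.2.1⟩
      exact ⟨M, hM.1, Or.inl ⟨L, hM.2.1, hM.2.2.2.1, hT⟩⟩
  · rw [hiff', hiff]
    constructor
    · rintro ⟨M, hM, h | ⟨⟨g⟩⟩⟩
      · exact ⟨M, hM, Or.inl h⟩
      · obtain ⟨f⟩ := prod_quot (𝓞 K) (𝓞 M) 𝔪
        exact ⟨M, hM, Or.inr ⟨f.symm.trans g⟩⟩
    · rintro ⟨M, hM, h | ⟨⟨g⟩⟩⟩
      · exact ⟨M, hM, Or.inl h⟩
      · obtain ⟨f⟩ := prod_quot (𝓞 K) (𝓞 M) 𝔪
        exact ⟨M, hM, Or.inr ⟨f.trans g⟩⟩

end Pool.Agent.H419.LT
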