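import Pool.Agent.H419.LT.Glue4
import Pool.Graph.R_seed8.TH444.ML.Done

/-! # Assembly -/

set_option autoImplicit false
set_option linter.unusedSectionVars false

open NumberField Filter Topology
open Pool.Agent.TH444.ML

namespace Pool.Agent.H419.LT

section transfer

variable {K Ω : Type} [Field K] [NumberField K] [Field Ω] [Algebra K Ω] [IsAlgClosed Ω]

theorem ncard_AS_ty (M : IntermediateField K Ω) [FiniteDimensional K M] [NumberField M]
    (𝔪 : Ideal (𝓞 K)) (R : Type) [CommRing R] [Algebra (𝓞 K) R] (Y : ℝ) :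
    Set.ncard {L : IntermediateField K Ω | L ∈ AS M Y ∧ Ty K L 𝔪 R} =
      Set.ncard {L : IntermediateField M Ω | L ∈ QS M Ω Y ∧ Ty K L 𝔪 R} := by
  have himg : (fun L' : IntermediateField M Ω => IntermediateField.restrictScalars K L') ''
      {L : IntermediateField M Ω | L ∈ QS M Ω Y ∧ Ty K L 𝔪 R} =
      {L : IntermediateField K Ω | L ∈ AS M Y ∧ Ty K L 𝔪 R} := by
    ext L
    constructor
    · rintro ⟨L', ⟨hL', hT⟩, rfl⟩
      have hle : M ≤ IntermediateField.restrictScalars K L' := by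
        intro x hx
        exact L'.algebraMap_mem ⟨x, hx⟩
      exact ⟨(extend_mem _ hle).2 hL', hT⟩
    · rintro ⟨hL, hT⟩
      exact ⟨IntermediateField.extendScalars hL.1, ⟨(extend_mem L hL.1).1 hL, hT⟩, rfl⟩
  rw [← himg]
  exact Set.ncard_image_of_injective _ (IntermediateField.restrictScalars_injective K)

end transfer

section main

variable (ty : S_TYG) (lim : S_LIMP) (pos : S_POSP) (mn : S_MAINP)
include ty lim pos mn

theorem asymp_ty (K Ω H : Type) [Field K] [NumberField K] [Field Ω] [Algebra K Ω]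
    [IsAlgClosure K Ω] [Group H] [Finite H] (h2 : 2 ≤ Nat.card H)
    (hsum : Summable (fun M : Gal K Ω H => (dsc M.1) ^ (-(1 / 4) : ℝ)))
    (𝔪 : Ideal (𝓞 K)) (h𝔪 : 𝔪 ≠ ⊥) (R : Type) [CommRing R] [Algebra (𝓞 K) R]
    (D : ℝ) (hD : 0 < D) :
    (∀ X : ℝ, 0 < X → (TT K Ω H (X * D)).Finite) ∧
    ∃ c : ℝ, 0 ≤ c ∧
      Tendsto (fun X : ℝ =>
        (Set.ncard {L : IntermediateField K Ω | L ∈ TT K Ω H (X * D) ∧ Ty K L 𝔪 R} : ℝ) / X)
        atTop (𝓝 c) ∧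
      (0 < c ↔ ∃ M ∈ Gal K Ω H,
        (∃ L : IntermediateField K Ω, M ≤ L ∧ Module.finrank K L = 2 * Module.finrank K M ∧
          Ty K L 𝔪 R) ∨
        Nonempty (((𝓞 M × 𝓞 M) ⧸ 𝔪.map (algebraMap (𝓞 K) (𝓞 M × 𝓞 M))) ≃ₐ[𝓞 K] R)) := by
  have hac : IsAlgClosed Ω := IsAlgClosure.isAlgClosed K
  have hl : ∀ M ∈ Gal K Ω H, ∃ c : ℝ, Tendsto (fun Y : ℝ =>
      (Set.ncard {L : IntermediateField K Ω | L ∈ AS M Y ∧ Ty K L 𝔪 R} : ℝ) / Y) atTop (𝓝 c) := by
    intro M hM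
    have hfd := gal_fd hM
    have hnf : NumberField M := nf_of_fd M
    obtain ⟨c, hc⟩ := lim M Ω (fun L => Ty K L 𝔪 R) (locDet_ty ty 𝔪 h𝔪 R)
    refine ⟨c, hc.congr fun Y => ?_⟩
    rw [ncard_AS_ty]
  obtain ⟨h1, c, hc0, hc1, hc2⟩ := mn K Ω H (fun L => Ty K L 𝔪 R) h2 hsum hl D hD
  refine ⟨h1, c, hc0, hc1, hc2.trans ?_⟩
  constructor
  · rintro ⟨M, hM, hne⟩
    refine ⟨M, hM, Or.inl ?_⟩
    by_contra hcon
    apply hne
    have : ∀ Y : ℝ, {L : IntermediateField K Ω | L ∈ AS M Y ∧ Ty K L 𝔪 R} = ∅ := by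
      intro Y
      rw [Set.eq_empty_iff_forall_notMem]
      rintro L ⟨hL, hT⟩
      exact hcon ⟨L, hL.1, hL.2.1, hT⟩
    simp only [this, Set.ncard_empty, Nat.cast_zero, zero_div]
    exact tendsto_const_nhds
  · rintro ⟨M, hM, h⟩
    refine ⟨M, hM, ?_⟩
    have hfd := gal_fd hM
    have hnf : NumberField M := nf_of_fd M
    have hinj : Function.Injective (algebraMap (𝓞 K) (𝓞 M)) :=
      FaithfulSMul.algebraMap_injective (𝓞 K) (𝓞 M)
    have h0 : 𝔪.map (algebraMap (𝓞 K) (𝓞 M)) ≠ ⊥ := by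
      rwa [Ne, Ideal.map_eq_bot_iff_of_injective hinj]
    have h𝔫 : Ideal.span {(4 : 𝓞 M)} * 𝔪.map (algebraMap (𝓞 K) (𝓞 M)) ≠ ⊥ := by
      refine mul_ne_zero ?_ h0
      rw [Ne, Ideal.zero_eq_bot, Ideal.span_singleton_eq_bot]
      norm_num
    intro hten
    have hten' : Tendsto (fun Y : ℝ =>
        (Set.ncard {L : IntermediateField M Ω | L ∈ QS M Ω Y ∧ Ty K L 𝔪 R} : ℝ) / Y)
        atTop (𝓝 0) := by
      refine hten.congr fun Y => ?_
      rw [ncard_AS_ty]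
    rcases h with ⟨L, hML, hL2, hT⟩ | hR
    · obtain ⟨rep, hrep⟩ := exists_rep M
      have hpos : 0 < Module.finrank K M := Module.finrank_pos
      have hfin : Module.finrank K L = Module.finrank K M *
          Module.finrank M (IntermediateField.extendScalars hML) :=
        (Module.finrank_mul_finrank K M (IntermediateField.extendScalars hML)).symm
      have h2' : Module.finrank M (IntermediateField.extendScalars hML) = 2 := by
        rw [hL2] at hfin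
        exact (Nat.eq_of_mul_eq_mul_left hpos (by rw [← hfin]; ring))
      obtain ⟨C, α₀, σ, hS, hσ, hn, hL⟩ :=
        (Pool.Agent.TH914.J3087.kumP M Ω rep hrep).1 (IntermediateField.extendScalars hML) h2'
      have hT' : Ty K (IntermediateField.extendScalars hML) 𝔪 R := hT
      rw [hL] at hT'
      exact pos M Ω (fun L => Ty K L 𝔪 R) α₀ _ hS.1 h𝔫
        (fun β s hβ hs hns => pos_field ty 𝔪 R hσ hn hT' β s hβ hs hns) hten'
    · exact pos M Ω (fun L => Ty K L 𝔪 R) 1 _ one_ne_zero h𝔫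
        (fun β s hβ hs hns => pos_split ty 𝔪 R hR β s hβ hs hns) hten'

/-- counting up to isomorphism -/
theorem quot_ty {K Ω H : Type} [Field K] [NumberField K] [Field Ω] [Algebra K Ω]
    [IsAlgClosure K Ω] [Group H] [Finite H] (𝔪 : Ideal (𝓞 K)) (R : Type) [CommRing R]
    [Algebra (𝓞 K) R] (Z : ℝ) (hfin : (TT K Ω H Z).Finite) :
    Nat.card (Quot (fun L L' : {L : IntermediateField K Ω | L ∈ TT K Ω H Z ∧ Ty K L 𝔪 R} =>
      Nonempty (L.1 ≃ₐ[K] L'.1))) * Nat.card H =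
      Set.ncard {L : IntermediateField K Ω | L ∈ TT K Ω H Z ∧ Ty K L 𝔪 R} := by
  have : Finite {L : IntermediateField K Ω | L ∈ TT K Ω H Z ∧ Ty K L 𝔪 R} :=
    hfin.subset (fun L h => h.1)
  rw [card_quot (T := {L : IntermediateField K Ω | L ∈ TT K Ω H Z ∧ Ty K L 𝔪 R})
    (fun L L' => Nonempty (L.1 ≃ₐ[K] L'.1)) ?_ (Nat.card H) ?_]
  · rfl
  · exact ⟨fun L => ⟨AlgEquiv.refl⟩, fun ⟨a⟩ => ⟨a.symm⟩, fun ⟨a⟩ ⟨b⟩ => ⟨a.trans b⟩⟩
  · intro L
    rw [← Pool.Agent.TH928.J3106.wrConj K Ω H L.1 L.2.1.1 L.2.1.2.1, ← Nat.card_coe_set_eq]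
    refine Nat.card_congr ⟨fun y => ⟨y.1.1, y.2⟩,
      fun y => ⟨⟨y.1, tt_iso L.2.1 y.2.some, ty_iso y.2.some L.2.2⟩, y.2⟩,
      fun y => rfl, fun y => rfl⟩

end main

end Pool.Agent.H419.LT
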