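import Pool.Agent.H419.LT.Fin

/-! # Products, and the final form -/

set_option autoImplicit false
set_option linter.unusedSectionVars false

open NumberField Filter Topology
open Pool.Agent.TH444.ML

namespace Pool.Agent.H419.LT

theorem prod_quot (A B : Type) [CommRing A] [CommRing B] [Algebra A B] (I : Ideal A) :
    Nonempty (((B × B) ⧸ I.map (algebraMap A (B × B))) ≃ₐ[A]
      ((B ⧸ I.map (algebraMap A B)) × (B ⧸ I.map (algebraMap A B)))) := by
  let f : (B × B) →ₐ[A] ((B ⧸ I.map (algebraMap A B)) × (B ⧸ I.map (algebraMap A B))) :=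
    AlgHom.prod ((Ideal.Quotient.mkₐ A _).comp (AlgHom.fst A B B))
      ((Ideal.Quotient.mkₐ A _).comp (AlgHom.snd A B B))
  have hf : ∀ a b : B, f (a, b) = (Ideal.Quotient.mk _ a, Ideal.Quotient.mk _ b) := fun a b => rfl
  have hsurj : Function.Surjective f := by
    rintro ⟨x, y⟩
    obtain ⟨a, rfl⟩ := Ideal.Quotient.mk_surjective x
    obtain ⟨b, rfl⟩ := Ideal.Quotient.mk_surjective y
    exact ⟨(a, b), hf a b⟩
  have hker : I.map (algebraMap A (B × B)) = RingHom.ker f := by
    apply le_antisymm
    · rw [Ideal.map_le_iff_le_comap]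
      intro x hx
      rw [Ideal.mem_comap, RingHom.mem_ker]
      change (Ideal.Quotient.mk _ (algebraMap A B x), Ideal.Quotient.mk _ (algebraMap A B x)) = 0
      have : (Ideal.Quotient.mk (I.map (algebraMap A B))) (algebraMap A B x) = 0 :=
        Ideal.Quotient.eq_zero_iff_mem.2 (Ideal.mem_map_of_mem _ hx)
      rw [this]
      rfl
    · rintro ⟨a, b⟩ h
      rw [RingHom.mem_ker] at h
      have h1 : (Ideal.Quotient.mk _ a, Ideal.Quotient.mk _ b) =
        ((0, 0) : (B ⧸ I.map (algebraMap A B)) × (B ⧸ I.map (algebraMap A B))) := h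
      rw [Prod.mk.injEq, Ideal.Quotient.eq_zero_iff_mem, Ideal.Quotient.eq_zero_iff_mem] at h1
      have hl : ∀ a ∈ I.map (algebraMap A B), ((a, 0) : B × B) ∈ I.map (algebraMap A (B × B)) := by
        intro a ha
        refine Submodule.span_induction (p := fun a _ => ((a, 0) : B × B) ∈
          I.map (algebraMap A (B × B))) ?_ ?_ ?_ ?_ ha
        · rintro _ ⟨x, hx, rfl⟩
          have h2 : ((algebraMap A B x, 0) : B × B) = (1, 0) * algebraMap A (B × B) x := by
            ext <;> simp
          rw [h2]
          exact Ideal.mul_mem_left _ _ (Ideal.mem_map_of_mem _ hx)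
        · exact Ideal.zero_mem _
        · intro x y _ _ hx hy
          have h2 : ((x + y, 0) : B × B) = (x, 0) + (y, 0) := by ext <;> simp
          rw [h2]
          exact Ideal.add_mem _ hx hy
        · intro r x _ hx
          have h2 : ((r • x, 0) : B × B) = (r, 0) * (x, 0) := by ext <;> simp
          rw [h2]
          exact Ideal.mul_mem_left _ _ hx
      have hr : ∀ a ∈ I.map (algebraMap A B), ((0, a) : B × B) ∈ I.map (algebraMap A (B × B)) := by
        intro a ha
        refine Submodule.span_induction (p := fun a _ => ((0, a) : B × B) ∈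
          I.map (algebraMap A (B × B))) ?_ ?_ ?_ ?_ ha
        · rintro _ ⟨x, hx, rfl⟩
          have h2 : ((0, algebraMap A B x) : B × B) = (0, 1) * algebraMap A (B × B) x := by
            ext <;> simp
          rw [h2]
          exact Ideal.mul_mem_left _ _ (Ideal.mem_map_of_mem _ hx)
        · exact Ideal.zero_mem _
        · intro x y _ _ hx hy
          have h2 : ((0, x + y) : B × B) = (0, x) + (0, y) := by ext <;> simp
          rw [h2]
          exact Ideal.add_mem _ hx hy
        · intro r x _ hx
          have h2 : ((0, r • x) : B × B) = (0, r) * (0, x) := by ext <;> simp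
          rw [h2]
          exact Ideal.mul_mem_left _ _ hx
      have h3 : ((a, b) : B × B) = (a, 0) + (0, b) := by ext <;> simp
      rw [h3]
      exact Ideal.add_mem _ (hl a h1.1) (hr b h1.2)
  exact ⟨(Ideal.quotientEquivAlgOfEq A hker).trans (Ideal.quotientKerAlgEquivOfSurjective hsurj)⟩

end Pool.Agent.H419.LT
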