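import Pool.Agent.H419.LT.Stm

/-! # Types of quadratic extensions -/

set_option autoImplicit false
set_option linter.unusedSectionVars false

open NumberField Filter Topology
open Pool.Agent.TH444.ML

namespace Pool.Agent.H419.LT

section inv

variable {K : Type} [Field K] {L L' : Type} [Field L] [Field L'] [Algebra K L] [Algebra K L']

/-- an isomorphism of the fields gives one of the rings of integers -/
noncomputable def oeq (e : L ≃ₐ[K] L') : 𝓞 L ≃ₐ[𝓞 K] 𝓞 L' :=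
  AlgEquiv.ofRingEquiv (f := NumberField.RingOfIntegers.mapRingEquiv e.toRingEquiv) (by
    intro x
    apply NumberField.RingOfIntegers.ext
    change e (algebraMap K L (x : K)) = algebraMap K L' (x : K)
    simp)

theorem map_eq_of (f : 𝓞 L ≃ₐ[𝓞 K] 𝓞 L') (𝔪 : Ideal (𝓞 K)) :
    𝔪.map (algebraMap (𝓞 K) (𝓞 L')) =
      (𝔪.map (algebraMap (𝓞 K) (𝓞 L))).map (f : 𝓞 L →+* 𝓞 L') := by
  rw [Ideal.map_map]
  congr 1
  ext x : 1
  simp

theorem ty_iso (e : L ≃ₐ[K] L') {𝔪 : Ideal (𝓞 K)} {R : Type} [CommRing R] [Algebra (𝓞 K) R]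
    (h : Ty K L 𝔪 R) : Ty K L' 𝔪 R := by
  obtain ⟨g⟩ := h
  exact ⟨(Ideal.quotientEquivAlg _ _ (oeq e) (map_eq_of (oeq e) 𝔪)).symm.trans g⟩

end inv

section tower

variable {K M : Type} [Field K] [Field M] [Algebra K M]
  {R : Type} [CommRing R] [Algebra (𝓞 K) R]

/-- from algebras over `𝓞 M` to algebras over `𝓞 K` -/
theorem nonempty_restrict (𝔪 : Ideal (𝓞 K)) (B B' : Type) [CommRing B] [CommRing B']
    [Algebra (𝓞 M) B] [Algebra (𝓞 M) B'] [Algebra (𝓞 K) B] [Algebra (𝓞 K) B']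
    [IsScalarTower (𝓞 K) (𝓞 M) B] [IsScalarTower (𝓞 K) (𝓞 M) B']
    (h : Nonempty ((B ⧸ (𝔪.map (algebraMap (𝓞 K) (𝓞 M))).map (algebraMap (𝓞 M) B)) ≃ₐ[𝓞 M]
      (B' ⧸ (𝔪.map (algebraMap (𝓞 K) (𝓞 M))).map (algebraMap (𝓞 M) B')))) :
    Nonempty ((B ⧸ 𝔪.map (algebraMap (𝓞 K) B)) ≃ₐ[𝓞 K] (B' ⧸ 𝔪.map (algebraMap (𝓞 K) B'))) := by
  obtain ⟨g⟩ := h
  have e1 : 𝔪.map (algebraMap (𝓞 K) B) =
      (𝔪.map (algebraMap (𝓞 K) (𝓞 M))).map (algebraMap (𝓞 M) B) := by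
    rw [Ideal.map_map, ← IsScalarTower.algebraMap_eq]
  have e2 : 𝔪.map (algebraMap (𝓞 K) B') =
      (𝔪.map (algebraMap (𝓞 K) (𝓞 M))).map (algebraMap (𝓞 M) B') := by
    rw [Ideal.map_map, ← IsScalarTower.algebraMap_eq]
  rw [e1, e2]
  refine ⟨AlgEquiv.ofRingEquiv (f := g.toRingEquiv) ?_⟩
  intro x
  have h2 : algebraMap (𝓞 K) (B ⧸ (𝔪.map (algebraMap (𝓞 K) (𝓞 M))).map (algebraMap (𝓞 M) B)) x =
      algebraMap (𝓞 M) _ (algebraMap (𝓞 K) (𝓞 M) x) := by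
    change Ideal.Quotient.mk _ (algebraMap (𝓞 K) B x) =
      Ideal.Quotient.mk _ (algebraMap (𝓞 M) B (algebraMap (𝓞 K) (𝓞 M) x))
    rw [← IsScalarTower.algebraMap_apply]
  have h3 : algebraMap (𝓞 K) (B' ⧸ (𝔪.map (algebraMap (𝓞 K) (𝓞 M))).map (algebraMap (𝓞 M) B')) x =
      algebraMap (𝓞 M) _ (algebraMap (𝓞 K) (𝓞 M) x) := by
    change Ideal.Quotient.mk _ (algebraMap (𝓞 K) B' x) =
      Ideal.Quotient.mk _ (algebraMap (𝓞 M) B' (algebraMap (𝓞 K) (𝓞 M) x))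
    rw [← IsScalarTower.algebraMap_apply]
  rw [h2, h3]
  exact g.commutes _

end tower

end Pool.Agent.H419.LT
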