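import Pool.Agent.H419.LT.Glue
import Pool.Graph.R_seed8.TH914.J3087

/-! # Types of quadratic extensions, congruences -/

set_option autoImplicit false
set_option linter.unusedSectionVars false

open NumberField Filter Topology
open Pool.Agent.TH444.ML

namespace Pool.Agent.H419.LT

section quad

variable {M E : Type} [Field M] [NumberField M] [Field E] [Algebra M E] [IsAlgClosed E]

theorem exists_rep (M : Type) [Field M] [NumberField M] :
    ∃ rep : ClassGroup (𝓞 M) → Ideal (𝓞 M), Rep M rep := by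
  choose f hf using (ClassGroup.mk0_surjective (R := 𝓞 M))
  exact ⟨fun C => (f C : Ideal (𝓞 M)), fun C => ⟨(f C).2, hf C⟩⟩

theorem finrank_adj {α : 𝓞 M} {s : E} (hs : s ^ 2 = algebraMap M E (α : M))
    (hns : ∀ x : M, algebraMap M E x ≠ s) :
    Module.finrank M (IntermediateField.adjoin M {s}) = 2 := by
  obtain ⟨rep, hrep⟩ := exists_rep M
  exact (Pool.Agent.TH914.J3087.kumP M E rep hrep).2.2 α s hs hns

theorem quad_adj {α : 𝓞 M} {s : E} (hs : s ^ 2 = algebraMap M E (α : M))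
    (hns : ∀ x : M, algebraMap M E x ≠ s) :
    Quad M (IntermediateField.adjoin M {s}) (α : M)
      ⟨s, IntermediateField.mem_adjoin_simple_self M s⟩ := by
  set θ : IntermediateField.adjoin M {s} := ⟨s, IntermediateField.mem_adjoin_simple_self M s⟩
    with hθ
  have hinj : ∀ x y : M, algebraMap M (IntermediateField.adjoin M {s}) x +
      algebraMap M (IntermediateField.adjoin M {s}) y * θ = 0 → x = 0 ∧ y = 0 := by
    intro x y h
    have h1 : algebraMap M E x + algebraMap M E y * s = 0 := by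
      have := congrArg Subtype.val h
      simpa using this
    by_cases hy : y = 0
    · subst hy
      refine ⟨?_, rfl⟩
      simpa using h1
    · exfalso
      apply hns (-x / y)
      have hy' : algebraMap M E y ≠ 0 := by simpa using hy
      rw [map_div₀, map_neg, div_eq_iff hy']
      linear_combination -h1
  refine ⟨?_, ?_, hinj⟩
  · apply Subtype.ext
    simpa using hs
  · have h2 := finrank_adj hs hns
    have hli : LinearIndependent M ![(1 : IntermediateField.adjoin M {s}), θ] := by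
      rw [LinearIndependent.pair_iff]
      intro x y h
      apply hinj x y
      rw [← h, Algebra.smul_def, Algebra.smul_def, mul_one]
    have hfin : FiniteDimensional M (IntermediateField.adjoin M {s}) :=
      FiniteDimensional.of_finrank_pos (by omega)
    have hsp := hli.span_eq_top_of_card_eq_finrank (by rw [h2]; simp)
    intro z
    have hz : z ∈ Submodule.span M (Set.range ![(1 : IntermediateField.adjoin M {s}), θ]) := by
      rw [hsp]; exact Submodule.mem_top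
    rw [Matrix.range_cons, Matrix.range_cons, Matrix.range_empty, Set.union_empty,
      Set.singleton_union, Submodule.mem_span_pair] at hz
    obtain ⟨a, b, hab⟩ := hz
    refine ⟨a, b, ?_⟩
    rw [← hab, Algebra.smul_def, Algebra.smul_def, mul_one]

end quad

section arith

variable {M : Type} [Field M] [NumberField M]

/-- the congruence argument -/
theorem exists_s_m (𝔪 𝔠 : Ideal (𝓞 M)) (h𝔪 : 𝔪 ≠ ⊥) (h𝔠 : 𝔠 ≠ ⊥) {α α' : 𝓞 M}
    (hα : Sqf M 𝔠 α) (h : α - α' ∈ Ideal.span {(4 : 𝓞 M)} * 𝔪 ^ 2 * 𝔠 ^ 2) :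
    ∃ s m : 𝓞 M, s ≠ 0 ∧ m ∈ 𝔪 ∧ 1 * s - 1 ∈ 𝔪 ∧ s * (α' - α) = 4 * m * α := by
  obtain ⟨hα0, 𝔡, h𝔡, hspan⟩ := hα
  have h𝔡0 : 𝔡 ≠ ⊥ := h𝔡.ne_zero
  obtain ⟨𝔡'', hd⟩ : (𝔡 ⊔ 𝔪) ∣ 𝔡 := Ideal.dvd_iff_le.2 le_sup_left
  have hcop : 𝔡'' ⊔ 𝔪 = ⊤ := by
    by_contra hne
    obtain ⟨P, hP, hle⟩ := Ideal.exists_le_maximal _ hne
    have h1 : P ∣ 𝔡'' := Ideal.dvd_iff_le.2 (le_sup_left.trans hle)
    have h2 : 𝔪 ≤ P := le_sup_right.trans hle
    have h3 : P ∣ 𝔡 := h1.trans (by rw [hd]; exact dvd_mul_left _ _)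
    have h4 : P ∣ 𝔡 ⊔ 𝔪 := Ideal.dvd_iff_le.2 (sup_le (Ideal.dvd_iff_le.1 h3) h2)
    have h5 : P * P ∣ 𝔡 := by
      rw [hd]
      exact mul_dvd_mul h4 h1
    exact hP.ne_top (Ideal.isUnit_iff.1 (h𝔡 P h5))
  have hs : ∃ s ∈ 𝔡'', s ≠ 0 ∧ 1 * s - 1 ∈ 𝔪 := by
    by_cases htop : 𝔪 = ⊤
    · have h0 : 𝔡'' ≠ ⊥ := by
        rintro rfl
        apply h𝔡0
        rw [hd]
        simp
      obtain ⟨s, hs, hs0⟩ := Submodule.exists_mem_ne_zero_of_ne_bot h0
      exact ⟨s, hs, hs0, by rw [htop]; exact Submodule.mem_top⟩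
    · have h1 : (1 : 𝓞 M) ∈ 𝔡'' ⊔ 𝔪 := by rw [hcop]; exact Submodule.mem_top
      obtain ⟨a, ha, b, hb, hab⟩ := Submodule.mem_sup.1 h1
      refine ⟨a, ha, ?_, ?_⟩
      · rintro rfl
        apply htop
        rw [Ideal.eq_top_iff_one]
        rw [zero_add] at hab
        rw [← hab]
        exact hb
      · have : 1 * a - 1 = -b := by linear_combination hab
        rw [this]
        exact 𝔪.neg_mem hb
  obtain ⟨s, hs, hs0, hs1⟩ := hs
  have hmem : s * (α' - α) ∈ Ideal.span {4 * α} * 𝔪 := by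
    have h1 : s * (α' - α) ∈ 𝔡'' * (Ideal.span {(4 : 𝓞 M)} * 𝔪 ^ 2 * 𝔠 ^ 2) := by
      refine Ideal.mul_mem_mul hs ?_
      have : α' - α = -(α - α') := by ring
      rw [this]
      exact neg_mem h
    have h2 : 𝔡'' * (Ideal.span {(4 : 𝓞 M)} * 𝔪 ^ 2 * 𝔠 ^ 2) ≤ Ideal.span {4 * α} * 𝔪 := by
      rw [← Ideal.span_singleton_mul_span_singleton, hspan]
      calc 𝔡'' * (Ideal.span {(4 : 𝓞 M)} * 𝔪 ^ 2 * 𝔠 ^ 2)
          = (𝔡'' * Ideal.span {(4 : 𝓞 M)} * 𝔠 ^ 2 * 𝔪) * 𝔪 := by ring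
        _ ≤ (𝔡'' * Ideal.span {(4 : 𝓞 M)} * 𝔠 ^ 2 * 𝔪) * (𝔡 ⊔ 𝔪) :=
            Ideal.mul_mono_right le_sup_right
        _ = Ideal.span {(4 : 𝓞 M)} * (((𝔡 ⊔ 𝔪) * 𝔡'') * 𝔠 ^ 2) * 𝔪 := by ring
        _ = _ := by rw [← hd]
    exact h2 h1
  obtain ⟨m, hm, hm2⟩ := Ideal.mem_span_singleton_mul.1 hmem
  exact ⟨s, m, hs0, hm, hs1, by rw [← hm2]; ring⟩

end arith

end Pool.Agent.H419.LT
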