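import Pool.Agent.H419.LT.Glue2

/-! # Types of quadratic extensions are determined by congruences -/

set_option autoImplicit false
set_option linter.unusedSectionVars false

open NumberField Filter Topology
open Pool.Agent.TH444.ML

namespace Pool.Agent.H419.LT

section

variable {K M E : Type} [Field K] [Field M] [NumberField M] [Field E] [Algebra K M] [Algebra M E]
  [Algebra K E] [IsScalarTower K M E] [IsAlgClosed E]

/-- comparison of two quadratic extensions -/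
theorem ty_adj (ty : S_TYG) (𝔪 : Ideal (𝓞 K)) (R : Type) [CommRing R] [Algebra (𝓞 K) R]
    {α α' : 𝓞 M} {σ σ' : E} (hσ : σ ^ 2 = algebraMap M E (α : M))
    (hσ' : σ' ^ 2 = algebraMap M E (α' : M)) (hn : ∀ x : M, algebraMap M E x ≠ σ)
    (hn' : ∀ x : M, algebraMap M E x ≠ σ') (s m t : 𝓞 M) (hs : s ≠ 0)
    (hm : m ∈ 𝔪.map (algebraMap (𝓞 K) (𝓞 M))) (ht : t * s - 1 ∈ 𝔪.map (algebraMap (𝓞 K) (𝓞 M)))
    (h : s * (α' - α) = 4 * m * α)
    (hT : Ty K (IntermediateField.adjoin M {σ}) 𝔪 R) :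
    Ty K (IntermediateField.adjoin M {σ'}) 𝔪 R := by
  have hα : (α : M) ≠ 0 := by
    intro h0
    apply hn 0
    rw [map_zero]
    have : σ ^ 2 = 0 := by rw [hσ, h0, map_zero]
    exact (pow_eq_zero_iff (by norm_num)).1 this |>.symm
  have hα' : (α' : M) ≠ 0 := by
    intro h0
    apply hn' 0
    rw [map_zero]
    have : σ' ^ 2 = 0 := by rw [hσ', h0, map_zero]
    exact (pow_eq_zero_iff (by norm_num)).1 this |>.symm
  have hu : (α : M) * ((α' : M) / (α : M)) = (α' : M) := by field_simp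
  have hq := quad_adj hσ hn
  have hq' := quad_adj hσ' hn'
  rw [← hu] at hq'
  have hM : (s : M) * ((α' : M) - α) = 4 * (m : M) * (α : M) := by
    have := congrArg (algebraMap (𝓞 M) M) h
    rw [map_mul, map_mul, map_mul, map_sub, map_ofNat] at this
    exact this
  have key := ty M (𝔪.map (algebraMap (𝓞 K) (𝓞 M))) (α : M) ((α' : M) / (α : M)) s m t
    (IntermediateField.adjoin M {σ}) (IntermediateField.adjoin M {σ'})
    (𝓞 (IntermediateField.adjoin M {σ})) (𝓞 (IntermediateField.adjoin M {σ'}))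
    _ _ hα (div_ne_zero hα' hα) hs (by
      field_simp
      linear_combination hM) hm ht hq hq'
  obtain ⟨g⟩ := nonempty_restrict 𝔪 _ _ key
  obtain ⟨f⟩ := hT
  exact ⟨g.symm.trans f⟩

theorem locDet_ty (ty : S_TYG) [NumberField K] (𝔪 : Ideal (𝓞 K)) (h𝔪 : 𝔪 ≠ ⊥) (R : Type)
    [CommRing R] [Algebra (𝓞 K) R] :
    LocDet M E (fun L => Ty K L 𝔪 R) := by
  intro 𝔠 h𝔠
  have hinj : Function.Injective (algebraMap (𝓞 K) (𝓞 M)) :=
    FaithfulSMul.algebraMap_injective (𝓞 K) (𝓞 M)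
  have h0 : 𝔪.map (algebraMap (𝓞 K) (𝓞 M)) ≠ ⊥ := by
    rwa [Ne, Ideal.map_eq_bot_iff_of_injective hinj]
  refine ⟨Ideal.span {(4 : 𝓞 M)} * (𝔪.map (algebraMap (𝓞 K) (𝓞 M))) ^ 2 * 𝔠 ^ 2, ?_, ?_⟩
  · refine mul_ne_zero (mul_ne_zero ?_ (pow_ne_zero 2 h0)) (pow_ne_zero 2 h𝔠)
    rw [Ne, Ideal.zero_eq_bot, Ideal.span_singleton_eq_bot]
    norm_num
  · intro α α' σ σ' hS _ hd hσ hσ' hn hn' hT
    obtain ⟨s, m, hs, hm, ht, h⟩ := exists_s_m _ 𝔠 h0 h𝔠 hS hd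
    exact ty_adj ty 𝔪 R hσ hσ' hn hn' s m 1 hs hm ht h hT

/-- the hypothesis of POSP, from a field -/
theorem pos_field (ty : S_TYG) (𝔪 : Ideal (𝓞 K)) (R : Type) [CommRing R] [Algebra (𝓞 K) R]
    {α₀ : 𝓞 M} {σ : E} (hσ : σ ^ 2 = algebraMap M E (α₀ : M)) (hn : ∀ x : M, algebraMap M E x ≠ σ)
    (hT : Ty K (IntermediateField.adjoin M {σ}) 𝔪 R) (β : 𝓞 M) (s : E)
    (hβ : β - 1 ∈ Ideal.span {(4 : 𝓞 M)} * 𝔪.map (algebraMap (𝓞 K) (𝓞 M)))
    (hs : s ^ 2 = algebraMap M E ((α₀ * β : 𝓞 M) : M)) (hns : ∀ x : M, algebraMap M E x ≠ s) :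
    Ty K (IntermediateField.adjoin M {s}) 𝔪 R := by
  obtain ⟨m, hm, h4⟩ := Ideal.mem_span_singleton_mul.1 hβ
  exact ty_adj ty 𝔪 R hσ hs hn hns 1 m 1 one_ne_zero hm (by simp) (by
    linear_combination (-α₀) * h4) hT

end

end Pool.Agent.H419.LT
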