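import Pool.Agent.H419.LT.Glue3

/-! # The split quadratic algebra -/

set_option autoImplicit false
set_option linter.unusedSectionVars false

open NumberField Filter Topology Polynomial
open Pool.Agent.TH444.ML

namespace Pool.Agent.H419.LT

section split

variable (M : Type) [Field M] [NumberField M]

/-- the algebra structure of `M × M` over `𝓞 M × 𝓞 M` -/
@[reducible] noncomputable def algProd : Algebra (𝓞 M × 𝓞 M) (M × M) :=
  (RingHom.prodMap (algebraMap (𝓞 M) M) (algebraMap (𝓞 M) M)).toAlgebra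

theorem tower_prod : letI := algProd M; @IsScalarTower (𝓞 M) (𝓞 M × 𝓞 M) (M × M)
    Algebra.toSMul Algebra.toSMul Algebra.toSMul := by
  let _ := algProd M
  refine IsScalarTower.of_algebraMap_eq fun x => ?_
  rfl

theorem isIntegralClosure_prod : letI := algProd M; IsIntegralClosure (𝓞 M × 𝓞 M) (𝓞 M) (M × M) := by
  letI := algProd M
  refine ⟨?_, ?_⟩
  · rintro ⟨a, b⟩ ⟨c, d⟩ h
    have h1 : (algebraMap (𝓞 M) M a, algebraMap (𝓞 M) M b) =
        (algebraMap (𝓞 M) M c, algebraMap (𝓞 M) M d) := h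
    rw [Prod.mk.injEq] at h1 ⊢
    exact ⟨NumberField.RingOfIntegers.ext h1.1, NumberField.RingOfIntegers.ext h1.2⟩
  · rintro ⟨a, b⟩
    constructor
    · intro h
      have ha : IsIntegral (𝓞 M) a := by
        obtain ⟨p, hp, h0⟩ := h
        refine ⟨p, hp, ?_⟩
        have h1 := congrArg (RingHom.fst M M) h0
        rw [Polynomial.hom_eval₂, map_zero] at h1
        exact h1
      have hb : IsIntegral (𝓞 M) b := by
        obtain ⟨p, hp, h0⟩ := h
        refine ⟨p, hp, ?_⟩
        have h1 := congrArg (RingHom.snd M M) h0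
        rw [Polynomial.hom_eval₂, map_zero] at h1
        exact h1
      obtain ⟨x, hx⟩ := IsIntegrallyClosed.algebraMap_eq_of_integral ha
      obtain ⟨y, hy⟩ := IsIntegrallyClosed.algebraMap_eq_of_integral hb
      exact ⟨(x, y), Prod.ext hx hy⟩
    · rintro ⟨⟨x, y⟩, hxy⟩
      rw [← hxy]
      refine ⟨(X - C x) * (X - C y), (monic_X_sub_C x).mul (monic_X_sub_C y), ?_⟩
      rw [eval₂_mul, eval₂_sub, eval₂_sub, eval₂_X, eval₂_C, eval₂_C]
      change ((algebraMap (𝓞 M) M x, algebraMap (𝓞 M) M y) -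
        (algebraMap (𝓞 M) M x, algebraMap (𝓞 M) M x)) *
        ((algebraMap (𝓞 M) M x, algebraMap (𝓞 M) M y) -
        (algebraMap (𝓞 M) M y, algebraMap (𝓞 M) M y)) = 0
      ext <;> simp

theorem quad_prod : Quad M (M × M) (1 : M) ((1, -1) : M × M) := by
  refine ⟨?_, ?_, ?_⟩
  · ext <;> simp
  · rintro ⟨a, b⟩
    refine ⟨(a + b) / 2, (a - b) / 2, ?_⟩
    ext
    · simp; ring
    · simp; ring
  · intro x y h
    have h1 : x + y = 0 := by simpa using congrArg Prod.fst h
    have h2 : x + -y = 0 := by simpa using congrArg Prod.snd h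
    constructor
    · linear_combination (h1 + h2) / 2
    · linear_combination (h1 - h2) / 2

end split

section

variable {K M E : Type} [Field K] [Field M] [NumberField M] [Field E] [Algebra K M] [Algebra M E]
  [Algebra K E] [IsScalarTower K M E] [IsAlgClosed E]

/-- the hypothesis of POSP, for the split algebra -/
theorem pos_split (ty : S_TYG) (𝔪 : Ideal (𝓞 K)) (R : Type) [CommRing R] [Algebra (𝓞 K) R]
    (hR : Nonempty (((𝓞 M × 𝓞 M) ⧸ 𝔪.map (algebraMap (𝓞 K) (𝓞 M × 𝓞 M))) ≃ₐ[𝓞 K] R))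
    (β : 𝓞 M) (s : E)
    (hβ : β - 1 ∈ Ideal.span {(4 : 𝓞 M)} * 𝔪.map (algebraMap (𝓞 K) (𝓞 M)))
    (hs : s ^ 2 = algebraMap M E ((1 * β : 𝓞 M) : M)) (hns : ∀ x : M, algebraMap M E x ≠ s) :
    Ty K (IntermediateField.adjoin M {s}) 𝔪 R := by
  letI := algProd M
  haveI := tower_prod M
  haveI := isIntegralClosure_prod M
  rw [one_mul] at hs
  have hβ0 : (β : M) ≠ 0 := by
    intro h0
    apply hns 0
    rw [map_zero]
    have : s ^ 2 = 0 := by rw [hs, h0, map_zero]
    exact (pow_eq_zero_iff (by norm_num)).1 this |>.symm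
  obtain ⟨m, hm, h4⟩ := Ideal.mem_span_singleton_mul.1 hβ
  have hq := quad_prod M
  have hq' := quad_adj hs hns
  rw [← one_mul (β : M)] at hq'
  have hM : (β : M) - 1 = 4 * (m : M) := by
    have := congrArg (algebraMap (𝓞 M) M) h4
    rw [map_mul, map_sub, map_ofNat, map_one] at this
    exact this.symm
  have key := ty M (𝔪.map (algebraMap (𝓞 K) (𝓞 M))) (1 : M) (β : M) 1 m 1
    (M × M) (IntermediateField.adjoin M {s})
    (𝓞 M × 𝓞 M) (𝓞 (IntermediateField.adjoin M {s}))
    _ _ one_ne_zero hβ0 one_ne_zero (by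
      rw [hM]; simp) hm (by simp) hq hq'
  obtain ⟨g⟩ := nonempty_restrict 𝔪 _ _ key
  obtain ⟨f⟩ := hR
  exact ⟨g.symm.trans f⟩

end

end Pool.Agent.H419.LT
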