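import Pool.Agent.H419.LT.Stm2
import Pool.Graph.R_pool_sql_team_seeded_3997aac3.Q258.LQ.Fin

/-! # Towers with local conditions: statements -/

set_option autoImplicit false

open NumberField Filter Topology
open Pool.Agent.TH444.ML

namespace Pool.Agent.H419.LT

/-- STEPP: quadratic extensions, with the property `P`, of the members of a family `𝓕`. -/
def S_STEPP : Prop := ∀ (K Ω : Type) [Field K] [NumberField K] [Field Ω] [Algebra K Ω]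
  [IsAlgClosure K Ω] (P : IntermediateField K Ω → Prop) (𝓕 : Set (IntermediateField K Ω))
  (m : ℕ), 0 < m → (∀ F ∈ 𝓕, Module.finrank K F = m) → ∀ e : ℝ,
  (∃ C : ℝ, 0 ≤ C ∧ ∀ F : IntermediateField K Ω, Module.finrank K F = m →
      ∀ X : ℝ, 0 < X → (AS F (X / dsc F ^ 2)).Finite ∧
      (Set.ncard (AS F (X / dsc F ^ 2)) : ℝ) ≤ C * X * (dsc F) ^ e) →
  Summable (fun F : 𝓕 => (dsc F.1) ^ e) →
  (∀ F ∈ 𝓕, ∃ c : ℝ, Tendsto (fun Y : ℝ =>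
    (Set.ncard {L : IntermediateField K Ω | L ∈ AS F Y ∧ P L} : ℝ) / Y) atTop (𝓝 c)) →
  (∀ F ∈ 𝓕, Tendsto (fun X : ℝ => (Set.ncard (Pool.Agent.Q258.LQ.BS F (X / dsc F ^ 2)) : ℝ) / X)
    atTop (𝓝 0)) →
  (∀ X : ℝ, 0 < X → (Pool.Agent.Q258.LQ.UX 𝓕 X).Finite) ∧ ∃ c : ℝ, 0 ≤ c ∧
    Tendsto (fun X : ℝ =>
      (Set.ncard {L : IntermediateField K Ω | L ∈ Pool.Agent.Q258.LQ.UX 𝓕 X ∧ P L} : ℝ) / X)
      atTop (𝓝 c) ∧
    (0 < c ↔ ∃ F ∈ 𝓕, ¬ Tendsto (fun Y : ℝ =>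
      (Set.ncard {L : IntermediateField K Ω | L ∈ AS F Y ∧ P L} : ℝ) / Y) atTop (𝓝 0))

/-- TRT: there is a tower of degree `k` above `K` in which all real embeddings of `K` extend to `k`
real embeddings. -/
def S_TRT : Prop := ∀ (K Ω : Type) [Field K] [NumberField K] [Field Ω] [Algebra K Ω]
  [IsAlgClosure K Ω] (k : ℕ), 0 < k → ∃ M : IntermediateField K Ω,
  M ∈ Pool.Agent.Q258.LQ.PT ({⊥} : Set (IntermediateField K Ω)) k ∧ ∀ v : K →+* ℝ, rl K M v = k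

end Pool.Agent.H419.LT
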