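import Pool.Agent.H419.LT.Sig
import Pool.Agent.H419.LT.Stm3

/-! # Joint conditions at the finite and at the infinite places -/

set_option autoImplicit false
set_option linter.unusedSectionVars false

open NumberField Filter Topology
open Pool.Agent.TH444.ML

namespace Pool.Agent.H419.LT

/-- the algebra modulo `𝔪` is `R` and the numbers of real embeddings are given by `r` -/
def Jt (K : Type) [Field K] (𝔪 : Ideal (𝓞 K)) (R : Type) [CommRing R] [Algebra (𝓞 K) R]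
    (r : (K →+* ℝ) → ℕ) (L : Type) [Field L] [Algebra K L] : Prop :=
  Ty K L 𝔪 R ∧ ∀ v : K →+* ℝ, rl K L v = r v

section

variable {K M E : Type} [Field K] [Field M] [NumberField M] [Field E] [Algebra K M] [Algebra M E]
  [Algebra K E] [IsScalarTower K M E] [IsAlgClosed E]

theorem locDetS_joint [NumberField K] (ty : S_TYG) (𝔪 : Ideal (𝓞 K)) (h𝔪 : 𝔪 ≠ ⊥) (R : Type)
    [CommRing R] [Algebra (𝓞 K) R] (r : (K →+* ℝ) → ℕ) :
    LocDetS M E (fun L => Jt K 𝔪 R r L) := by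
  intro 𝔠 h𝔠
  obtain ⟨𝔫, h𝔫, h⟩ := locDet_ty (M := M) (E := E) ty 𝔪 h𝔪 R 𝔠 h𝔠
  refine ⟨𝔫, h𝔫, ?_⟩
  intro α α' s s' h1 h2 h3 hsg hs hs' hn hn' hT
  refine ⟨h α α' s s' h1 h2 h3 hs hs' hn hn' hT.1, fun v => ?_⟩
  rw [rl_adj hs' hn' v, ← hsg, ← rl_adj hs hn v]
  exact hT.2 v

theorem pos_joint (ty : S_TYG) (𝔪 : Ideal (𝓞 K)) (R : Type) [CommRing R] [Algebra (𝓞 K) R]
    (r : (K →+* ℝ) → ℕ)
    {α₀ : 𝓞 M} {σ : E} (hσ : σ ^ 2 = algebraMap M E (α₀ : M)) (hn : ∀ x : M, algebraMap M E x ≠ σ)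
    (hT : Jt K 𝔪 R r (IntermediateField.adjoin M {σ})) (β : 𝓞 M) (s : E)
    (hβ : β - 1 ∈ Ideal.span {(4 : 𝓞 M)} * 𝔪.map (algebraMap (𝓞 K) (𝓞 M)))
    (hpos : ∀ τ : M →+* ℝ, 0 < τ (β : M))
    (hs : s ^ 2 = algebraMap M E ((α₀ * β : 𝓞 M) : M)) (hns : ∀ x : M, algebraMap M E x ≠ s) :
    Jt K 𝔪 R r (IntermediateField.adjoin M {s}) := by
  refine ⟨pos_field ty 𝔪 R hσ hn hT.1 β s hβ hs hns, fun v => ?_⟩
  have h5 : sg ((α₀ * β : 𝓞 M) : M) = sg (α₀ : M) := sg_mul_pos _ _ hpos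
  rw [rl_adj hs hns v, h5, ← rl_adj hσ hn v]
  exact hT.2 v

end

section

variable {K Ω : Type} [Field K] [NumberField K] [Field Ω] [Algebra K Ω] [IsAlgClosure K Ω]

/-- the limit for one field -/
theorem lim_joint (𝔪 : Ideal (𝓞 K)) (h𝔪 : 𝔪 ≠ ⊥) (R : Type) [CommRing R] [Algebra (𝓞 K) R]
    (r : (K →+* ℝ) → ℕ) (M : IntermediateField K Ω) [FiniteDimensional K M] :
    (∃ c : ℝ, Tendsto (fun Y : ℝ =>
      (Set.ncard {L : IntermediateField K Ω | L ∈ AS M Y ∧ Jt K 𝔪 R r L} : ℝ) / Y)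
      atTop (𝓝 c)) ∧
    ((¬ Tendsto (fun Y : ℝ =>
      (Set.ncard {L : IntermediateField K Ω | L ∈ AS M Y ∧ Jt K 𝔪 R r L} : ℝ) / Y)
      atTop (𝓝 0)) ↔ ∃ L : IntermediateField K Ω, M ≤ L ∧
        Module.finrank K L = 2 * Module.finrank K M ∧ Jt K 𝔪 R r L) := by
  have hac : IsAlgClosed Ω := IsAlgClosure.isAlgClosed K
  have hnf : NumberField M := nf_of_fd M
  refine ⟨?_, ?_, ?_⟩
  · obtain ⟨c, hc⟩ := LIMS.t_LIMS CDS.t_CDS CSC.t_CSC M Ω
      (fun L => Jt K 𝔪 R r L) (locDetS_joint TYG.t_TYG 𝔪 h𝔪 R r)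
    refine ⟨c, hc.congr fun Y => ?_⟩
    rw [ncard_AS_P M (fun L => Jt K 𝔪 R r L)]
    rfl
  · intro hne
    by_contra hcon
    apply hne
    have : ∀ Y : ℝ, {L : IntermediateField K Ω | L ∈ AS M Y ∧ Jt K 𝔪 R r L} = ∅ := by
      intro Y
      rw [Set.eq_empty_iff_forall_notMem]
      rintro L ⟨hL, hT⟩
      exact hcon ⟨L, hL.1, hL.2.1, hT⟩
    simp only [this, Set.ncard_empty, Nat.cast_zero, zero_div]
    exact tendsto_const_nhds
  · rintro ⟨L, hML, hL2, hT⟩ hten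
    have hten' : Tendsto (fun Y : ℝ =>
        (Set.ncard {L : IntermediateField M Ω | L ∈ QS M Ω Y ∧ Jt K 𝔪 R r L} : ℝ) / Y)
        atTop (𝓝 0) := by
      refine hten.congr fun Y => ?_
      rw [ncard_AS_P M (fun L => Jt K 𝔪 R r L)]
      rfl
    have hinj : Function.Injective (algebraMap (𝓞 K) (𝓞 M)) :=
      FaithfulSMul.algebraMap_injective (𝓞 K) (𝓞 M)
    have h0 : 𝔪.map (algebraMap (𝓞 K) (𝓞 M)) ≠ ⊥ := by
      rwa [Ne, Ideal.map_eq_bot_iff_of_injective hinj]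
    have h𝔫 : Ideal.span {(4 : 𝓞 M)} * 𝔪.map (algebraMap (𝓞 K) (𝓞 M)) ≠ ⊥ := by
      refine mul_ne_zero ?_ h0
      rw [Ne, Ideal.zero_eq_bot, Ideal.span_singleton_eq_bot]
      norm_num
    obtain ⟨rep, hrep⟩ := exists_rep M
    have hpos : 0 < Module.finrank K M := Module.finrank_pos
    have hfin : Module.finrank K L = Module.finrank K M *
        Module.finrank M (IntermediateField.extendScalars hML) :=
      (Module.finrank_mul_finrank K M (IntermediateField.extendScalars hML)).symm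
    have h2' : Module.finrank M (IntermediateField.extendScalars hML) = 2 := by
      rw [hL2] at hfin
      exact (Nat.eq_of_mul_eq_mul_left hpos (by rw [← hfin]; ring))
    obtain ⟨C, α₀, σ, hS, hσ, hn, hL⟩ :=
      (Pool.Agent.TH914.J3087.kumP M Ω rep hrep).1 (IntermediateField.extendScalars hML) h2'
    have hT' : Jt K 𝔪 R r (IntermediateField.extendScalars hML) := hT
    rw [hL] at hT'
    exact POSS.t_POSS CDS.t_CDS M Ω (fun L => Jt K 𝔪 R r L) α₀ _ hS.1 h𝔫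
      (fun β s hβ hp hs hns => pos_joint TYG.t_TYG 𝔪 R r hσ hn hT' β s hβ hp hs hns) hten'

end

end Pool.Agent.H419.LT
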