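import Pool.Agent.H419.LT.TRT

/-! # The number of real embeddings: parity -/

set_option autoImplicit false
set_option linter.unusedSectionVars false

open NumberField Filter Topology

namespace Pool.Agent.H419.LT

theorem rl_parity {M L : Type} [Field M] [CharZero M] [Field L] [NumberField L] [Algebra M L]
    [FiniteDimensional M L] (s : M →+* ℝ) :
    rl M L s ≤ Module.finrank M L ∧ Module.finrank M L ≡ rl M L s [MOD 2] := by
  classical
  let _ : Algebra M ℝ := s.toAlgebra
  have hL := finite_emb (M := L)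
  have hcard : Fintype.card (L →ₐ[M] ℂ) = Module.finrank M L := AlgHom.card M L ℂ
  let c : ℂ →ₐ[M] ℂ := (Complex.conjAe.restrictScalars M : ℂ ≃ₐ[M] ℂ)
  have hc : ∀ z : ℂ, c z = (starRingEnd ℂ) z := fun z => rfl
  let f : Function.End (L →ₐ[M] ℂ) := fun φ => c.comp φ
  have hf : f ^ 2 ^ 1 = 1 := by
    rw [pow_one, sq]
    funext φ
    refine AlgHom.ext fun x => ?_
    show c (c (φ x)) = φ x
    simp [hc]
  have : Fact (Nat.Prime 2) := ⟨Nat.prime_two⟩
  have hmod := Equiv.Perm.card_fixedPoints_modEq (p := 2) (n := 1) hf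
  -- the fixed points are the real embeddings
  have him : ∀ φ : L →ₐ[M] ℂ, f φ = φ → ∀ x, (φ x).im = 0 := by
    intro φ hφ x
    have h1 : c (φ x) = φ x := congrArg (fun g : L →ₐ[M] ℂ => g x) hφ
    rw [hc] at h1
    exact Complex.conj_eq_iff_im.1 h1
  let down : ∀ φ : L →ₐ[M] ℂ, f φ = φ → (L →+* ℝ) := fun φ hφ =>
    { toFun := fun x => (φ x).re
      map_one' := by simp
      map_zero' := by simp
      map_add' := fun x y => by simp
      map_mul' := fun x y => by simp [him φ hφ] }
  have hdown : ∀ (φ : L →ₐ[M] ℂ) (hφ : f φ = φ), (down φ hφ).comp (algebraMap M L) = s := by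
    intro φ hφ
    ext x
    show (φ (algebraMap M L x)).re = s x
    rw [AlgHom.commutes]
    have h1 : algebraMap M ℂ x = ((algebraMap M ℝ x : ℝ) : ℂ) :=
      IsScalarTower.algebraMap_apply M ℝ ℂ x
    rw [h1, Complex.ofReal_re]
    rfl
  let up : ∀ ψ : L →+* ℝ, ψ.comp (algebraMap M L) = s → (L →ₐ[M] ℂ) := fun ψ hψ =>
    { toRingHom := Complex.ofRealHom.comp ψ
      commutes' := fun x => by
        have h1 : algebraMap M ℂ x = ((algebraMap M ℝ x : ℝ) : ℂ) :=
          IsScalarTower.algebraMap_apply M ℝ ℂ x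
        rw [h1]
        show ((ψ (algebraMap M L x) : ℝ) : ℂ) = _
        have h2 : ψ (algebraMap M L x) = s x := congrArg (fun g : M →+* ℝ => g x) hψ
        rw [h2]
        rfl }
  have hup : ∀ (ψ : L →+* ℝ) (hψ : ψ.comp (algebraMap M L) = s), f (up ψ hψ) = up ψ hψ := by
    intro ψ hψ
    refine AlgHom.ext fun x => ?_
    show c ((ψ x : ℝ) : ℂ) = ((ψ x : ℝ) : ℂ)
    rw [hc, Complex.conj_ofReal]
  let e : {φ : L →+* ℝ // φ.comp (algebraMap M L) = s} ≃ f.fixedPoints :=
    { toFun := fun ψ => ⟨up ψ.1 ψ.2, hup ψ.1 ψ.2⟩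
      invFun := fun φ => ⟨down φ.1 φ.2, hdown φ.1 φ.2⟩
      left_inv := fun ψ => by
        apply Subtype.ext
        ext x
        show (((ψ.1 x : ℝ) : ℂ)).re = ψ.1 x
        exact Complex.ofReal_re _
      right_inv := fun φ => by
        apply Subtype.ext
        refine AlgHom.ext fun x => ?_
        show (((φ.1 x).re : ℝ) : ℂ) = φ.1 x
        exact Complex.ext rfl (him φ.1 φ.2 x).symm }
  have hrl : rl M L s = Fintype.card f.fixedPoints := by
    unfold rl
    rw [Nat.card_congr e, Nat.card_eq_fintype_card]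
  refine ⟨?_, ?_⟩
  · rw [hrl, ← hcard]
    exact Fintype.card_subtype_le _
  · rw [hrl, ← hcard]
    exact hmod

end Pool.Agent.H419.LT
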