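import Pool.Agent.H419.LT.Stm3

/-! # Summation over a family of fields, with a property `P` (helper894) -/

set_option autoImplicit false
set_option linter.unusedSectionVars false

open NumberField Filter Topology
open Pool.Agent.TH444.ML
open Pool.Agent.Q258.LQ (BS BS_sub UX UX_eq Up)

namespace Pool.Agent.H419.LT.STEPP

section

variable {K Ω : Type} [Field K] [NumberField K] [Field Ω] [Algebra K Ω] [IsAlgClosure K Ω]

/-- the quadratic extensions of `F` with the property `P` -/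
def AP (P : IntermediateField K Ω → Prop) (F : IntermediateField K Ω) (Y : ℝ) :
    Set (IntermediateField K Ω) :=
  {L | L ∈ AS F Y ∧ P L}

/-- those with a second subfield of index two -/
def BP (P : IntermediateField K Ω → Prop) (F : IntermediateField K Ω) (Y : ℝ) :
    Set (IntermediateField K Ω) :=
  {L | L ∈ BS F Y ∧ P L}

/-- the members of `Up 𝓕` of bounded discriminant with the property `P` -/
def UP (P : IntermediateField K Ω → Prop) (𝓕 : Set (IntermediateField K Ω)) (X : ℝ) :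
    Set (IntermediateField K Ω) :=
  {L | L ∈ UX 𝓕 X ∧ P L}

theorem AP_sub (P : IntermediateField K Ω → Prop) (F : IntermediateField K Ω) (Y : ℝ) :
    AP P F Y ⊆ AS F Y := fun _ h => h.1

theorem BP_sub (P : IntermediateField K Ω → Prop) (F : IntermediateField K Ω) (Y : ℝ) :
    BP P F Y ⊆ AP P F Y := fun _ h => ⟨BS_sub F Y h.1, h.2⟩

theorem BP_BS (P : IntermediateField K Ω → Prop) (F : IntermediateField K Ω) (Y : ℝ) :
    BP P F Y ⊆ BS F Y := fun _ h => h.1

theorem UP_eq (P : IntermediateField K Ω → Prop) (𝓕 : Set (IntermediateField K Ω)) (X : ℝ) :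
    UP P 𝓕 X = ⋃ F : 𝓕, AP P F.1 (X / dsc F.1 ^ 2) := by
  ext L
  rw [UP, UX_eq]
  simp only [Set.mem_iUnion, AP, Set.mem_ofPred_eq]
  constructor
  · rintro ⟨⟨F, h⟩, hP⟩
    exact ⟨F, h, hP⟩
  · rintro ⟨F, h, hP⟩
    exact ⟨⟨F, h⟩, hP⟩

/-- the substitution `Y = X / d ^ 2` -/
theorem subst_lim {d c : ℝ} (hd0 : 0 < d) {f : ℝ → ℝ}
    (h : Tendsto (fun Y : ℝ => f Y / Y) atTop (𝓝 c)) :
    Tendsto (fun X : ℝ => f (X / d ^ 2) / X) atTop (𝓝 (c * (1 / d ^ 2))) := by
  have hsub : Tendsto (fun X : ℝ => X / d ^ 2) atTop atTop :=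
    tendsto_id.atTop_div_const (by positivity)
  have e1 : ∀ a X : ℝ, 0 < X → a / (X / d ^ 2) * (1 / d ^ 2) = a / X := by
    intro a X hX
    field_simp
  refine ((h.comp hsub).mul_const (1 / d ^ 2)).congr' ?_
  filter_upwards [eventually_gt_atTop (0 : ℝ)] with X hX
  simp only [Function.comp]
  rw [e1 _ X hX]

end

theorem t_STEPP : S_STEPP := by
  intro K Ω _ _ _ _ _ P 𝓕 m hm hF e hbound hsum hlimA hlimB
  classical
  change (∀ X : ℝ, 0 < X → (UX 𝓕 X).Finite) ∧ ∃ c : ℝ, 0 ≤ c ∧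
    Tendsto (fun X : ℝ => (Set.ncard (UP P 𝓕 X) : ℝ) / X) atTop (𝓝 c) ∧
    (0 < c ↔ ∃ F ∈ 𝓕, ¬ Tendsto (fun Y : ℝ => (Set.ncard (AP P F Y) : ℝ) / Y) atTop (𝓝 0))
  have hlimA' : ∀ F : 𝓕, ∃ c : ℝ,
      Tendsto (fun Y : ℝ => (Set.ncard (AP P F.1 Y) : ℝ) / Y) atTop (𝓝 c) :=
    fun F => hlimA F.1 F.2
  choose c₀ hc₀ using hlimA'
  have hd0 : ∀ F : 𝓕, 0 < dsc F.1 := by
    intro F
    have h1 : 1 ≤ dsc F.1 := one_le_dsc F.1
    linarith
  obtain ⟨C, hC0, hC⟩ := hbound
  set cF : 𝓕 → ℝ := fun F => c₀ F * (1 / dsc F.1 ^ 2) with hcFdef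
  have hc₀0 : ∀ F : 𝓕, 0 ≤ c₀ F := by
    intro F
    refine ge_of_tendsto (hc₀ F) ?_
    filter_upwards [eventually_ge_atTop (0 : ℝ)] with Y hY
    positivity
  have hcF0 : ∀ F : 𝓕, 0 ≤ cF F := by
    intro F
    have h1 := hc₀0 F
    have h2 := hd0 F
    simp only [hcFdef]
    positivity
  have hcF : ∀ F : 𝓕,
      Tendsto (fun X : ℝ => (Set.ncard (AP P F.1 (X / dsc F.1 ^ 2)) : ℝ) / X) atTop
        (𝓝 (cF F)) :=
    fun F => subst_lim (f := fun Y => (Set.ncard (AP P F.1 Y) : ℝ)) (hd0 F) (hc₀ F)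
  have hsum' : Summable (fun F : 𝓕 => C * (dsc F.1) ^ e) := hsum.mul_left C
  have hfinS : ∀ (F : 𝓕) (X : ℝ), 0 < X → (AS F.1 (X / dsc F.1 ^ 2)).Finite :=
    fun F X hX => (hC F.1 (hF F.1 F.2) X hX).1
  have hfinA : ∀ (F : 𝓕) (X : ℝ), 0 < X → (AP P F.1 (X / dsc F.1 ^ 2)).Finite :=
    fun F X hX => (hfinS F X hX).subset (AP_sub P _ _)
  have hbdS : ∀ (F : 𝓕) (X : ℝ), 0 < X →
      (Set.ncard (AS F.1 (X / dsc F.1 ^ 2)) : ℝ) ≤ X * (C * (dsc F.1) ^ e) := by
    intro F X hX
    refine (hC F.1 (hF F.1 F.2) X hX).2.trans (le_of_eq (by ring))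
  have hbd : ∀ (F : 𝓕) (X : ℝ), 0 < X →
      (Set.ncard (AP P F.1 (X / dsc F.1 ^ 2)) : ℝ) ≤ X * (C * (dsc F.1) ^ e) := by
    intro F X hX
    refine le_trans ?_ (hbdS F X hX)
    exact_mod_cast Set.ncard_le_ncard (AP_sub P _ _) (hfinS F X hX)
  have hBA : ∀ (F : 𝓕) (X : ℝ), 0 < X →
      Set.ncard (BP P F.1 (X / dsc F.1 ^ 2)) ≤ Set.ncard (AP P F.1 (X / dsc F.1 ^ 2)) :=
    fun F X hX => Set.ncard_le_ncard (BP_sub P _ _) (hfinA F X hX)
  have hbF : ∀ F : 𝓕,
      Tendsto (fun X : ℝ => (Set.ncard (BP P F.1 (X / dsc F.1 ^ 2)) : ℝ) / X) atTop (𝓝 0) := by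
    intro F
    refine squeeze_zero' ?_ ?_ (hlimB F.1 F.2)
    · filter_upwards [eventually_gt_atTop (0 : ℝ)] with X hX
      positivity
    · filter_upwards [eventually_gt_atTop (0 : ℝ)] with X hX
      apply div_le_div_of_nonneg_right _ hX.le
      exact_mod_cast Set.ncard_le_ncard (BP_BS P _ _)
        ((hfinS F X hX).subset (BS_sub _ _))
  have hfinU : ∀ X : ℝ, 0 < X → (UX 𝓕 X).Finite := by
    intro X hX
    have hs1 : Summable (fun F : 𝓕 => (Set.ncard (AS F.1 (X / dsc F.1 ^ 2)) : ℝ)) :=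
      Summable.of_nonneg_of_le (fun F => by positivity) (fun F => hbdS F X hX)
        (hsum'.mul_left X)
    have hfs : {F : 𝓕 | (AS F.1 (X / dsc F.1 ^ 2)).Nonempty}.Finite := by
      have h := hs1.tendsto_cofinite_zero.eventually (gt_mem_nhds (zero_lt_one (α := ℝ)))
      rw [Filter.eventually_cofinite] at h
      refine h.subset ?_
      intro F hFn
      simp only [Set.mem_ofPred_eq, not_lt]
      have : 0 < Set.ncard (AS F.1 (X / dsc F.1 ^ 2)) := (Set.ncard_pos (hfinS F X hX)).2 hFn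
      exact_mod_cast this
    have hT : UX 𝓕 X = ⋃ F ∈ hfs.toFinset, AS F.1 (X / dsc F.1 ^ 2) := by
      rw [UX_eq]
      ext L
      simp only [Set.mem_iUnion, Set.Finite.mem_toFinset, Set.mem_ofPred_eq, exists_prop]
      constructor
      · rintro ⟨F, hFL⟩
        exact ⟨F, ⟨L, hFL⟩, hFL⟩
      · rintro ⟨F, -, hFL⟩
        exact ⟨F, hFL⟩
    rw [hT]
    exact Set.Finite.biUnion hfs.toFinset.finite_toSet (fun F _ => hfinS F X hX)
  -- for fixed `X`
  have key : ∀ X : ℝ, 0 < X →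
      (Set.ncard (UP P 𝓕 X) : ℝ) ≤ ∑' F : 𝓕, (Set.ncard (AP P F.1 (X / dsc F.1 ^ 2)) : ℝ) ∧
      ∑' F : 𝓕, ((Set.ncard (AP P F.1 (X / dsc F.1 ^ 2)) : ℝ) -
        Set.ncard (BP P F.1 (X / dsc F.1 ^ 2))) ≤ (Set.ncard (UP P 𝓕 X) : ℝ) := by
    intro X hX
    have hs1 : Summable (fun F : 𝓕 => (Set.ncard (AP P F.1 (X / dsc F.1 ^ 2)) : ℝ)) :=
      Summable.of_nonneg_of_le (fun F => by positivity) (fun F => hbd F X hX)
        (hsum'.mul_left X)
    have hfs : {F : 𝓕 | (AP P F.1 (X / dsc F.1 ^ 2)).Nonempty}.Finite := by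
      have h := hs1.tendsto_cofinite_zero.eventually (gt_mem_nhds (zero_lt_one (α := ℝ)))
      rw [Filter.eventually_cofinite] at h
      refine h.subset ?_
      intro F hFn
      simp only [Set.mem_ofPred_eq, not_lt]
      have : 0 < Set.ncard (AP P F.1 (X / dsc F.1 ^ 2)) := (Set.ncard_pos (hfinA F X hX)).2 hFn
      exact_mod_cast this
    have hzero : ∀ F : 𝓕, F ∉ hfs.toFinset →
        Set.ncard (AP P F.1 (X / dsc F.1 ^ 2)) = 0 := by
      intro F hFn
      have : ¬ (AP P F.1 (X / dsc F.1 ^ 2)).Nonempty := by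
        intro h; exact hFn (by simpa using h)
      rw [Set.not_nonempty_iff_eq_empty] at this
      rw [this]; simp
    have hT : UP P 𝓕 X = ⋃ F ∈ hfs.toFinset, AP P F.1 (X / dsc F.1 ^ 2) := by
      rw [UP_eq]
      ext L
      simp only [Set.mem_iUnion, Set.Finite.mem_toFinset, Set.mem_ofPred_eq, exists_prop]
      constructor
      · rintro ⟨F, hFL⟩
        exact ⟨F, ⟨L, hFL⟩, hFL⟩
      · rintro ⟨F, -, hFL⟩
        exact ⟨F, hFL⟩
    have hTf : (UP P 𝓕 X).Finite := by
      rw [hT]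
      exact Set.Finite.biUnion hfs.toFinset.finite_toSet (fun F _ => hfinA F X hX)
    refine ⟨?_, ?_⟩
    · have hTb : hTf.toFinset =
          hfs.toFinset.biUnion (fun F => (hfinA F X hX).toFinset) := by
        ext L
        rw [Set.Finite.mem_toFinset, hT]
        simp only [Set.mem_iUnion, Finset.mem_biUnion, Set.Finite.mem_toFinset, exists_prop]
      have hcard : (UP P 𝓕 X).ncard ≤
          ∑ F ∈ hfs.toFinset, (AP P F.1 (X / dsc F.1 ^ 2)).ncard := by
        rw [Set.ncard_eq_toFinset_card _ hTf, hTb]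
        refine Finset.card_biUnion_le.trans (le_of_eq ?_)
        refine Finset.sum_congr rfl fun F _ => ?_
        exact (Set.ncard_eq_toFinset_card _ (hfinA F X hX)).symm
      rw [tsum_eq_sum (s := hfs.toFinset) (fun F hFn => by rw [hzero F hFn]; simp)]
      exact_mod_cast hcard
    · rw [tsum_eq_sum (s := hfs.toFinset)]
      · have hG : ∀ F : 𝓕,
            ((AP P F.1 (X / dsc F.1 ^ 2)) \ (BP P F.1 (X / dsc F.1 ^ 2))).Finite :=
          fun F => (hfinA F X hX).subset Set.sdiff_subset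
        have hsub : hfs.toFinset.biUnion (fun F => (hG F).toFinset) ⊆ hTf.toFinset := by
          intro L hL
          rw [Finset.mem_biUnion] at hL
          obtain ⟨F, hF1, hF2⟩ := hL
          rw [Set.Finite.mem_toFinset] at hF2 ⊢
          rw [hT]
          simp only [Set.mem_iUnion, exists_prop]
          exact ⟨F, hF1, hF2.1⟩
        have hdis : ∀ F ∈ hfs.toFinset, ∀ F' ∈ hfs.toFinset, F ≠ F' →
            Disjoint (hG F).toFinset (hG F').toFinset := by
          intro F _ F' _ hne'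
          rw [Finset.disjoint_left]
          intro L h1 h2
          rw [Set.Finite.mem_toFinset] at h1 h2
          apply h1.2
          refine ⟨⟨h1.1.1.1, h1.1.1.2.1, ⟨F'.1, h2.1.1.1, fun h => hne' (Subtype.ext h.symm), ?_⟩,
            h1.1.1.2.2⟩, h1.1.2⟩
          rw [hF F.1 F.2, hF F'.1 F'.2]
        have hcard : ∑ F ∈ hfs.toFinset,
            ((AP P F.1 (X / dsc F.1 ^ 2)) \ (BP P F.1 (X / dsc F.1 ^ 2))).ncard ≤
              (UP P 𝓕 X).ncard := by
          rw [Set.ncard_eq_toFinset_card _ hTf]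
          refine le_trans (le_of_eq ?_) (Finset.card_le_card hsub)
          rw [Finset.card_biUnion hdis]
          refine Finset.sum_congr rfl fun F _ => ?_
          exact Set.ncard_eq_toFinset_card _ (hG F)
        have hcard' : ((∑ F ∈ hfs.toFinset,
            ((AP P F.1 (X / dsc F.1 ^ 2)) \ (BP P F.1 (X / dsc F.1 ^ 2))).ncard : ℕ) : ℝ) ≤
            (UP P 𝓕 X).ncard := by exact_mod_cast hcard
        refine le_trans (le_of_eq ?_) hcard'
        push_cast
        refine Finset.sum_congr rfl fun F _ => ?_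
        have h3 := Set.ncard_sdiff_add_ncard_of_subset (BP_sub P F.1 (X / dsc F.1 ^ 2))
          (hfinA F X hX)
        rw [← h3]
        push_cast
        ring
      · intro F hFn
        have h1 := hzero F hFn
        have h2 := hBA F X hX
        rw [h1] at h2
        rw [h1, Nat.le_zero.1 h2]
        simp
  have hle : ∀ F : 𝓕, cF F ≤ C * (dsc F.1) ^ e := by
    intro F
    refine le_of_tendsto (hcF F) ?_
    filter_upwards [eventually_gt_atTop (0 : ℝ)] with X hX
    rw [div_le_iff₀ hX]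
    have := hbd F X hX
    linarith
  have hs : Summable cF := Summable.of_nonneg_of_le hcF0 hle hsum'
  refine ⟨hfinU, ∑' F : 𝓕, cF F, tsum_nonneg hcF0, ?_, ?_⟩
  · have hup := tendsto_tsum_of_dominated_convergence (𝓕 := atTop)
      (f := fun (X : ℝ) (F : 𝓕) => (Set.ncard (AP P F.1 (X / dsc F.1 ^ 2)) : ℝ) / X)
      (g := cF) hsum' (fun F => hcF F) (by
        filter_upwards [eventually_gt_atTop (0 : ℝ)] with X hX F
        rw [Real.norm_of_nonneg (by positivity), div_le_iff₀ hX]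
        have := hbd F X hX
        linarith)
    have hlo := tendsto_tsum_of_dominated_convergence (𝓕 := atTop)
      (f := fun (X : ℝ) (F : 𝓕) => ((Set.ncard (AP P F.1 (X / dsc F.1 ^ 2)) : ℝ) -
        Set.ncard (BP P F.1 (X / dsc F.1 ^ 2))) / X)
      (g := cF) hsum' (fun F => by
        have h := (hcF F).sub (hbF F)
        rw [sub_zero] at h
        refine h.congr (fun X => ?_)
        rw [sub_div]) (by
        filter_upwards [eventually_gt_atTop (0 : ℝ)] with X hX F
        have h1 : (Set.ncard (BP P F.1 (X / dsc F.1 ^ 2)) : ℝ) ≤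
            Set.ncard (AP P F.1 (X / dsc F.1 ^ 2)) := by exact_mod_cast hBA F X hX
        have h0 : (0 : ℝ) ≤ Set.ncard (BP P F.1 (X / dsc F.1 ^ 2)) := Nat.cast_nonneg _
        rw [Real.norm_of_nonneg (div_nonneg (by linarith) hX.le), div_le_iff₀ hX]
        have := hbd F X hX
        linarith)
    refine tendsto_of_tendsto_of_tendsto_of_le_of_le' hlo hup ?_ ?_
    · filter_upwards [eventually_gt_atTop (0 : ℝ)] with X hX
      rw [tsum_div_const]
      exact div_le_div_of_nonneg_right (key X hX).2 hX.le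
    · filter_upwards [eventually_gt_atTop (0 : ℝ)] with X hX
      rw [tsum_div_const]
      exact div_le_div_of_nonneg_right (key X hX).1 hX.le
  · constructor
    · intro hpos
      by_contra hcon
      push Not at hcon
      have hz : ∀ F : 𝓕, cF F = 0 := by
        intro F
        have h1 : c₀ F = 0 := tendsto_nhds_unique (hc₀ F) (hcon F.1 F.2)
        simp only [hcFdef, h1, zero_mul]
      rw [tsum_congr hz, tsum_zero] at hpos
      exact lt_irrefl _ hpos
    · rintro ⟨F, hFm, hnt⟩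
      refine hs.tsum_pos hcF0 ⟨F, hFm⟩ ?_
      have h1 : c₀ ⟨F, hFm⟩ ≠ 0 := by
        intro h
        apply hnt
        have h2 := hc₀ ⟨F, hFm⟩
        rw [h] at h2
        exact h2
      have h2 : 0 < c₀ ⟨F, hFm⟩ := lt_of_le_of_ne (hc₀0 _) (Ne.symm h1)
      have h3 := hd0 ⟨F, hFm⟩
      simp only [hcFdef]
      positivity

end Pool.Agent.H419.LT.STEPP
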