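import Pool.Graph.R_seed8.TH444.ML.Main

/-! # Malle's conjecture for `C₂ ≀ H` with prescribed `𝓞_L / 𝔪 𝓞_L`: definitions and statements -/

set_option autoImplicit false

open NumberField Filter Topology
open Pool.Agent.TH444.ML

namespace Pool.Agent.H419.LT

/-- The algebra `𝓞_L / 𝔪 𝓞_L` over `𝓞_K` is isomorphic to `R`. -/
def Ty (K : Type) [Field K] (L : Type) [Field L] [Algebra K L] (𝔪 : Ideal (𝓞 K))
    (R : Type) [CommRing R] [Algebra (𝓞 K) R] : Prop :=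
  Nonempty ((𝓞 L ⧸ 𝔪.map (algebraMap (𝓞 K) (𝓞 L))) ≃ₐ[𝓞 K] R)

/-- `L` is a free algebra over `M` with basis `1, θ` and `θ ^ 2 = α`. -/
structure Quad (M : Type) [Field M] (L : Type) [CommRing L] [Algebra M L] (α : M) (θ : L) :
    Prop where
  sq : θ ^ 2 = algebraMap M L α
  ex : ∀ z : L, ∃ x y : M, z = algebraMap M L x + algebraMap M L y * θ
  inj : ∀ x y : M, algebraMap M L x + algebraMap M L y * θ = 0 → x = 0 ∧ y = 0

/-- TYG: if `u` is near `1` at the primes dividing `4 𝔪`, the maximal orders of `M(√α)` and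
`M(√(α u))` are isomorphic modulo `𝔪`. -/
def S_TYG : Prop := ∀ (M : Type) [Field M] [NumberField M] (𝔪 : Ideal (𝓞 M)) (α u : M)
  (s m t : 𝓞 M) (L L' B B' : Type) [CommRing L] [CommRing L'] [Algebra M L] [Algebra M L']
  [CommRing B] [CommRing B'] [Algebra (𝓞 M) B] [Algebra (𝓞 M) B'] [Algebra B L] [Algebra B' L']
  [Algebra (𝓞 M) L] [Algebra (𝓞 M) L'] [IsScalarTower (𝓞 M) M L] [IsScalarTower (𝓞 M) M L']
  [IsScalarTower (𝓞 M) B L] [IsScalarTower (𝓞 M) B' L'] [IsIntegralClosure B (𝓞 M) L]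
  [IsIntegralClosure B' (𝓞 M) L'] (θ : L) (θ' : L'),
  α ≠ 0 → u ≠ 0 → s ≠ 0 → (s : M) * (u - 1) = 4 * (m : M) → m ∈ 𝔪 → t * s - 1 ∈ 𝔪 →
  Quad M L α θ → Quad M L' (α * u) θ' →
  Nonempty ((B ⧸ 𝔪.map (algebraMap (𝓞 M) B)) ≃ₐ[𝓞 M] (B' ⧸ 𝔪.map (algebraMap (𝓞 M) B')))

/-- `T` is determined by congruences for the generator. -/
def LocDet (M E : Type) [Field M] [NumberField M] [Field E] [Algebra M E]
    (T : IntermediateField M E → Prop) : Prop :=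
  ∀ 𝔠 : Ideal (𝓞 M), 𝔠 ≠ ⊥ → ∃ 𝔫 : Ideal (𝓞 M), 𝔫 ≠ ⊥ ∧ ∀ (α α' : 𝓞 M) (s s' : E),
    Sqf M 𝔠 α → Sqf M 𝔠 α' → α - α' ∈ 𝔫 →
    s ^ 2 = algebraMap M E (α : M) → s' ^ 2 = algebraMap M E (α' : M) →
    (∀ x : M, algebraMap M E x ≠ s) → (∀ x : M, algebraMap M E x ≠ s') →
    T (IntermediateField.adjoin M {s}) → T (IntermediateField.adjoin M {s'})

/-- LIMP: quadratic extensions of `M` with the property `T`: the limit exists. -/
def S_LIMP : Prop := ∀ (M E : Type) [Field M] [NumberField M] [Field E] [Algebra M E]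
  [IsAlgClosed E] (T : IntermediateField M E → Prop), LocDet M E T →
  ∃ c : ℝ, Tendsto (fun Y : ℝ => (Set.ncard {L : IntermediateField M E | L ∈ QS M E Y ∧ T L} : ℝ) / Y)
    atTop (𝓝 c)

/-- CONE: residue classes have a positive density in the cone. -/
def S_CONE : Prop := ∀ (M : Type) [Field M] [NumberField M] (𝔟 : Ideal (𝓞 M)) (_ : 𝔟 ≠ ⊥)
  (a : 𝓞 M), ∃ c : ℝ, 0 < c ∧ Tendsto (fun Z : ℝ =>
    (Set.ncard {α : 𝓞 M | α ∈ cone M ∧ α - a ∈ 𝔟 ∧ nrm α ≤ Z} : ℝ) / Z) atTop (𝓝 c)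

/-- POSP: quadratic extensions of `M` with the property `T`: the limit is positive, if the fields
`M(√(α₀ β))`, `β ≡ 1` modulo `𝔫`, have the property. -/
def S_POSP : Prop := ∀ (M E : Type) [Field M] [NumberField M] [Field E] [Algebra M E]
  [IsAlgClosed E] (T : IntermediateField M E → Prop) (α₀ : 𝓞 M) (𝔫 : Ideal (𝓞 M)),
  α₀ ≠ 0 → 𝔫 ≠ ⊥ →
  (∀ (β : 𝓞 M) (s : E), β - 1 ∈ 𝔫 → s ^ 2 = algebraMap M E ((α₀ * β : 𝓞 M) : M) →
    (∀ x : M, algebraMap M E x ≠ s) → T (IntermediateField.adjoin M {s})) →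
  ¬ Tendsto (fun Y : ℝ =>
    (Set.ncard {L : IntermediateField M E | L ∈ QS M E Y ∧ T L} : ℝ) / Y) atTop (𝓝 0)

/-- MAINP: summation over the extensions `M` with group `H`. -/
def S_MAINP : Prop := ∀ (K Ω H : Type) [Field K] [NumberField K] [Field Ω] [Algebra K Ω]
  [IsAlgClosure K Ω] [Group H] [Finite H] (P : IntermediateField K Ω → Prop),
  2 ≤ Nat.card H → Summable (fun M : Gal K Ω H => (dsc M.1) ^ (-(1 / 4) : ℝ)) →
  (∀ M ∈ Gal K Ω H, ∃ c : ℝ, Tendsto (fun Y : ℝ =>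
    (Set.ncard {L : IntermediateField K Ω | L ∈ AS M Y ∧ P L} : ℝ) / Y) atTop (𝓝 c)) →
  ∀ D : ℝ, 0 < D →
  (∀ X : ℝ, 0 < X → (TT K Ω H (X * D)).Finite) ∧
  ∃ c : ℝ, 0 ≤ c ∧
    Tendsto (fun X : ℝ => (Set.ncard {L : IntermediateField K Ω | L ∈ TT K Ω H (X * D) ∧ P L} : ℝ) / X)
      atTop (𝓝 c) ∧
    (0 < c ↔ ∃ M ∈ Gal K Ω H, ¬ Tendsto (fun Y : ℝ =>
      (Set.ncard {L : IntermediateField K Ω | L ∈ AS M Y ∧ P L} : ℝ) / Y) atTop (𝓝 0))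

end Pool.Agent.H419.LT
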