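import Pool.Agent.H419.LT.Stm

/-! # Quadratic extensions with congruence and sign conditions: statements -/

set_option autoImplicit false

open NumberField Filter Topology
open Pool.Agent.TH444.ML

namespace Pool.Agent.H419.LT

/-- The real embeddings of the field at which the element is positive. -/
def sg {M : Type} [Field M] (α : M) : Set (M →+* ℝ) := {σ | 0 < σ α}

/-- CDS: the elements of the cone in a residue class with given signs have a positive density. -/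
def S_CDS : Prop := ∀ (M : Type) [Field M] [NumberField M] (S : Set (M →+* ℝ))
  (𝔟 : Ideal (𝓞 M)) (_ : 𝔟 ≠ ⊥) (a : 𝓞 M), ∃ c : ℝ, 0 < c ∧ Tendsto (fun Z : ℝ =>
    (Set.ncard {α : 𝓞 M | (α ∈ cone M ∧ sg (α : M) = S) ∧ α - a ∈ 𝔟 ∧ nrm α ≤ Z} : ℝ) / Z)
    atTop (𝓝 c)

/-- CSC: the squarefree sieve in a subset `A` of the cone in which residue classes have densities. -/
def S_CSC : Prop := ∀ (M : Type) [Field M] [NumberField M] (A : Set (𝓞 M)), A ⊆ cone M →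
  (∀ (𝔟 : Ideal (𝓞 M)), 𝔟 ≠ ⊥ → ∀ a : 𝓞 M, ∃ c : ℝ, Tendsto (fun Z : ℝ =>
    (Set.ncard {α : 𝓞 M | α ∈ A ∧ α - a ∈ 𝔟 ∧ nrm α ≤ Z} : ℝ) / Z) atTop (𝓝 c)) →
  ∀ (𝔠 𝔪 : Ideal (𝓞 M)), 𝔠 ≠ ⊥ → 𝔪 ≠ ⊥ →
  ∀ (g : 𝓞 M → ℝ), (∀ α α' : 𝓞 M, α - α' ∈ 𝔪 → g α = g α') → (∀ α, 0 ≤ g α) →
    ∃ c : ℝ, Tendsto (fun Y : ℝ =>
      (Set.ncard {α : 𝓞 M | α ∈ A ∧ Sqf M 𝔠 α ∧ nrm α ≤ Y * g α} : ℝ) / Y) atTop (𝓝 c)

/-- `T` is determined by congruences and signs for the generator. -/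
def LocDetS (M E : Type) [Field M] [NumberField M] [Field E] [Algebra M E]
    (T : IntermediateField M E → Prop) : Prop :=
  ∀ 𝔠 : Ideal (𝓞 M), 𝔠 ≠ ⊥ → ∃ 𝔫 : Ideal (𝓞 M), 𝔫 ≠ ⊥ ∧ ∀ (α α' : 𝓞 M) (s s' : E),
    Sqf M 𝔠 α → Sqf M 𝔠 α' → α - α' ∈ 𝔫 → sg (α : M) = sg (α' : M) →
    s ^ 2 = algebraMap M E (α : M) → s' ^ 2 = algebraMap M E (α' : M) →
    (∀ x : M, algebraMap M E x ≠ s) → (∀ x : M, algebraMap M E x ≠ s') →
    T (IntermediateField.adjoin M {s}) → T (IntermediateField.adjoin M {s'})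

/-- LIMS: quadratic extensions of `M` with the property `T`: the limit exists. -/
def S_LIMS : Prop := ∀ (M E : Type) [Field M] [NumberField M] [Field E] [Algebra M E]
  [IsAlgClosed E] (T : IntermediateField M E → Prop), LocDetS M E T →
  ∃ c : ℝ, Tendsto (fun Y : ℝ => (Set.ncard {L : IntermediateField M E | L ∈ QS M E Y ∧ T L} : ℝ) / Y)
    atTop (𝓝 c)

/-- POSS: quadratic extensions of `M` with the property `T`: the limit is positive, if the fields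
`M(√(α₀ β))`, `β ≡ 1` modulo `𝔫` and totally positive, have the property. -/
def S_POSS : Prop := ∀ (M E : Type) [Field M] [NumberField M] [Field E] [Algebra M E]
  [IsAlgClosed E] (T : IntermediateField M E → Prop) (α₀ : 𝓞 M) (𝔫 : Ideal (𝓞 M)),
  α₀ ≠ 0 → 𝔫 ≠ ⊥ →
  (∀ (β : 𝓞 M) (s : E), β - 1 ∈ 𝔫 → (∀ σ : M →+* ℝ, 0 < σ (β : M)) →
    s ^ 2 = algebraMap M E ((α₀ * β : 𝓞 M) : M) →
    (∀ x : M, algebraMap M E x ≠ s) → T (IntermediateField.adjoin M {s})) →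
  ¬ Tendsto (fun Y : ℝ =>
    (Set.ncard {L : IntermediateField M E | L ∈ QS M E Y ∧ T L} : ℝ) / Y) atTop (𝓝 0)

/-- APX: elements with given signs, congruent to `1`. -/
def S_APX : Prop := ∀ (M : Type) [Field M] [NumberField M] (S : Set (M →+* ℝ))
  (𝔫 : Ideal (𝓞 M)), 𝔫 ≠ ⊥ → ∃ α : 𝓞 M, α ≠ 0 ∧ α - 1 ∈ 𝔫 ∧ sg (α : M) = S

/-- The number of real embeddings of `L` above the real embedding `v` of `K`. -/
noncomputable def rl (K L : Type) [Field K] [Field L] [Algebra K L] (v : K →+* ℝ) : ℕ :=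
  Nat.card {φ : L →+* ℝ // φ.comp (algebraMap K L) = v}

/-- RLQ: real embeddings of a quadratic extension. -/
def S_RLQ : Prop := ∀ (K M L : Type) [Field K] [Field M] [NumberField M] [Field L] [Algebra K M]
  [Algebra M L] [Algebra K L] [IsScalarTower K M L] (α : M) (θ : L), Quad M L α θ →
  (∀ x : M, algebraMap M L x ≠ θ) → ∀ v : K →+* ℝ,
  rl K L v = 2 * Nat.card {σ : M →+* ℝ // σ.comp (algebraMap K M) = v ∧ 0 < σ α}

/-- RLG: real embeddings of a Galois extension. -/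
def S_RLG : Prop := ∀ (K M : Type) [Field K] [Field M] [Algebra K M] [FiniteDimensional K M]
  [IsGalois K M] (v : K →+* ℝ), rl K M v = 0 ∨ rl K M v = Module.finrank K M

end Pool.Agent.H419.LT
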