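import Pool.Agent.H419.LT.Sig
import Pool.Agent.H419.LT.Stm3

/-! # Totally real towers of every degree (helper696) -/

set_option autoImplicit false
set_option linter.unusedSectionVars false

open NumberField Filter Topology
open Pool.Agent.TH444.ML

namespace Pool.Agent.H419.LT.TRT

open Pool.Agent.Q258.LQ (PT PTow finrank_extend exCyc)

/-- the real embeddings of `L` above those of `M` -/
theorem rl_tower {K M L : Type} [Field K] [Field M] [Field L] [NumberField M] [NumberField L]
    [Algebra K M] [Algebra M L] [Algebra K L] [IsScalarTower K M L] (p : ℕ)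
    (h : ∀ s : M →+* ℝ, rl M L s = p) (v : K →+* ℝ) : rl K L v = rl K M v * p := by
  have hM := finite_emb (M := M)
  have hL := finite_emb (M := L)
  let e : {φ : L →+* ℝ // φ.comp (algebraMap K L) = v} ≃
      Σ s : {s : M →+* ℝ // s.comp (algebraMap K M) = v},
        {φ : L →+* ℝ // φ.comp (algebraMap M L) = s.1} :=
    { toFun := fun φ => ⟨⟨φ.1.comp (algebraMap M L), by
        rw [RingHom.comp_assoc, ← IsScalarTower.algebraMap_eq]
        exact φ.2⟩, ⟨φ.1, rfl⟩⟩
      invFun := fun x => ⟨x.2.1, by
        rw [IsScalarTower.algebraMap_eq K M L, ← RingHom.comp_assoc, x.2.2]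
        exact x.1.2⟩
      left_inv := fun φ => rfl
      right_inv := by
        rintro ⟨⟨s, hs⟩, ⟨φ, hφ⟩⟩
        have hφ' : φ.comp (algebraMap M L) = s := hφ
        subst hφ'
        rfl }
  have hft : Fintype {s : M →+* ℝ // s.comp (algebraMap K M) = v} := Fintype.ofFinite _
  have h1 : ∀ s : {s : M →+* ℝ // s.comp (algebraMap K M) = v},
      Nat.card {φ : L →+* ℝ // φ.comp (algebraMap M L) = s.1} = p := fun s => h s.1
  unfold rl
  rw [Nat.card_congr e, Nat.card_sigma, Finset.sum_congr rfl fun s _ => h1 s, Finset.sum_const,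
    smul_eq_mul, Finset.card_univ, Nat.card_eq_fintype_card]

/-- an extension of odd degree has a real embedding above every real embedding -/
theorem rl_odd {M L : Type} [Field M] [CharZero M] [Field L] [NumberField L] [Algebra M L]
    [FiniteDimensional M L] (hodd : Odd (Module.finrank M L)) (s : M →+* ℝ) : rl M L s ≠ 0 := by
  let _ : Algebra M ℝ := s.toAlgebra
  have hL := finite_emb (M := L)
  have hcard : Fintype.card (L →ₐ[M] ℂ) = Module.finrank M L := AlgHom.card M L ℂ
  let c : ℂ →ₐ[M] ℂ := (Complex.conjAe.restrictScalars M : ℂ ≃ₐ[M] ℂ)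
  have hc : ∀ z : ℂ, c z = (starRingEnd ℂ) z := fun z => rfl
  let σ : Equiv.Perm (L →ₐ[M] ℂ) :=
    { toFun := fun φ => c.comp φ
      invFun := fun φ => c.comp φ
      left_inv := fun φ => by
        ext x
        simp [hc]
      right_inv := fun φ => by
        ext x
        simp [hc] }
  have hσ : σ ^ 2 ^ 1 = 1 := by
    rw [pow_one, sq]
    ext φ x
    show c (c (φ x)) = φ x
    simp [hc]
  obtain ⟨φ, hφ⟩ := Equiv.Perm.exists_fixed_point_of_prime (p := 2) (n := 1) (by
    rw [hcard]
    intro h
    exact (Nat.not_even_iff_odd.2 hodd) (even_iff_two_dvd.2 h)) hσ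
  have him : ∀ x, (φ x).im = 0 := by
    intro x
    have h1 : c (φ x) = φ x := by
      have := congrArg (fun f : L →ₐ[M] ℂ => f x) hφ
      exact this
    rw [hc] at h1
    exact Complex.conj_eq_iff_im.1 h1
  let ψ : L →+* ℝ :=
    { toFun := fun x => (φ x).re
      map_one' := by simp
      map_zero' := by simp
      map_add' := fun x y => by simp
      map_mul' := fun x y => by simp [him] }
  have hψ : ψ.comp (algebraMap M L) = s := by
    ext x
    show (φ (algebraMap M L x)).re = s x
    rw [AlgHom.commutes]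
    have h1 : algebraMap M ℂ x = ((algebraMap M ℝ x : ℝ) : ℂ) :=
      IsScalarTower.algebraMap_apply M ℝ ℂ x
    rw [h1, Complex.ofReal_re]
    rfl
  unfold rl
  rw [Nat.card_ne_zero]
  exact ⟨⟨⟨ψ, hψ⟩⟩, inferInstance⟩

/-- a totally real quadratic extension -/
theorem exists_quad (F Ω : Type) [Field F] [NumberField F] [Field Ω] [Algebra F Ω]
    [IsAlgClosed Ω] : ∃ L : IntermediateField F Ω, Module.finrank F L = 2 ∧
      ∀ s : F →+* ℝ, rl F L s = 2 := by
  by_contra hcon
  refine POSS.t_POSS CDS.t_CDS F Ω (fun L => ∀ s : F →+* ℝ, rl F L s = 2) 1 ⊤ one_ne_zero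
    top_ne_bot ?_ ?_
  · intro β s' _ hβ hs hns v
    have h1 : Nat.card {σ : F →+* ℝ // σ.comp (algebraMap F F) = v ∧
        σ ∈ sg ((1 * β : 𝓞 F) : F)} = 1 := by
      rw [Nat.card_eq_one_iff_exists]
      refine ⟨⟨v, ⟨RingHom.ext fun x => rfl, ?_⟩⟩, ?_⟩
      · show 0 < v ((1 * β : 𝓞 F) : F)
        rw [one_mul]
        exact hβ v
      · rintro ⟨τ, h2, h3⟩
        apply Subtype.ext
        show τ = v
        rw [← h2]
        exact RingHom.ext fun x => rfl
    rw [rl_adj hs hns v, h1]
  · have h1 : ∀ Y : ℝ, {L : IntermediateField F Ω | L ∈ QS F Ω Y ∧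
        ∀ s : F →+* ℝ, rl F L s = 2} = ∅ := by
      intro Y
      rw [Set.eq_empty_iff_forall_notMem]
      rintro L ⟨hL, hT⟩
      exact hcon ⟨L, hL.1, hT⟩
    simp only [h1, Set.ncard_empty, Nat.cast_zero, zero_div]
    exact tendsto_const_nhds

/-- one step -/
theorem exists_step (p : ℕ) (hp : p.Prime) (F Ω : Type) [Field F] [NumberField F] [Field Ω]
    [Algebra F Ω] [IsAlgClosed Ω] : ∃ L : IntermediateField F Ω, Module.finrank F L = p ∧
      IsGalois F L ∧ ∀ s : F →+* ℝ, rl F L s = p := by
  rcases hp.eq_two_or_odd' with rfl | hodd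
  · obtain ⟨L, h1, h2⟩ := exists_quad F Ω
    have hq : Algebra.IsQuadraticExtension F L := ⟨h1⟩
    have hnormal : Normal F L := inferInstance
    have hgal : IsGalois F L := by
      refine ⟨⟩
    exact ⟨L, h1, hgal, h2⟩
  · obtain ⟨L, h1, h2⟩ := exCyc p hp F Ω
    have hfd : FiniteDimensional F L := FiniteDimensional.of_finrank_pos (by
      rw [h1]
      exact hp.pos)
    have hnf : NumberField L := NumberField.of_module_finite F L
    refine ⟨L, h1, h2, fun s => ?_⟩
    rcases RL.t_RLG F L s with h3 | h3
    · exact absurd h3 (rl_odd (by rw [h1]; exact hodd) s)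
    · rw [h3, h1]

theorem t_TRT : S_TRT := by
  intro K Ω _ _ _ _ _ n hn
  have hac : IsAlgClosed Ω := IsAlgClosure.isAlgClosed K
  induction n using Nat.strong_induction_on with
  | _ n ih =>
    by_cases h1 : n = 1
    · subst h1
      refine ⟨⊥, ⟨PTow.base rfl, IntermediateField.finrank_bot⟩, fun v => ?_⟩
      unfold rl
      rw [Nat.card_eq_one_iff_exists]
      refine ⟨⟨v.comp ((IntermediateField.botEquiv K Ω).toAlgHom : _ →+* K), ?_⟩, ?_⟩
      · ext x
        show v ((IntermediateField.botEquiv K Ω) (algebraMap K _ x)) = v x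
        rw [AlgEquiv.commutes]
        rfl
      · rintro ⟨φ, hφ⟩
        apply Subtype.ext
        ext x
        show φ x = v ((IntermediateField.botEquiv K Ω) x)
        rw [← hφ]
        show φ x = φ (algebraMap K _ ((IntermediateField.botEquiv K Ω) x))
        congr 1
        rw [← IntermediateField.botEquiv_symm]
        exact ((IntermediateField.botEquiv K Ω).symm_apply_apply x).symm
    · have hp : (n.minFac).Prime := Nat.minFac_prime h1
      have hpos : 0 < n / n.minFac := Nat.div_pos (Nat.minFac_le hn) hp.pos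
      obtain ⟨F, ⟨hF, hdeg⟩, hrl⟩ := ih (n / n.minFac) (Nat.div_lt_self hn hp.one_lt) hpos
      have hfd : FiniteDimensional K F := FiniteDimensional.of_finrank_pos (by omega)
      have hnf : NumberField F := nf_of_fd F
      obtain ⟨L', h2, h3, h4⟩ := exists_step n.minFac hp F Ω
      have hle : F ≤ IntermediateField.restrictScalars K L' := by
        intro x hx
        exact L'.algebraMap_mem ⟨x, hx⟩
      have hL : IntermediateField.extendScalars hle = L' := by
        apply IntermediateField.restrictScalars_injective K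
        rfl
      refine ⟨IntermediateField.restrictScalars K L', ⟨PTow.step hF hle ?_ ?_, ?_⟩, ?_⟩
      · rw [hL]; exact h3
      · rw [hL, h2]; exact hp
      · have h4 := finrank_extend hle
        rw [hL, h2, hdeg] at h4
        rw [← h4]
        exact Nat.div_mul_cancel (Nat.minFac_dvd n)
      · intro v
        have hfd2 : FiniteDimensional F L' := FiniteDimensional.of_finrank_pos (by
          rw [h2]
          exact hp.pos)
        have hnf2 : NumberField L' := NumberField.of_module_finite F L'
        have h5 : rl K L' v = rl K F v * n.minFac := rl_tower n.minFac h4 v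
        rw [hrl v, Nat.div_mul_cancel (Nat.minFac_dvd n)] at h5
        exact h5

end Pool.Agent.H419.LT.TRT
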