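import Pool.Agent.H419.LT.Joint

/-! # Towers with local conditions: the main theorem -/

set_option autoImplicit false
set_option linter.unusedSectionVars false

open NumberField Filter Topology
open Pool.Agent.TH444.ML Pool.Agent.Q258.LQ

namespace Pool.Agent.H419.LT

section

variable {K Ω : Type} [Field K] [NumberField K] [Field Ω] [Algebra K Ω] [IsAlgClosure K Ω]

/-- quadratic extensions with `P` of the members of a family -/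
theorem quad_stepP (st : S_STEPP) (s : ℝ) (hs2 : s < 3 / 2) (P : IntermediateField K Ω → Prop)
    (𝓕 : Set (IntermediateField K Ω)) (m : ℕ) (hm : 0 < m)
    (hF : ∀ F ∈ 𝓕, Module.finrank K F = m)
    (hsum : Summable (fun F : 𝓕 => (dsc F.1) ^ (-s)))
    (hlim : ∀ F ∈ 𝓕, ∃ c : ℝ, Tendsto (fun Y : ℝ =>
      (Set.ncard {L : IntermediateField K Ω | L ∈ AS F Y ∧ P L} : ℝ) / Y) atTop (𝓝 c)) :
    (∀ X : ℝ, 0 < X → (UX 𝓕 X).Finite) ∧ ∃ c : ℝ, 0 ≤ c ∧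
      Tendsto (fun X : ℝ =>
        (Set.ncard {L : IntermediateField K Ω | L ∈ UX 𝓕 X ∧ P L} : ℝ) / X) atTop (𝓝 c) ∧
      (0 < c ↔ ∃ F ∈ 𝓕, ¬ Tendsto (fun Y : ℝ =>
        (Set.ncard {L : IntermediateField K Ω | L ∈ AS F Y ∧ P L} : ℝ) / Y) atTop (𝓝 0)) := by
  refine st K Ω P 𝓕 m hm hF _ (bound_AS3 (K := K) (Ω := Ω) inp.qu s hs2 m hm) hsum hlim ?_
  intro F hFF
  have hfd : FiniteDimensional K F := fd_of_finrank hm (hF F hFF)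
  obtain ⟨c, hc, h1, h2⟩ := lim_AS inp.ql inp.qp inp.bs F
  exact h2

/-- **Main theorem**, even degree, with the property `P`. -/
theorem main_evenP (st : S_STEPP) (P : IntermediateField K Ω → Prop) (s : ℝ) (hs1 : 1 < s)
    (hs2 : s < 3 / 2)
    (𝓑 : Set (IntermediateField K Ω)) (k : ℕ) (hk : 0 < k)
    (hB : ∀ m : ℕ, 0 < m → m ≤ 2 * k → Summable (fun F : {F : IntermediateField K Ω | F ∈ 𝓑 ∧
      Module.finrank K F = m} => (dsc F.1) ^ (-s)))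
    (hl : ∀ F ∈ PT 𝓑 k, ∃ c : ℝ, Tendsto (fun Y : ℝ =>
      (Set.ncard {L : IntermediateField K Ω | L ∈ AS F Y ∧ P L} : ℝ) / Y) atTop (𝓝 c)) :
    ∃ c : ℝ, 0 ≤ c ∧ Tendsto (fun X : ℝ =>
      (Set.ncard {L : IntermediateField K Ω | (L ∈ PP 𝓑 (2 * k) ∧ dsc L ≤ X) ∧ P L} : ℝ) / X)
        atTop (𝓝 c) ∧
      (0 < c ↔ ∃ F ∈ PT 𝓑 k, ¬ Tendsto (fun Y : ℝ =>
        (Set.ncard {L : IntermediateField K Ω | L ∈ AS F Y ∧ P L} : ℝ) / Y) atTop (𝓝 0)) := by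
  classical
  obtain ⟨hfin, c, hc, hlim, hiff⟩ := quad_stepP st s hs2 P (PT 𝓑 k) k hk (fun F hF => hF.2)
    (sum_main inp s hs1 hs2 𝓑 (2 * k) hB k hk (by omega)) hl
  refine ⟨c, hc, ?_, hiff⟩
  obtain ⟨Ct, hR⟩ := odd_union inp s hs1 hs2 𝓑 (2 * k) (by omega) hB
  set Q : Finset ℕ := (2 * k).primeFactors.erase 2 with hQ
  have hlow : ∀ X : ℝ, {L : IntermediateField K Ω | L ∈ UX (PT 𝓑 k) X ∧ P L} ⊆
      {L : IntermediateField K Ω | (L ∈ PP 𝓑 (2 * k) ∧ dsc L ≤ X) ∧ P L} :=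
    fun X L hL => ⟨⟨up_PP 𝓑 k hk hL.1.1, hL.1.2⟩, hL.2⟩
  have hupp : ∀ X : ℝ, {L : IntermediateField K Ω | (L ∈ PP 𝓑 (2 * k) ∧ dsc L ≤ X) ∧ P L} ⊆
      {L : IntermediateField K Ω | L ∈ UX (PT 𝓑 k) X ∧ P L} ∪
        ⋃ ℓ ∈ Q, GU (K := K) (Ω := Ω) ℓ (PT 𝓑 (2 * k / ℓ)) X := by
    rintro X L ⟨⟨hL, hX⟩, hP⟩
    obtain ⟨ℓ, hℓ, hG⟩ := PP_cases 𝓑 (by omega) hL
    by_cases h2' : ℓ = 2
    · left
      subst h2'
      rw [Nat.mul_div_cancel_left k (by norm_num)] at hG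
      exact ⟨⟨GG_up (PT 𝓑 k) hG, hX⟩, hP⟩
    · right
      simp only [Set.mem_iUnion, exists_prop]
      refine ⟨ℓ, by rw [hQ]; exact Finset.mem_erase.2 ⟨h2', hℓ⟩, ?_⟩
      rw [← GG_GU]
      exact ⟨hG, hX⟩
  have hlim2 : Tendsto (fun X : ℝ =>
      (Set.ncard {L : IntermediateField K Ω | L ∈ UX (PT 𝓑 k) X ∧ P L} : ℝ) / X +
      Ct * X ^ (-(1 / 2 - s / 3) : ℝ)) atTop (𝓝 c) := by
    have h1 : Tendsto (fun X : ℝ => Ct * X ^ (-(1 / 2 - s / 3) : ℝ)) atTop (𝓝 0) := by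
      have := (tendsto_rpow_neg_atTop (by linarith : (0 : ℝ) < 1 / 2 - s / 3)).const_mul Ct
      rwa [mul_zero] at this
    simpa using hlim.add h1
  have hfinP : ∀ X : ℝ, 0 < X → {L : IntermediateField K Ω | L ∈ UX (PT 𝓑 k) X ∧ P L}.Finite :=
    fun X hX => (hfin X hX).subset fun L hL => hL.1
  refine tendsto_of_tendsto_of_tendsto_of_le_of_le' hlim hlim2 ?_ ?_
  · filter_upwards [eventually_ge_atTop (1 : ℝ)] with X hX
    have hX0 : 0 < X := by linarith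
    have hf : {L : IntermediateField K Ω | (L ∈ PP 𝓑 (2 * k) ∧ dsc L ≤ X) ∧ P L}.Finite :=
      ((hfinP X hX0).union (hR X hX).1).subset (hupp X)
    refine div_le_div_of_nonneg_right ?_ hX0.le
    exact_mod_cast Set.ncard_le_ncard (hlow X) hf
  · filter_upwards [eventually_ge_atTop (1 : ℝ)] with X hX
    have hX0 : 0 < X := by linarith
    have h1 : Set.ncard {L : IntermediateField K Ω | (L ∈ PP 𝓑 (2 * k) ∧ dsc L ≤ X) ∧ P L} ≤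
        Set.ncard {L : IntermediateField K Ω | L ∈ UX (PT 𝓑 k) X ∧ P L} +
        Set.ncard (⋃ ℓ ∈ Q, GU (K := K) (Ω := Ω) ℓ (PT 𝓑 (2 * k / ℓ)) X) :=
      (Set.ncard_le_ncard (hupp X) ((hfinP X hX0).union (hR X hX).1)).trans
        (Set.ncard_union_le _ _)
    have h2 : (Set.ncard {L : IntermediateField K Ω |
        (L ∈ PP 𝓑 (2 * k) ∧ dsc L ≤ X) ∧ P L} : ℝ) ≤
        Set.ncard {L : IntermediateField K Ω | L ∈ UX (PT 𝓑 k) X ∧ P L} +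
        Set.ncard (⋃ ℓ ∈ Q, GU (K := K) (Ω := Ω) ℓ (PT 𝓑 (2 * k / ℓ)) X) := by
      exact_mod_cast h1
    have h3 := (hR X hX).2
    have e : X ^ (1 / 2 + s / 3 : ℝ) / X = X ^ (-(1 / 2 - s / 3) : ℝ) := by
      rw [div_eq_mul_inv, ← Real.rpow_neg_one, ← Real.rpow_add hX0]
      congr 1
      ring
    calc (Set.ncard {L : IntermediateField K Ω |
          (L ∈ PP 𝓑 (2 * k) ∧ dsc L ≤ X) ∧ P L} : ℝ) / X
        ≤ (Set.ncard {L : IntermediateField K Ω | L ∈ UX (PT 𝓑 k) X ∧ P L} +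
            Ct * X ^ (1 / 2 + s / 3 : ℝ)) / X := by
          refine div_le_div_of_nonneg_right (by linarith) hX0.le
      _ = (Set.ncard {L : IntermediateField K Ω | L ∈ UX (PT 𝓑 k) X ∧ P L} : ℝ) / X +
          Ct * X ^ (-(1 / 2 - s / 3) : ℝ) := by
          rw [add_div, mul_div_assoc, e]

/-- the general theorem -/
theorem fin_evenP (st : S_STEPP) (𝓑 : Set (IntermediateField K Ω))
    (hB : ∀ m : ℕ, 0 < m → ∃ θ : ℝ, θ < 3 / 2 ∧ ∃ C : ℝ, ∀ X : ℝ, 1 ≤ X →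
      (Set.ncard {L : IntermediateField K Ω | L ∈ 𝓑 ∧ Module.finrank K L = m ∧ dsc L ≤ X} : ℝ) ≤
        C * X ^ θ) (k : ℕ) (hk : 0 < k)
    (𝔪 : Ideal (𝓞 K)) (h𝔪 : 𝔪 ≠ ⊥) (R : Type) [CommRing R] [Algebra (𝓞 K) R]
    (r : (K →+* ℝ) → ℕ) :
    ∃ c : ℝ, 0 ≤ c ∧ Tendsto (fun X : ℝ =>
      (Set.ncard {L : IntermediateField K Ω | (L ∈ SAb 𝓑 ∧ Jt K 𝔪 R r L) ∧
        Module.finrank K L = 2 * k ∧ dsc L ≤ X} : ℝ) / X) atTop (𝓝 c) ∧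
      (0 < c ↔ ∃ M L : IntermediateField K Ω, STow 𝓑 M ∧ Module.finrank K M = k ∧ M ≤ L ∧
        Module.finrank K L = 2 * k ∧ Jt K 𝔪 R r L) := by
  obtain ⟨s, hs1, hs2, hs⟩ := choose_s 𝓑 (2 * k) hB
  have hfd : ∀ F ∈ PT 𝓑 k, FiniteDimensional K F := fun F hF => fd_of_finrank hk hF.2
  obtain ⟨c, hc, hlim, hiff⟩ := main_evenP st (fun L => Jt K 𝔪 R r L) s hs1 hs2 𝓑 k hk hs
    (fun F hF => by
      have := hfd F hF
      exact (lim_joint 𝔪 h𝔪 R r F).1)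
  refine ⟨c, hc, ?_, hiff.trans ?_⟩
  · have hset : ∀ X : ℝ, {L : IntermediateField K Ω | (L ∈ SAb 𝓑 ∧ Jt K 𝔪 R r L) ∧
        Module.finrank K L = 2 * k ∧ dsc L ≤ X} =
        {L : IntermediateField K Ω | (L ∈ PP 𝓑 (2 * k) ∧ dsc L ≤ X) ∧ Jt K 𝔪 R r L} := by
      intro X
      ext L
      simp only [Set.mem_ofPred_eq, sAb_iff, PP]
      tauto
    simp only [hset]
    exact hlim
  · constructor
    · rintro ⟨F, hF, hne⟩
      have := hfd F hF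
      obtain ⟨L, h1, h2, h3⟩ := (lim_joint 𝔪 h𝔪 R r F).2.1 hne
      refine ⟨F, L, (sTow_iff 𝓑 F).2 hF.1, hF.2, h1, ?_, h3⟩
      rw [h2, hF.2]
    · rintro ⟨M, L, h1, h2, h3, h4, h5⟩
      have hM : M ∈ PT 𝓑 k := ⟨(sTow_iff 𝓑 M).1 h1, h2⟩
      have := hfd M hM
      refine ⟨M, hM, (lim_joint 𝔪 h𝔪 R r M).2.2 ⟨L, h3, ?_, h5⟩⟩
      rw [h4, h2]

end

end Pool.Agent.H419.LT
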