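import Pool.Agent.H419.LT.TowSig
import Pool.Agent.H419.LT.TRT
import Pool.Agent.H419.LT.STEPP

/-! # Towers with local conditions: final form -/

set_option autoImplicit false
set_option linter.unusedSectionVars false

open NumberField Filter Topology
open Pool.Agent.TH444.ML Pool.Agent.Q258.LQ

namespace Pool.Agent.H419.LT

section

variable {K Ω : Type} [Field K] [NumberField K] [Field Ω] [Algebra K Ω] [IsAlgClosure K Ω]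

theorem fin_evenJ (𝓑 : Set (IntermediateField K Ω))
    (hB : ∀ m : ℕ, 0 < m → ∃ θ : ℝ, θ < 3 / 2 ∧ ∃ C : ℝ, ∀ X : ℝ, 1 ≤ X →
      (Set.ncard {L : IntermediateField K Ω | L ∈ 𝓑 ∧ Module.finrank K L = m ∧ dsc L ≤ X} : ℝ) ≤
        C * X ^ θ) (k : ℕ) (hk : 0 < k)
    (𝔪 : Ideal (𝓞 K)) (h𝔪 : 𝔪 ≠ ⊥) (R : Type) [CommRing R] [Algebra (𝓞 K) R]
    (r : (K →+* ℝ) → ℕ) :
    ∃ c : ℝ, 0 ≤ c ∧ Tendsto (fun X : ℝ =>
      (Set.ncard {L : IntermediateField K Ω | (L ∈ SAb 𝓑 ∧ Jt K 𝔪 R r L) ∧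
        Module.finrank K L = 2 * k ∧ dsc L ≤ X} : ℝ) / X) atTop (𝓝 c) ∧
      (0 < c ↔ ∃ M L : IntermediateField K Ω, STow 𝓑 M ∧ Module.finrank K M = k ∧ M ≤ L ∧
        Module.finrank K L = 2 * k ∧ Jt K 𝔪 R r L) :=
  fin_evenP STEPP.t_STEPP 𝓑 hB k hk 𝔪 h𝔪 R r

theorem exists_sigJ (k : ℕ) (hk : 0 < k) (r : (K →+* ℝ) → ℕ)
    (hr : ∀ v, Even (r v) ∧ r v ≤ 2 * k) :
    ∃ M L : IntermediateField K Ω, STow {⊥} M ∧ Module.finrank K M = k ∧ M ≤ L ∧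
      Module.finrank K L = 2 * k ∧ ∀ v : K →+* ℝ, rl K L v = r v :=
  exists_sig TRT.t_TRT k hk r hr

end

end Pool.Agent.H419.LT
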