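import Pool.Agent.H419.LT.Tow

/-! # Towers with prescribed signatures -/

set_option autoImplicit false
set_option linter.unusedSectionVars false

open NumberField Filter Topology
open Pool.Agent.TH444.ML Pool.Agent.Q258.LQ

namespace Pool.Agent.H419.LT

/-- no condition at the finite places -/
theorem ty_top (K L : Type) [Field K] [Field L] [Algebra K L] : Ty K L ⊤ PUnit := by
  have h : (⊤ : Ideal (𝓞 K)).map (algebraMap (𝓞 K) (𝓞 L)) = ⊤ := Ideal.map_top _
  have hs : Subsingleton (𝓞 L ⧸ (⊤ : Ideal (𝓞 K)).map (algebraMap (𝓞 K) (𝓞 L))) := by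
    rw [h]
    exact Ideal.Quotient.subsingleton_iff.2 rfl
  let f : (𝓞 L ⧸ (⊤ : Ideal (𝓞 K)).map (algebraMap (𝓞 K) (𝓞 L))) →ₐ[𝓞 K] PUnit :=
    { toFun := fun _ => PUnit.unit
      map_one' := rfl
      map_mul' := fun _ _ => rfl
      map_zero' := rfl
      map_add' := fun _ _ => rfl
      commutes' := fun _ => rfl }
  refine ⟨AlgEquiv.ofBijective f ⟨?_, ?_⟩⟩
  · intro a b _
    exact Subsingleton.elim a b
  · intro x
    exact ⟨0, Subsingleton.elim _ _⟩

section

variable {K Ω : Type} [Field K] [NumberField K] [Field Ω] [Algebra K Ω] [IsAlgClosure K Ω]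

theorem exists_sig (trt : S_TRT) (k : ℕ) (hk : 0 < k) (r : (K →+* ℝ) → ℕ)
    (hr : ∀ v, Even (r v) ∧ r v ≤ 2 * k) :
    ∃ M L : IntermediateField K Ω, STow {⊥} M ∧ Module.finrank K M = k ∧ M ≤ L ∧
      Module.finrank K L = 2 * k ∧ ∀ v : K →+* ℝ, rl K L v = r v := by
  have hac : IsAlgClosed Ω := IsAlgClosure.isAlgClosed K
  obtain ⟨M, hM, hrl⟩ := trt K Ω k hk
  have hfd : FiniteDimensional K M := fd_of_finrank hk hM.2
  have hnf : NumberField M := nf_of_fd M
  have hr' : ∀ v, Even (r v) ∧ r v / 2 ≤ rl K M v := by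
    intro v
    refine ⟨(hr v).1, ?_⟩
    rw [hrl v]
    have := (hr v).2
    omega
  obtain ⟨S, hS⟩ := exists_S r hr'
  obtain ⟨α₀, hα₀, hsg⟩ := apx M S
  by_contra hcon
  have hno : ∀ L : IntermediateField M Ω, Module.finrank M L = 2 →
      ¬ ∀ v : K →+* ℝ, rl K L v = r v := by
    intro L h2 hT
    apply hcon
    have hle : M ≤ IntermediateField.restrictScalars K L := by
      intro x hx
      exact L.algebraMap_mem ⟨x, hx⟩
    refine ⟨M, IntermediateField.restrictScalars K L, (sTow_iff {⊥} M).2 hM.1, hM.2, hle, ?_, hT⟩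
    have h3 : Module.finrank K L = Module.finrank K M * Module.finrank M L :=
      (Module.finrank_mul_finrank K M L).symm
    rw [hM.2, h2] at h3
    rw [mul_comm]
    exact h3
  refine POSS.t_POSS CDS.t_CDS M Ω (fun L => ∀ v : K →+* ℝ, rl K L v = r v) α₀ ⊤ hα₀
    top_ne_bot ?_ ?_
  · intro β s _ hβ hs hns v
    have h5 : sg ((α₀ * β : 𝓞 M) : M) = S := by
      rw [← hsg]
      exact sg_mul_pos _ _ hβ
    rw [rl_adj hs hns v, h5, hS v]
    obtain ⟨k, hk⟩ := (hr v).1
    omega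
  · have : ∀ Y : ℝ, {L : IntermediateField M Ω | L ∈ QS M Ω Y ∧
        ∀ v : K →+* ℝ, rl K L v = r v} = ∅ := by
      intro Y
      rw [Set.eq_empty_iff_forall_notMem]
      rintro L ⟨hL, hT⟩
      exact hno L hL.1 hT
    simp only [this, Set.ncard_empty, Nat.cast_zero, zero_div]
    exact tendsto_const_nhds

theorem PTow_mono {𝓑 𝓑' : Set (IntermediateField K Ω)} (h : 𝓑 ⊆ 𝓑') {L : IntermediateField K Ω}
    (hL : STow 𝓑 L) : STow 𝓑' L := by
  induction hL with
  | base F hF => exact STow.base F (h hF)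
  | step F L _ hs ih => exact STow.step F L ih hs

end

end Pool.Agent.H419.LT
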